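import Mathlib

/-!
Gaussian integrals with products of orthogonal linear forms.
-/

set_option autoImplicit false

open MeasureTheory Complex

namespace Pool.Agent.J4H31.U

variable {ι : Type} [Fintype ι]

/-- a linear form -/
noncomputable def lf (α : ι → ℂ) (u : ι → ℂ) : ℂ := ∑ i, α i * u i

/-- a product of linear forms -/
noncomputable def LP (l : List (ι → ℂ)) (u : ι → ℂ) : ℂ := (l.map fun α => lf α u).prod

/-- gaussian with a complex linear term -/
noncomputable def EE (b : ι → ℝ) (c : ι → ℂ) (u : ι → ℝ) : ℂ :=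
  cexp (∑ i, (-((Real.pi * b i : ℝ) : ℂ) * (u i : ℂ) ^ 2 + 2 * Real.pi * c i * u i))

lemma LP_cons (α : ι → ℂ) (l : List (ι → ℂ)) (u : ι → ℂ) : LP (α :: l) u = lf α u * LP l u := by
  unfold LP
  rw [List.map_cons, List.prod_cons]

lemma continuous_lf (α : ι → ℂ) : Continuous fun u : ι → ℝ => lf α (fun i => (u i : ℂ)) := by
  unfold lf
  fun_prop

lemma continuous_LP (l : List (ι → ℂ)) : Continuous fun u : ι → ℝ => LP l (fun i => (u i : ℂ)) := by
  induction l with
  | nil =>
    have : (fun u : ι → ℝ => LP ([] : List (ι → ℂ)) (fun i => (u i : ℂ))) = fun _ => 1 := by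
      funext u
      simp [LP]
    rw [this]
    exact continuous_const
  | cons α l ih =>
    simp_rw [LP_cons]
    exact (continuous_lf α).mul ih

lemma continuous_EE (b : ι → ℝ) (c : ι → ℂ) : Continuous (EE b c) := by
  unfold EE
  fun_prop

/-- the sum of the absolute values -/
noncomputable def s1 (u : ι → ℝ) : ℝ := ∑ i, |u i|

lemma s1_nonneg (u : ι → ℝ) : 0 ≤ s1 u := Finset.sum_nonneg fun _ _ => abs_nonneg _

/-- the norm of a form -/
noncomputable def nf (α : ι → ℂ) : ℝ := ∑ i, ‖α i‖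

lemma nf_nonneg (α : ι → ℂ) : 0 ≤ nf α := Finset.sum_nonneg fun _ _ => norm_nonneg _

lemma norm_lf_le (α : ι → ℂ) (u : ι → ℝ) : ‖lf α (fun i => (u i : ℂ))‖ ≤ nf α * Real.exp (s1 u) := by
  unfold lf nf
  refine (norm_sum_le _ _).trans ?_
  rw [Finset.sum_mul]
  refine Finset.sum_le_sum fun i _ => ?_
  rw [norm_mul, Complex.norm_real, Real.norm_eq_abs]
  refine mul_le_mul_of_nonneg_left ?_ (norm_nonneg _)
  have h1 : |u i| ≤ s1 u := Finset.single_le_sum (f := fun i => |u i|) (fun _ _ => abs_nonneg _)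
    (Finset.mem_univ i)
  have h2 := Real.add_one_le_exp (s1 u)
  linarith

/-- the norm of a product -/
noncomputable def nL (l : List (ι → ℂ)) : ℝ := (l.map nf).prod

lemma nL_nonneg (l : List (ι → ℂ)) : 0 ≤ nL l := by
  unfold nL
  refine List.prod_nonneg fun a ha => ?_
  rw [List.mem_map] at ha
  obtain ⟨α, -, rfl⟩ := ha
  exact nf_nonneg α

lemma norm_LP_le (l : List (ι → ℂ)) (u : ι → ℝ) :
    ‖LP l (fun i => (u i : ℂ))‖ ≤ nL l * Real.exp (l.length * s1 u) := by
  induction l with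
  | nil => simp [LP, nL]
  | cons α l ih =>
    rw [LP_cons, norm_mul]
    have h1 := norm_lf_le α u
    have h2 : nL (α :: l) = nf α * nL l := by
      unfold nL
      rw [List.map_cons, List.prod_cons]
    rw [h2]
    calc _ ≤ (nf α * Real.exp (s1 u)) * (nL l * Real.exp (l.length * s1 u)) :=
          mul_le_mul h1 ih (norm_nonneg _) (mul_nonneg (nf_nonneg _) (Real.exp_pos _).le)
      _ = nf α * nL l * (Real.exp (s1 u) * Real.exp (l.length * s1 u)) := by ring
      _ = _ := by
          rw [← Real.exp_add, List.length_cons]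
          congr 2
          push_cast
          ring

lemma norm_EE (b : ι → ℝ) (c : ι → ℂ) (u : ι → ℝ) : ‖EE b c u‖ =
    Real.exp (∑ i, (-(Real.pi * b i) * (u i) ^ 2 + 2 * Real.pi * (c i).re * u i)) := by
  unfold EE
  rw [Complex.norm_exp]
  congr 1
  rw [Complex.re_sum]
  refine Finset.sum_congr rfl fun i _ => ?_
  have e1 : (-((Real.pi * b i : ℝ) : ℂ) * (u i : ℂ) ^ 2 + 2 * Real.pi * c i * u i : ℂ) =
      ((-(Real.pi * b i) * (u i) ^ 2 : ℝ) : ℂ) + ((2 * Real.pi * u i : ℝ) : ℂ) * c i := by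
    push_cast
    ring
  rw [e1, Complex.add_re, Complex.ofReal_re, Complex.re_ofReal_mul]
  ring

lemma norm_EE_le (b : ι → ℝ) (c : ι → ℂ) {M : ℝ} (hM : ∀ i, 2 * Real.pi * ‖c i‖ ≤ M) (u : ι → ℝ) :
    ‖EE b c u‖ ≤ Real.exp (∑ i, (-(Real.pi * b i) * (u i) ^ 2 + M * |u i|)) := by
  rw [norm_EE]
  refine Real.exp_le_exp.2 (Finset.sum_le_sum fun i _ => ?_)
  have h1 : 2 * Real.pi * (c i).re * u i ≤ M * |u i| := by
    calc 2 * Real.pi * (c i).re * u i ≤ |2 * Real.pi * (c i).re * u i| := le_abs_self _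
      _ = 2 * Real.pi * |(c i).re| * |u i| := by
          rw [abs_mul, abs_mul, abs_of_pos (by positivity : (0 : ℝ) < 2 * Real.pi)]
      _ ≤ 2 * Real.pi * ‖c i‖ * |u i| := by
          have := Complex.abs_re_le_norm (c i)
          gcongr
      _ ≤ _ := mul_le_mul_of_nonneg_right (hM i) (abs_nonneg _)
  linarith

/-- the majorant -/
noncomputable def mj (b : ι → ℝ) (M : ℝ) (u : ι → ℝ) : ℝ :=
  Real.exp (∑ i, (-(Real.pi * b i) * (u i) ^ 2 + M * |u i|))

lemma int1 {β : ℝ} (hβ : 0 < β) (M : ℝ) : Integrable fun x : ℝ => Real.exp (-β * x ^ 2 + M * |x|) := by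
  have h0 : ∀ M : ℝ, Integrable fun x : ℝ => Real.exp (-β * x ^ 2 + M * x) := by
    intro M
    have h1 := (integrable_cexp_quadratic (b := (β : ℂ)) (by simpa using hβ) (M : ℂ) 0).norm
    refine h1.congr (Filter.Eventually.of_forall fun x => ?_)
    simp only
    rw [Complex.norm_exp]
    congr 1
    have : (-(β : ℂ) * (x : ℂ) ^ 2 + (M : ℂ) * x + 0) = ((-β * x ^ 2 + M * x : ℝ) : ℂ) := by
      push_cast; ring
    rw [this, Complex.ofReal_re]
  refine ((h0 M).add (h0 (-M))).mono' (by fun_prop) (Filter.Eventually.of_forall fun x => ?_)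
  rw [Real.norm_of_nonneg (Real.exp_pos _).le, Pi.add_apply]
  have p1 := Real.exp_pos (-β * x ^ 2 + M * x)
  have p2 := Real.exp_pos (-β * x ^ 2 + -M * x)
  rcases abs_cases x with ⟨h, -⟩ | ⟨h, -⟩
  · rw [h]; linarith
  · rw [h]
    have : -β * x ^ 2 + M * -x = -β * x ^ 2 + -M * x := by ring
    rw [this]; linarith

lemma integrable_mj {b : ι → ℝ} (hb : ∀ i, 0 < b i) (M : ℝ) : Integrable (mj b M) := by
  unfold mj
  simp_rw [Real.exp_sum]
  exact Integrable.fintype_prod (f := fun i x => Real.exp (-(Real.pi * b i) * x ^ 2 + M * |x|))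
    fun i => int1 (mul_pos Real.pi_pos (hb i)) M

lemma mj_mul_exp (b : ι → ℝ) (M r : ℝ) (u : ι → ℝ) :
    Real.exp (r * s1 u) * mj b M u = mj b (M + r) u := by
  unfold mj s1
  rw [← Real.exp_add, Finset.mul_sum, ← Finset.sum_add_distrib]
  congr 1
  exact Finset.sum_congr rfl fun i _ => by ring

lemma bound_all (l : List (ι → ℂ)) (b : ι → ℝ) (c : ι → ℂ) {M : ℝ}
    (hM : ∀ i, 2 * Real.pi * ‖c i‖ ≤ M) (u : ι → ℝ) :
    ‖LP l (fun i => (u i : ℂ)) * EE b c u‖ ≤ nL l * mj b (M + l.length) u := by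
  rw [norm_mul, ← mj_mul_exp, ← mul_assoc]
  exact mul_le_mul (norm_LP_le l u) (norm_EE_le b c hM u) (norm_nonneg _)
    (mul_nonneg (nL_nonneg _) (Real.exp_pos _).le)

lemma integrable_LE (l : List (ι → ℂ)) {b : ι → ℝ} (hb : ∀ i, 0 < b i) (c : ι → ℂ) :
    Integrable fun u : ι → ℝ => LP l (fun i => (u i : ℂ)) * EE b c u := by
  have hM : ∀ i, 2 * Real.pi * ‖c i‖ ≤ ∑ j, 2 * Real.pi * ‖c j‖ := fun i =>
    Finset.single_le_sum (f := fun j => 2 * Real.pi * ‖c j‖) (fun _ _ => by positivity)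
      (Finset.mem_univ i)
  exact ((integrable_mj hb _).const_mul (nL l)).mono'
    ((continuous_LP l).mul (continuous_EE b c)).aestronglyMeasurable
    (Filter.Eventually.of_forall fun u => bound_all l b c hM u)

lemma EE_shift (b : ι → ℝ) (c α : ι → ℂ) (τ : ℂ) (u : ι → ℝ) :
    EE b (fun i => c i + τ * α i) u = EE b c u * cexp (2 * Real.pi * lf α (fun i => (u i : ℂ)) * τ) := by
  unfold EE lf
  rw [← Complex.exp_add]
  congr 1
  rw [Finset.mul_sum, Finset.sum_mul, ← Finset.sum_add_distrib]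
  exact Finset.sum_congr rfl fun i _ => by ring

/-- **Gaussian integrals with products of orthogonal linear forms** -/
theorem ggen {b : ι → ℝ} (hb : ∀ i, 0 < b i) (l : List (ι → ℂ))
    (hl : l.Pairwise fun α β => ∑ i, β i * α i / (b i : ℂ) = 0) (c : ι → ℂ) :
    ∫ u : ι → ℝ, LP l (fun i => (u i : ℂ)) * EE b c u =
      (∏ i, ((Real.sqrt (b i) : ℝ) : ℂ)⁻¹) * (LP l (fun i => c i / b i) *
        cexp (Real.pi * ∑ i, c i ^ 2 / b i)) := by
  induction l generalizing c with
  | nil =>
    have e1 : ∀ u : ι → ℝ, LP ([] : List (ι → ℂ)) (fun i => (u i : ℂ)) * EE b c u =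
        ∏ i, cexp (-((Real.pi * b i : ℝ) : ℂ) * (u i : ℂ) ^ 2 + 2 * Real.pi * c i * u i + 0) := by
      intro u
      unfold LP EE
      rw [List.map_nil, List.prod_nil, one_mul, Complex.exp_sum]
      simp only [add_zero]
    simp_rw [e1]
    rw [integral_fintype_prod_volume_eq_prod (fun (i : ι) (x : ℝ) =>
      cexp (-((Real.pi * b i : ℝ) : ℂ) * (x : ℂ) ^ 2 + 2 * Real.pi * c i * x + 0))]
    unfold LP
    rw [List.map_nil, List.prod_nil, one_mul, Finset.mul_sum, Complex.exp_sum,
      ← Finset.prod_mul_distrib]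
    refine Finset.prod_congr rfl fun i _ => ?_
    have hbi := hb i
    have hpb : 0 < Real.pi * b i := mul_pos Real.pi_pos hbi
    rw [integral_cexp_quadratic (by simpa using hpb)]
    have hpi : (Real.pi : ℂ) ≠ 0 := by exact_mod_cast Real.pi_ne_zero
    have hbc : (b i : ℂ) ≠ 0 := by exact_mod_cast hbi.ne'
    congr 1
    · have e2 : (Real.pi : ℂ) / - -((Real.pi * b i : ℝ) : ℂ) = (((b i)⁻¹ : ℝ) : ℂ) := by
        push_cast
        rw [neg_neg]
        field_simp
      rw [e2]
      have e3 : ((1 : ℂ) / 2) = (((1 / 2 : ℝ)) : ℂ) := by push_cast; ring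
      rw [e3, ← Complex.ofReal_cpow (inv_pos.2 hbi).le, ← Real.sqrt_eq_rpow, Real.sqrt_inv]
      push_cast
      rfl
    · congr 1
      push_cast
      field_simp
      ring
  | cons α l ih =>
    rw [List.pairwise_cons] at hl
    obtain ⟨hα, hl'⟩ := hl
    have hpi : (2 * Real.pi : ℂ) ≠ 0 := mul_ne_zero two_ne_zero (by exact_mod_cast Real.pi_ne_zero)
    -- the two sides as functions of the shift
    set F : ℂ → (ι → ℝ) → ℂ := fun τ u =>
      LP l (fun i => (u i : ℂ)) * EE b (fun i => c i + τ * α i) u with hF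
    set F' : ℂ → (ι → ℝ) → ℂ := fun τ u =>
      LP (α :: l) (fun i => (u i : ℂ)) * EE b (fun i => c i + τ * α i) u * (2 * Real.pi) with hF'
    have hd : ∀ (u : ι → ℝ) (τ : ℂ), HasDerivAt (fun τ => F τ u) (F' τ u) τ := by
      intro u τ
      simp only [hF, hF']
      simp_rw [EE_shift]
      have h1 : HasDerivAt (fun τ : ℂ => cexp (2 * Real.pi * lf α (fun i => (u i : ℂ)) * τ))
          (cexp (2 * Real.pi * lf α (fun i => (u i : ℂ)) * τ) *
            (2 * Real.pi * lf α (fun i => (u i : ℂ)) * 1)) τ :=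
        ((hasDerivAt_id τ).const_mul _).cexp
      have h2 := ((h1.const_mul (EE b c u)).const_mul (LP l (fun i => (u i : ℂ))))
      refine h2.congr_deriv ?_
      rw [LP_cons]
      ring
    set M : ℝ := ∑ j, 2 * Real.pi * (‖c j‖ + ‖α j‖) with hMd
    have hM : ∀ τ ∈ Metric.ball (0 : ℂ) 1, ∀ i, 2 * Real.pi * ‖c i + τ * α i‖ ≤ M := by
      intro τ hτ i
      have hτ1 : ‖τ‖ ≤ 1 := by
        rw [mem_ball_zero_iff] at hτ
        exact hτ.le
      have h1 : ‖c i + τ * α i‖ ≤ ‖c i‖ + ‖α i‖ := by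
        refine (norm_add_le _ _).trans (add_le_add le_rfl ?_)
        rw [norm_mul]
        exact mul_le_of_le_one_left (norm_nonneg _) hτ1
      calc 2 * Real.pi * ‖c i + τ * α i‖ ≤ 2 * Real.pi * (‖c i‖ + ‖α i‖) := by gcongr
        _ ≤ M := Finset.single_le_sum (f := fun j => 2 * Real.pi * (‖c j‖ + ‖α j‖))
            (fun _ _ => by positivity) (Finset.mem_univ i)
    have hbd : ∀ u : ι → ℝ, ∀ τ ∈ Metric.ball (0 : ℂ) 1, ‖F' τ u‖ ≤
        nL (α :: l) * mj b (M + (α :: l).length) u * (2 * Real.pi) := by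
      intro u τ hτ
      simp only [hF']
      rw [norm_mul]
      have h1 := bound_all (α :: l) b (fun i => c i + τ * α i) (hM τ hτ) u
      have h2 : ‖(2 * Real.pi : ℂ)‖ = 2 * Real.pi := by
        rw [norm_mul, Complex.norm_real, Real.norm_of_nonneg Real.pi_pos.le]
        simp
      rw [h2]
      exact mul_le_mul_of_nonneg_right h1 (by positivity)
    have key := hasDerivAt_integral_of_dominated_loc_of_deriv_le (μ := (volume : Measure (ι → ℝ)))
      (F := F) (F' := F') (x₀ := (0 : ℂ)) (s := Metric.ball 0 1)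
      (bound := fun u => nL (α :: l) * mj b (M + (α :: l).length) u * (2 * Real.pi))
      (Metric.ball_mem_nhds 0 one_pos)
      (Filter.Eventually.of_forall fun τ => ((continuous_LP l).mul (continuous_EE b _)).aestronglyMeasurable)
      (integrable_LE l hb _)
      (((continuous_LP (α :: l)).mul (continuous_EE b _)).mul continuous_const).aestronglyMeasurable
      (Filter.Eventually.of_forall fun u => hbd u)
      (((integrable_mj hb _).const_mul _).mul_const _)
      (Filter.Eventually.of_forall fun u => fun τ _ => hd u τ)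
    have hd1 := key.2
    -- the other side
    have hconst : ∀ τ : ℂ, LP l (fun i => (c i + τ * α i) / b i) = LP l (fun i => c i / b i) := by
      intro τ
      unfold LP
      congr 1
      refine List.map_congr_left fun β hβ => ?_
      unfold lf
      have h1 := hα β hβ
      have e1 : ∀ i, β i * ((c i + τ * α i) / b i) = β i * (c i / b i) + τ * (β i * α i / b i) := by
        intro i; ring
      simp_rw [e1]
      rw [Finset.sum_add_distrib, ← Finset.mul_sum, h1, mul_zero, add_zero]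
    have hI : (fun τ => ∫ u, F τ u) = fun τ : ℂ => (∏ i, ((Real.sqrt (b i) : ℝ) : ℂ)⁻¹) *
        (LP l (fun i => c i / b i) * cexp (Real.pi * ∑ i, (c i + τ * α i) ^ 2 / b i)) := by
      funext τ
      simp only [hF]
      rw [ih hl' (fun i => c i + τ * α i), hconst]
    have hq : HasDerivAt (fun τ : ℂ => (Real.pi : ℂ) * ∑ i, (c i + τ * α i) ^ 2 / b i)
        ((Real.pi : ℂ) * ∑ i, 2 * (c i * α i / b i)) 0 := by
      refine HasDerivAt.const_mul _ ?_
      have : ∀ i ∈ Finset.univ, HasDerivAt (fun τ : ℂ => (c i + τ * α i) ^ 2 / b i)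
          (2 * (c i * α i / b i)) 0 := by
        intro i _
        have h1 : HasDerivAt (fun τ : ℂ => c i + τ * α i) (1 * α i) 0 :=
          ((hasDerivAt_id (0 : ℂ)).mul_const (α i)).const_add (c i)
        have h2 := (h1.pow 2).div_const (b i : ℂ)
        refine h2.congr_deriv ?_
        simp only [zero_mul, add_zero]
        push_cast
        ring
      have h3 := HasDerivAt.fun_sum this
      exact h3
    have hd2 : HasDerivAt (fun τ => ∫ u, F τ u) ((∏ i, ((Real.sqrt (b i) : ℝ) : ℂ)⁻¹) *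
        (LP l (fun i => c i / b i) * (cexp (Real.pi * ∑ i, (c i + 0 * α i) ^ 2 / b i) *
          ((Real.pi : ℂ) * ∑ i, 2 * (c i * α i / b i))))) 0 := by
      rw [hI]
      exact ((hq.cexp).const_mul _).const_mul _
    have heq := hd1.unique hd2
    simp only [hF', zero_mul, add_zero] at heq
    rw [integral_mul_const] at heq
    apply mul_right_cancel₀ hpi
    rw [heq, LP_cons]
    have e5 : lf α (fun i => c i / b i) = ∑ i, c i * α i / b i := by
      unfold lf
      exact Finset.sum_congr rfl fun i _ => by ring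
    rw [e5, ← Finset.mul_sum]
    ring

end Pool.Agent.J4H31.U
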