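import Pool.Agent.J4H31.U.U9
import Pool.Agent.Y773.HG.FeK

/-!
Sums over the ideal classes and the functional equation (after `Pool.Agent.Y773.HG.Cls`, `Fam`).
-/

set_option autoImplicit false
set_option linter.unusedSectionVars false

open NumberField Complex Filter Topology MeasureTheory Set
open NumberField.Units NumberField.Units.dirichletUnitTheorem
open Pool.Agent.Y773 (PIdl gen gen_ne_zero toP LI Reps qt FT cube el)
open Pool.Agent.Y773.G (sum_classes norm_FT_le absNorm_pos')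

open Pool.Agent.Y767 (ax norm_ax ax_mul)

namespace Pool.Agent.J4H31.U

variable {K : Type} [Field K] [NumberField K]

lemma ax_nat {ν : InfinitePlace K → ℝ} (hν : ∑ w, ν w = 0) (k : ℕ) : ax ν ((k : ℕ) : K) = 1 := by
  unfold Pool.Agent.Y767.ax
  have : (∑ w : InfinitePlace K, ν w * Real.log (w ((k : ℕ) : K))) = 0 := by
    simp_rw [InfinitePlace.map_natCast]
    rw [← Finset.sum_mul, hν, zero_mul]
  rw [this]
  simp

lemma kap_kp {σ : InfinitePlace K → (K →+* ℂ)} (hs : Sel σ) (e : InfinitePlace K → ℕ)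
    {ν : InfinitePlace K → ℝ} (hν : ∑ w, ν w = 0) :
    Kap (kp σ e ν : K → ℂ) where
  mul x y hx hy := by
    unfold kp
    rw [us_mul, map_mul, ax_mul _ hx hy]
    ring
  norm x hx := by
    unfold kp
    rw [norm_mul, norm_ax, mul_one, Complex.norm_conj, norm_us hs e hx]
  le x := by
    unfold kp
    rw [norm_mul, norm_ax, mul_one, Complex.norm_conj]
    exact norm_us_le hs e x
  nat k hk := by
    unfold kp
    rw [us_nat σ e hk, map_one, one_mul, ax_nat]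
    rw [Finset.sum_neg_distrib, hν, neg_zero]

lemma IsModK.nice {𝔪 : Ideal (𝓞 K)} {σ : InfinitePlace K → (K →+* ℂ)} (hs : Sel σ)
    {e : InfinitePlace K → ℕ} (he : Ex e) {ν : InfinitePlace K → ℝ} (hν : ∑ w, ν w = 0)
    {η : Ideal (𝓞 K) →*₀ ℂ}
    (h : IsModK 𝔪 (kp σ e ν) η) {𝔟 : Ideal (𝓞 K)} (h𝔟 : 𝔟 ≠ ⊥) :
    NiceX σ e ν (Pk η (kp σ e ν) 𝔟) where
  sel := hs
  ex := he
  nu := hν
  bdd := ⟨1, norm_Pk_le h.kap h.norm_le_one 𝔟⟩
  zero := Pk_zero h𝔟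
  unit u x := Pk_unit_smul h.kap h𝔟 u x

lemma IsModK.per_m {𝔪 : Ideal (𝓞 K)} {κ : K → ℂ} {η : Ideal (𝓞 K) →*₀ ℂ}
    (h : IsModK 𝔪 κ η) {𝔟 : Ideal (𝓞 K)} (h𝔟 : 𝔟 ≠ ⊥) {m : ℕ} (hm : (m : 𝓞 K) ∈ 𝔟 * 𝔪)
    (x z : 𝓞 K) : Pk η κ 𝔟 (x + m * z) = Pk η κ 𝔟 x := by
  refine h.per h𝔟 ?_
  rw [add_sub_cancel_left]
  exact Ideal.mul_mem_right _ _ hm

lemma AX_Pk {σ : InfinitePlace K → (K →+* ℂ)} (hs : Sel σ) (e : InfinitePlace K → ℕ)
    (ν : InfinitePlace K → ℝ)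
    (η : Ideal (𝓞 K) →*₀ ℂ) (𝔟 : Ideal (𝓞 K)) (J : PIdl K) :
    AX σ e ν (Pk η (kp σ e ν) 𝔟) J = η (qt 𝔟 (gen J)) := by
  unfold AX Pk
  rw [mul_assoc, kp_mul_inv hs e ν (RingOfIntegers.coe_ne_zero_iff.mpr (gen_ne_zero J)), mul_one]

/-- the total function -/
noncomputable def Ftx (η : Ideal (𝓞 K) →*₀ ℂ) (σ : InfinitePlace K → (K →+* ℂ))
    (e : InfinitePlace K → ℕ) (ν : InfinitePlace K → ℝ)
    (𝔟 : ClassGroup (𝓞 K) → Ideal (𝓞 K)) (t : ℝ) : ℂ :=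
  ∑ c, hX σ e ν (Pk η (kp σ e ν) (𝔟 c)) ((Ideal.absNorm (𝔟 c) : ℝ)⁻¹ * t)

/-- the dual function -/
noncomputable def Gtx (η : Ideal (𝓞 K) →*₀ ℂ) (σ : InfinitePlace K → (K →+* ℂ))
    (e : InfinitePlace K → ℕ) (ν : InfinitePlace K → ℝ)
    (𝔟 : ClassGroup (𝓞 K) → Ideal (𝓞 K)) (m D : ℕ) (t : ℝ) : ℂ :=
  ∑ c, (Ideal.absNorm (𝔟 c) : ℂ) * hX (sc σ) e (fun w => -ν w) (FT D m (Pk η (kp σ e ν) (𝔟 c)))
    (t * Ideal.absNorm (𝔟 c) / ((m * D : ℕ) : ℝ) ^ (Module.finrank ℚ K))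

/-- Mellin transform of the total function -/
theorem mellin_Ftx (K : Type) [Field K] [NumberField K] : ∃ C : ℝ, 0 < C ∧
    ∀ (𝔟 : ClassGroup (𝓞 K) → Ideal (𝓞 K)), Reps 𝔟 → ∀ (σ : InfinitePlace K → (K →+* ℂ))
      (e : InfinitePlace K → ℕ) (ν : InfinitePlace K → ℝ) (η : Ideal (𝓞 K) →*₀ ℂ),
      (∀ 𝔞, ‖η 𝔞‖ ≤ 1) →
      (∀ c, NiceX σ e ν (Pk η (kp σ e ν) (𝔟 c))) →
      ∀ s : ℂ, 1 < s.re → MellinConvergent (Ftx η σ e ν 𝔟) s ∧
        mellin (Ftx η σ e ν 𝔟) s = C * (GK e ν s * LI η s) := by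
  classical
  obtain ⟨C, hC, h⟩ := mellin_hX K
  refine ⟨C, hC, fun 𝔟 h𝔟 σ e ν η hη hN s hs => ?_⟩
  have hsel : Sel σ := (hN (Classical.arbitrary _)).sel
  have hpos : ∀ c, (0 : ℝ) < (Ideal.absNorm (𝔟 c) : ℝ)⁻¹ := by
    intro c
    have : Ideal.absNorm (𝔟 c) ≠ 0 := by
      rw [Ne, Ideal.absNorm_eq_zero_iff]
      exact h𝔟.ne_bot c
    have : 0 < Ideal.absNorm (𝔟 c) := Nat.pos_of_ne_zero this
    positivity
  have h1 : ∀ c, MellinConvergent (fun t => hX σ e ν (Pk η (kp σ e ν) (𝔟 c)) ((Ideal.absNorm (𝔟 c) : ℝ)⁻¹ * t)) s := by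
    intro c
    rw [MellinConvergent.comp_mul_left (hpos c)]
    exact (h σ e ν _ (hN c) s hs).1
  have h2 : ∀ c, mellin (fun t => hX σ e ν (Pk η (kp σ e ν) (𝔟 c)) ((Ideal.absNorm (𝔟 c) : ℝ)⁻¹ * t)) s =
      C * (GK e ν s * (((Ideal.absNorm (𝔟 c) : ℕ) : ℂ) ^ s *
        ∑' J : PIdl K, η (qt (𝔟 c) (gen J)) * ((Ideal.absNorm J.1 : ℕ) : ℂ) ^ (-s))) := by
    intro c
    rw [mellin_comp_mul_left _ _ (hpos c), (h σ e ν _ (hN c) s hs).2.2, smul_eq_mul]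
    simp_rw [AX_Pk hsel]
    have h3 : (((Ideal.absNorm (𝔟 c) : ℝ)⁻¹ : ℝ) : ℂ) ^ (-s) = ((Ideal.absNorm (𝔟 c) : ℕ) : ℂ) ^ s := by
      have h4 : (0 : ℝ) < Ideal.absNorm (𝔟 c) := inv_pos.mp (hpos c)
      rw [Complex.cpow_def_of_ne_zero (by exact_mod_cast (hpos c).ne'),
        ← Complex.ofReal_log (hpos c).le, Real.log_inv,
        Complex.cpow_def_of_ne_zero (by exact_mod_cast h4.ne'), ← Complex.ofReal_natCast,
        ← Complex.ofReal_log h4.le]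
      congr 1
      push_cast
      ring
    rw [h3]
    ring
  have h5 : ∀ S : Finset (ClassGroup (𝓞 K)), MellinConvergent
      (fun t => ∑ c ∈ S, hX σ e ν (Pk η (kp σ e ν) (𝔟 c)) ((Ideal.absNorm (𝔟 c) : ℝ)⁻¹ * t)) s ∧
      mellin (fun t => ∑ c ∈ S, hX σ e ν (Pk η (kp σ e ν) (𝔟 c)) ((Ideal.absNorm (𝔟 c) : ℝ)⁻¹ * t)) s =
      ∑ c ∈ S, mellin (fun t => hX σ e ν (Pk η (kp σ e ν) (𝔟 c)) ((Ideal.absNorm (𝔟 c) : ℝ)⁻¹ * t)) s := by
    intro S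
    induction S using Finset.induction_on with
    | empty =>
      simp only [Finset.sum_empty]
      constructor
      · unfold MellinConvergent
        simp
      · simp [mellin]
    | insert c S hc ih =>
      simp only [Finset.sum_insert hc]
      constructor
      · exact (hasMellin_add (h1 c) ih.1).1
      · rw [← ih.2]
        exact (hasMellin_add (h1 c) ih.1).2
  refine ⟨(h5 Finset.univ).1, ?_⟩
  have h6 := (h5 Finset.univ).2
  unfold Ftx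
  rw [h6]
  simp_rw [h2]
  rw [← Finset.mul_sum, ← Finset.mul_sum, sum_classes h𝔟 hη hs]

lemma locInt_hX (σ : InfinitePlace K → (K →+* ℂ)) (e : InfinitePlace K → ℕ)
    (ν : InfinitePlace K → ℝ) {Ψ : 𝓞 K → ℂ} {B : ℝ}
    (hB : ∀ x, ‖Ψ x‖ ≤ B) {a : ℝ} (ha : 0 < a) :
    ContinuousOn (fun t => hX σ e ν Ψ (a * t)) (Ioi 0) := by
  refine (continuousOn_hX σ e ν hB).comp (by fun_prop) ?_
  intro t ht
  exact mul_pos ha ht

lemma hX_decay' {σ : InfinitePlace K → (K →+* ℂ)} {e : InfinitePlace K → ℕ}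
    {ν : InfinitePlace K → ℝ} {Ψ : 𝓞 K → ℂ}
    (h : NiceX σ e ν Ψ) {a : ℝ} (ha : 0 < a)
    (r : ℝ) : (fun t => hX σ e ν Ψ (a * t)) =O[atTop] (fun t => t ^ r) := by
  have h1 := (hX_decay h r).comp_tendsto (tendsto_id.const_mul_atTop ha)
  refine h1.trans ?_
  refine Asymptotics.IsBigO.of_bound (a ^ r) ?_
  filter_upwards [eventually_gt_atTop 0] with t ht
  simp only [Function.comp_apply, id]
  rw [Real.mul_rpow ha.le ht.le, norm_mul, Real.norm_of_nonneg (Real.rpow_nonneg ha.le r)]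

/-- **The functional equation, general form** -/
theorem fam_fex (K : Type) [Field K] [NumberField K] : ∃ V : ℝ, 0 < V ∧
    ∀ (𝔟 : ClassGroup (𝓞 K) → Ideal (𝓞 K)), Reps 𝔟 → ∀ (σ : InfinitePlace K → (K →+* ℂ))
      (e : InfinitePlace K → ℕ) (ν : InfinitePlace K → ℝ) (η : Ideal (𝓞 K) →*₀ ℂ),
      (∀ c, NiceX σ e ν (Pk η (kp σ e ν) (𝔟 c))) →
      ∀ m D : ℕ, 0 < m → 0 < D →
      (D : 𝓞 K) ∈ differentIdeal ℤ (𝓞 K) →
      (∀ c (x z : 𝓞 K), Pk η (kp σ e ν) (𝔟 c) (x + m * z) = Pk η (kp σ e ν) (𝔟 c) x) →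
      (∀ c, FT D m (Pk η (kp σ e ν) (𝔟 c)) 0 = 0) →
      (∀ s, MellinConvergent (Ftx η σ e ν 𝔟) s) ∧ Differentiable ℂ (mellin (Ftx η σ e ν 𝔟)) ∧
      (∀ s, mellin (Ftx η σ e ν 𝔟) (1 - s) =
        (((V⁻¹ : ℝ) : ℂ) * ((m : ℂ) ^ (Module.finrank ℚ K))⁻¹ * (-I) ^ (∑ w, e w)) *
          mellin (Gtx η σ e ν 𝔟 m D) s) ∧
      ∀ t : ℝ, 0 < t → Ftx η σ e ν 𝔟 (1 / t) =
        (((V⁻¹ : ℝ) : ℂ) * ((m : ℂ) ^ (Module.finrank ℚ K))⁻¹ * (-I) ^ (∑ w, e w)) * t *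
          Gtx η σ e ν 𝔟 m D t := by
  classical
  obtain ⟨V, hV0, hV⟩ := hX_fe K
  refine ⟨V, hV0, fun 𝔟 h𝔟 σ e ν η hN m D hm hD hDD hper hzero => ?_⟩
  have hN0 := hN (Classical.arbitrary _)
  have hs : Sel σ := hN0.sel
  have he : Ex e := hN0.ex
  have hν : ∑ w, ν w = 0 := hN0.nu
  have hNpos : ∀ c, (0 : ℝ) < (Ideal.absNorm (𝔟 c) : ℝ) := absNorm_pos' h𝔟
  have hmD : (0 : ℝ) < ((m * D : ℕ) : ℝ) := by
    have : 0 < m * D := Nat.mul_pos hm hD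
    exact_mod_cast this
  choose B hB using fun c => (hN c).bdd
  have hBn : ∀ c, 0 ≤ B c := fun c => (norm_nonneg _).trans (hB c 0)
  have hE : ∀ c, Eqx σ e ν (Pk η (kp σ e ν) (𝔟 c)) := fun c => (hN c).unit
  have hE' : ∀ c, Eqx (sc σ) e (fun w => -ν w) (FT D m (Pk η (kp σ e ν) (𝔟 c))) :=
    fun c => FT_eqx hs (hE c) hm hD (hper c)
  have hBF := fun c => norm_FT_le (D := D) hm (hBn c) (hB c)
  have hN' : ∀ c, NiceX (sc σ) e (fun w => -ν w) (FT D m (Pk η (kp σ e ν) (𝔟 c))) := fun c =>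
    ⟨hs.sc, he, by rw [Finset.sum_neg_distrib, hν, neg_zero], ⟨_, hBF c⟩, hzero c, hE' c⟩
  set κ : ℂ := ((V⁻¹ : ℝ) : ℂ) * ((m : ℂ) ^ (Module.finrank ℚ K))⁻¹ * (-I) ^ (∑ w, e w) with hκ
  have hκ0 : κ ≠ 0 := by
    rw [hκ]
    refine mul_ne_zero (mul_ne_zero ?_ ?_) ?_
    · exact_mod_cast (inv_pos.mpr hV0).ne'
    · refine inv_ne_zero (pow_ne_zero _ ?_)
      exact_mod_cast hm.ne'
    · exact pow_ne_zero _ (neg_ne_zero.mpr Complex.I_ne_zero)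
  set M : ℝ := ((m * D : ℕ) : ℝ) ^ (Module.finrank ℚ K) with hM
  have hM0 : 0 < M := by positivity
  have hfg : ∀ t : ℝ, 0 < t → Ftx η σ e ν 𝔟 (1 / t) =
      (κ * ((t ^ (1 : ℝ) : ℝ) : ℂ)) • Gtx η σ e ν 𝔟 m D t := by
    intro t ht
    rw [Real.rpow_one, smul_eq_mul]
    unfold Ftx Gtx
    rw [Finset.mul_sum]
    refine Finset.sum_congr rfl fun c _ => ?_
    have h2 : (Ideal.absNorm (𝔟 c) : ℝ)⁻¹ * (1 / t) = 1 / (t * Ideal.absNorm (𝔟 c)) := by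
      have := (hNpos c).ne'
      field_simp
    rw [h2, hV σ hs e he ν hν _ (B c) (hB c) (hE c) m D hm hD hDD (hper c) _ (mul_pos ht (hNpos c)),
      ← hκ, ← hM]
    push_cast
    ring
  let P : WeakFEPair ℂ :=
    { f := Ftx η σ e ν 𝔟
      g := Gtx η σ e ν 𝔟 m D
      k := 1
      ε := κ
      f₀ := 0
      g₀ := 0
      hf_int := by
        refine ContinuousOn.locallyIntegrableOn ?_ measurableSet_Ioi
        unfold Ftx
        exact continuousOn_finsetSum _ fun c _ => locInt_hX σ e ν (hB c) (inv_pos.mpr (hNpos c))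
      hg_int := by
        refine ContinuousOn.locallyIntegrableOn ?_ measurableSet_Ioi
        unfold Gtx
        refine continuousOn_finsetSum _ fun c _ => continuousOn_const.mul ?_
        have := locInt_hX (sc σ) e (fun w => -ν w) (hBF c) (a := Ideal.absNorm (𝔟 c) / M) (div_pos (hNpos c) hM0)
        refine this.congr fun t _ => ?_
        simp only
        congr 1
        ring
      hk := one_pos
      hε := hκ0
      h_feq := fun x hx => hfg x hx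
      hf_top := fun r => by
        simp only [sub_zero]
        unfold Ftx
        refine (Asymptotics.IsBigO.sum (s := Finset.univ)
          (A := fun c t => hX σ e ν (Pk η (kp σ e ν) (𝔟 c)) ((Ideal.absNorm (𝔟 c) : ℝ)⁻¹ * t))
          fun c _ => hX_decay' (hN c) (inv_pos.mpr (hNpos c)) r).congr_left fun t => ?_
        rw [Finset.sum_apply]
      hg_top := fun r => by
        simp only [sub_zero]
        unfold Gtx
        refine (Asymptotics.IsBigO.sum (s := Finset.univ)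
          (A := fun c t => (Ideal.absNorm (𝔟 c) : ℂ) *
            hX (sc σ) e (fun w => -ν w) (FT D m (Pk η (kp σ e ν) (𝔟 c)))
            (t * Ideal.absNorm (𝔟 c) / M)) fun c _ => Asymptotics.IsBigO.const_mul_left ?_ _).congr_left
              fun t => by rw [Finset.sum_apply]
        have := hX_decay' (hN' c) (a := Ideal.absNorm (𝔟 c) / M) (div_pos (hNpos c) hM0) r
        refine this.congr_left fun t => ?_
        congr 1
        ring }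
  have hP : IsStrongFEPair P := ⟨rfl, rfl⟩
  refine ⟨fun s => (hP.hasMellin s).1, ?_, ?_, ?_⟩
  · have := hP.differentiable_Λ
    rw [hP.Λ_eq] at this
    exact this
  · intro s
    have h1 := P.functional_equation s
    rw [hP.Λ_eq, hP.symm_Λ_eq] at h1
    have h2 : ((P.k : ℝ) : ℂ) = 1 := by
      change ((1 : ℝ) : ℂ) = 1
      simp
    rw [h2] at h1
    exact h1
  · intro t ht
    have h1 := hfg t ht
    rwa [Real.rpow_one, smul_eq_mul] at h1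

end Pool.Agent.J4H31.U
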