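import Pool.Agent.J4H31.U.U10
import Pool.Agent.J4H31.A21

/-!
Central values of Hecke L-functions and theta functions, arbitrary signature (after
`Pool.Agent.J4H31.A22`).
-/

set_option autoImplicit false
set_option linter.unusedSectionVars false

open NumberField Complex Filter Topology MeasureTheory Set
open NumberField.Units NumberField.Units.dirichletUnitTheorem
open Pool.Agent.Y773 (LI Reps FT cube el rp reps_rp rp_ne_bot Dd Dd_pos Dd_mem mm mm_pos mm_mem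
  mellin_conj entire_eq absNorm_span_nat)
open Pool.Agent.Y773.G (exists_compl reps_compl absNorm_pos' span_m_ne_bot)

open Pool.Agent.Y767 (ph)

namespace Pool.Agent.J4H31.U

variable {K : Type} [Field K] [NumberField K]

/-! ### complex conjugation -/

lemma GX_conj {σ : InfinitePlace K → (K →+* ℂ)} (h : Sel σ) (e : InfinitePlace K → ℕ)
    (a : InfinitePlace K → ℝ) (x : K) :
    GX (sc σ) e a x = (starRingEnd ℂ) (GX σ e a x) := by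
  rw [GX_eq h, GX_eq h.sc, map_mul, Complex.conj_ofReal, us_sc]

lemma tt_conj {σ : InfinitePlace K → (K →+* ℂ)} (h : Sel σ) (e : InfinitePlace K → ℕ)
    (Ψ : 𝓞 K → ℂ) (a : ℂ) (y : InfinitePlace K → ℝ) :
    tt (sc σ) e (fun x => a * (starRingEnd ℂ) (Ψ x)) y = a * (starRingEnd ℂ) (tt σ e Ψ y) := by
  unfold tt
  rw [Complex.conj_tsum, ← tsum_mul_left]
  refine tsum_congr fun x => ?_
  rw [map_mul, GX_conj h]
  ring

lemma ph_conj (ν : InfinitePlace K → ℝ) (y : InfinitePlace K → ℝ) :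
    ph (fun w => -ν w) y = (starRingEnd ℂ) (ph ν y) := by
  unfold Pool.Agent.Y767.ph
  rw [← Complex.exp_conj]
  congr 1
  have : (∑ w, -ν w * y w : ℝ) = -(∑ w, ν w * y w) := by
    rw [← Finset.sum_neg_distrib]
    exact Finset.sum_congr rfl fun w _ => by ring
  rw [this]
  simp [map_ofNat]

lemma hX_conj {σ : InfinitePlace K → (K →+* ℂ)} (h : Sel σ) (e : InfinitePlace K → ℕ)
    (ν : InfinitePlace K → ℝ) (Ψ : 𝓞 K → ℂ) (a : ℂ) (t : ℝ) :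
    hX (sc σ) e (fun w => -ν w) (fun x => a * (starRingEnd ℂ) (Ψ x)) t =
      a * (starRingEnd ℂ) (hX σ e ν Ψ t) := by
  unfold hX
  simp_rw [tt_conj h, ph_conj]
  have h2 : ∀ θ : Fin (rank K) → ℝ,
      a * (starRingEnd ℂ) (tt σ e Ψ (el K ((2 / Module.finrank ℚ K) * Real.log t, θ))) *
        (starRingEnd ℂ) (ph ν (el K ((2 / Module.finrank ℚ K) * Real.log t, θ))) =
      a * (starRingEnd ℂ) (tt σ e Ψ (el K ((2 / Module.finrank ℚ K) * Real.log t, θ)) *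
        ph ν (el K ((2 / Module.finrank ℚ K) * Real.log t, θ))) := by
    intro θ
    rw [map_mul]
    ring
  simp_rw [h2]
  rw [integral_const_mul]
  congr 1
  exact integral_conj

/-- the dual function in terms of the original one -/
lemma Gtx_eq {𝔣 : Ideal (𝓞 K)} {ψ : Ideal (𝓞 K) →*₀ ℂ} {σ : InfinitePlace K → (K →+* ℂ)}
    (hσ : Sel σ) {e : InfinitePlace K → ℕ} {ν : InfinitePlace K → ℝ} (h𝔣 : 𝔣 ≠ ⊥)
    {𝔟 𝔟' : ClassGroup (𝓞 K) → Ideal (𝓞 K)}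
    (h𝔟 : Reps 𝔟) (h𝔟' : Reps 𝔟') {m D : ℕ}
    (hid : ∀ c, 𝔟' c * (𝔟 c * 𝔣 * differentIdeal ℤ (𝓞 K)) = Ideal.span {((m * D : ℕ) : 𝓞 K)})
    {τ : ℂ} (hτ : ∀ c x, FT D m (Pk ψ (kp σ e ν) (𝔟 c)) x = τ * ((m : ℂ) ^ (Module.finrank ℚ K) /
          ((Ideal.absNorm (𝔟 c) : ℂ) * (Ideal.absNorm 𝔣 : ℂ))) *
            (starRingEnd ℂ) (Pk ψ (kp σ e ν) (𝔟' c) x))
    (t : ℝ) : Gtx ψ σ e ν 𝔟 m D t = (τ * ((m : ℂ) ^ (Module.finrank ℚ K) / (Ideal.absNorm 𝔣 : ℂ))) *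
      (starRingEnd ℂ) (Ftx ψ σ e ν 𝔟'
        (((Ideal.absNorm 𝔣 * Ideal.absNorm (differentIdeal ℤ (𝓞 K)) : ℕ) : ℝ)⁻¹ * t)) := by
  have h𝔡 : differentIdeal ℤ (𝓞 K) ≠ ⊥ := differentIdeal_ne_bot
  unfold Gtx Ftx
  rw [map_sum, Finset.mul_sum]
  refine Finset.sum_congr rfl fun c _ => ?_
  have hNb : (Ideal.absNorm (𝔟 c) : ℂ) ≠ 0 := by
    exact_mod_cast (fun h1 => h𝔟.ne_bot c (Ideal.absNorm_eq_zero_iff.mp h1))
  have hNbR : (Ideal.absNorm (𝔟 c) : ℝ) ≠ 0 := by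
    exact_mod_cast (fun h1 => h𝔟.ne_bot c (Ideal.absNorm_eq_zero_iff.mp h1))
  have hNb'R : (Ideal.absNorm (𝔟' c) : ℝ) ≠ 0 := by
    exact_mod_cast (fun h1 => h𝔟'.ne_bot c (Ideal.absNorm_eq_zero_iff.mp h1))
  have hNfR : (Ideal.absNorm 𝔣 : ℝ) ≠ 0 := by
    exact_mod_cast (fun h1 => h𝔣 (Ideal.absNorm_eq_zero_iff.mp h1))
  have hNf : (Ideal.absNorm 𝔣 : ℂ) ≠ 0 := by
    exact_mod_cast (fun h1 => h𝔣 (Ideal.absNorm_eq_zero_iff.mp h1))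
  have hNdR : (Ideal.absNorm (differentIdeal ℤ (𝓞 K)) : ℝ) ≠ 0 := by
    exact_mod_cast (fun h1 => h𝔡 (Ideal.absNorm_eq_zero_iff.mp h1))
  have h1 : FT D m (Pk ψ (kp σ e ν) (𝔟 c)) = fun x => (τ * ((m : ℂ) ^ (Module.finrank ℚ K) /
          ((Ideal.absNorm (𝔟 c) : ℂ) * (Ideal.absNorm 𝔣 : ℂ)))) *
            (starRingEnd ℂ) (Pk ψ (kp σ e ν) (𝔟' c) x) := funext fun x => hτ c x
  have h2 : t * (Ideal.absNorm (𝔟 c) : ℝ) / ((m * D : ℕ) : ℝ) ^ (Module.finrank ℚ K) =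
      (Ideal.absNorm (𝔟' c) : ℝ)⁻¹ *
        (((Ideal.absNorm 𝔣 * Ideal.absNorm (differentIdeal ℤ (𝓞 K)) : ℕ) : ℝ)⁻¹ * t) := by
    have h3 := congrArg Ideal.absNorm (hid c)
    rw [map_mul, map_mul, map_mul, absNorm_span_nat] at h3
    have h4 : ((m * D : ℕ) : ℝ) ^ (Module.finrank ℚ K) = (Ideal.absNorm (𝔟' c) : ℝ) *
        ((Ideal.absNorm (𝔟 c) : ℝ) * (Ideal.absNorm 𝔣 : ℝ) *
          (Ideal.absNorm (differentIdeal ℤ (𝓞 K)) : ℝ)) := by exact_mod_cast h3.symm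
    rw [h4]
    push_cast
    field_simp
  rw [h1, h2, hX_conj hσ]
  field_simp

/-! ### the inverse of the gamma factor -/

/-- the inverse of the gamma factors -/
noncomputable def GKi (e : InfinitePlace K → ℕ) (ν : InfinitePlace K → ℝ) (s : ℂ) : ℂ :=
  (∏ w : InfinitePlace K, (((Real.sqrt (w.mult : ℝ) : ℝ) : ℂ)) ^ ((w.mult : ℂ) * s - I * ν w)) *
    ∏ w : InfinitePlace K, (Complex.Gammaℝ ((w.mult : ℂ) * s - I * ν w + e w))⁻¹

lemma sqrt_mult_ne (w : InfinitePlace K) : (((Real.sqrt (w.mult : ℝ) : ℝ) : ℂ)) ≠ 0 := by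
  have h1 : (0 : ℝ) < (w.mult : ℝ) := by exact_mod_cast InfinitePlace.mult_pos
  exact_mod_cast (Real.sqrt_pos.2 h1).ne'

lemma differentiable_GKi (e : InfinitePlace K → ℕ) (ν : InfinitePlace K → ℝ) :
    Differentiable ℂ (GKi e ν : ℂ → ℂ) := by
  classical
  unfold GKi
  refine Differentiable.fun_mul ?_ ?_
  · refine Differentiable.fun_finsetProd fun w _ => ?_
    intro s
    exact ((((differentiable_id.const_mul _).sub_const _) s).const_cpow (Or.inl (sqrt_mult_ne w)))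
  · refine Differentiable.fun_finsetProd fun w _ => ?_
    exact Complex.differentiable_Gammaℝ_inv.comp
      (((differentiable_id.const_mul _).sub_const _).add_const _)

lemma GK_mul_GKi (e : InfinitePlace K → ℕ) (ν : InfinitePlace K → ℝ) {s : ℂ} (hs : 0 < s.re) :
    GK e ν s * GKi e ν s = 1 := by
  unfold GK GKi
  have h1 : (∏ w : InfinitePlace K,
      (((Real.sqrt (w.mult : ℝ) : ℝ) : ℂ)) ^ (-((w.mult : ℂ) * s - I * ν w))) *
      (∏ w : InfinitePlace K,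
        (((Real.sqrt (w.mult : ℝ) : ℝ) : ℂ)) ^ ((w.mult : ℂ) * s - I * ν w)) = 1 := by
    rw [← Finset.prod_mul_distrib]
    refine Finset.prod_eq_one fun w _ => ?_
    rw [← Complex.cpow_add _ _ (sqrt_mult_ne w), neg_add_cancel, Complex.cpow_zero]
  have h2 : (∏ w : InfinitePlace K, Complex.Gammaℝ ((w.mult : ℂ) * s - I * ν w + e w)) *
      (∏ w : InfinitePlace K, (Complex.Gammaℝ ((w.mult : ℂ) * s - I * ν w + e w))⁻¹) = 1 := by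
    rw [← Finset.prod_mul_distrib]
    refine Finset.prod_eq_one fun w _ => ?_
    refine mul_inv_cancel₀ (Complex.Gammaℝ_ne_zero_of_re_pos ?_)
    have h6 : ((w.mult : ℂ) * s - I * ν w + e w).re = (w.mult : ℝ) * s.re + e w := by simp
    rw [h6]
    have h3 : (0 : ℝ) < (w.mult : ℝ) := by exact_mod_cast InfinitePlace.mult_pos
    have h4 : (0 : ℝ) ≤ (e w : ℝ) := Nat.cast_nonneg _
    have h5 := mul_pos h3 hs
    linarith
  linear_combination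
    (∏ w : InfinitePlace K, Complex.Gammaℝ ((w.mult : ℂ) * s - I * ν w + e w)) *
      (∏ w : InfinitePlace K, (Complex.Gammaℝ ((w.mult : ℂ) * s - I * ν w + e w))⁻¹) * h1 + h2

lemma GK_ne_zero (e : InfinitePlace K → ℕ) (ν : InfinitePlace K → ℝ) {s : ℂ} (hs : 0 < s.re) :
    GK e ν s ≠ 0 := by
  intro h
  have := GK_mul_GKi e ν hs
  rw [h, zero_mul] at this
  exact zero_ne_one this

/-- **The central values of the Hecke L-functions, in terms of the theta functions** -/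
theorem fe_boundX (K : Type) [Field K] [NumberField K] : ∃ C : ℝ, 0 < C ∧
    ∀ {𝔣 : Ideal (𝓞 K)} {ψ : Ideal (𝓞 K) →*₀ ℂ} {σ : InfinitePlace K → (K →+* ℂ)}
    {e : InfinitePlace K → ℕ} {ν : InfinitePlace K → ℝ} (_ : Sel σ) (_ : Ex e)
    (_ : ∑ w, ν w = 0) (_ : PrimK 𝔣 (kp σ e ν) ψ) (_ : IsModK 𝔣 (kp σ e ν) ψ),
    ∃ (F : ℂ → ℂ) (𝔟 𝔟' : ClassGroup (𝓞 K) → Ideal (𝓞 K)), (∀ c, 𝔟 c ≠ ⊥) ∧ (∀ c, 𝔟' c ≠ ⊥) ∧
      Differentiable ℂ F ∧ (∀ s : ℂ, 1 < s.re → F s = LI ψ s) ∧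
      ∀ (R : ℝ), R = (((Ideal.absNorm 𝔣 * Ideal.absNorm (differentIdeal ℤ (𝓞 K)) : ℕ) : ℝ)) →
      ∀ s : ℂ, s.re = 1 / 2 → ‖F s‖ ≤ C * ‖(GKi e ν s : ℂ)‖ *
        ((∫ t in Ioi (R ^ (-(1 / 2) : ℝ)), ‖Ftx ψ σ e ν 𝔟 t‖ * t ^ (-(1 / 2) : ℝ)) +
          ∫ t in Ioi (R ^ (-(1 / 2) : ℝ)), ‖Ftx ψ σ e ν 𝔟' t‖ * t ^ (-(1 / 2) : ℝ)) := by
  classical
  have h𝔡 : differentIdeal ℤ (𝓞 K) ≠ ⊥ := differentIdeal_ne_bot
  obtain ⟨V, hV, hfe⟩ := fam_fex K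
  obtain ⟨C, hC, hmel⟩ := mellin_Ftx K
  refine ⟨C⁻¹, inv_pos.2 hC, ?_⟩
  intro 𝔣 ψ σ e ν hσ he hν hp h
  obtain ⟨τ, hτ⟩ := gauss_maink 𝔣 ψ (kp σ e ν) hp h
  have hD0 : 0 < Dd K := Dd_pos
  -- the constant term
  have hz : ∀ 𝔟 : ClassGroup (𝓞 K) → Ideal (𝓞 K), Reps 𝔟 →
      ∀ c, FT (Dd K) (mm 𝔟 𝔣) (Pk ψ (kp σ e ν) (𝔟 c)) 0 = 0 := by
    intro 𝔟 h𝔟 c
    obtain ⟨𝔟'', h𝔟''⟩ := exists_compl (𝔣 := 𝔣) (𝔟 := 𝔟 c) (m := mm 𝔟 𝔣) (D := Dd K)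
      (mm_mem _ _ c) Dd_mem
    rw [hτ (𝔟 c) 𝔟'' (mm 𝔟 𝔣) (Dd K) (mm_pos h𝔟.ne_bot h.ne_bot) hD0 h𝔟'' (mm_mem _ _ c) Dd_mem]
    have h5 : 𝔟'' ≠ ⊥ := by
      rintro rfl
      rw [Ideal.bot_mul] at h𝔟''
      exact span_m_ne_bot (Nat.mul_pos (mm_pos h𝔟.ne_bot h.ne_bot) hD0) h𝔟''.symm
    rw [Pk_zero h5, map_zero, mul_zero]
  set m := mm (rp K) 𝔣 with hm
  set D := Dd K with hD
  have hm0 : 0 < m := mm_pos rp_ne_bot h.ne_bot
  have hN : ∀ c, NiceX σ e ν (Pk ψ (kp σ e ν) (rp K c)) := fun c => h.nice hσ he hν (rp_ne_bot c)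
  obtain ⟨h1, h2, h3, h3'⟩ := hfe (rp K) reps_rp σ e ν ψ hN m D hm0
    hD0 Dd_mem (fun c => h.per_m (rp_ne_bot c) (mm_mem _ _ c)) (hz _ reps_rp)
  choose 𝔟' h𝔟' using fun c => exists_compl (𝔣 := 𝔣) (𝔟 := rp K c) (m := m) (D := D)
    (mm_mem _ _ c) Dd_mem
  have hR' : Reps 𝔟' := reps_compl h.ne_bot reps_rp (Nat.mul_pos hm0 hD0) h𝔟'
  have hN' : ∀ c, NiceX σ e ν (Pk ψ (kp σ e ν) (𝔟' c)) := fun c => h.nice hσ he hν (hR'.ne_bot c)
  set R : ℝ := ((Ideal.absNorm 𝔣 * Ideal.absNorm (differentIdeal ℤ (𝓞 K)) : ℕ) : ℝ) with hRdef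
  have hR1 : 1 ≤ R := by
    rw [hRdef]
    have h4 : Ideal.absNorm 𝔣 * Ideal.absNorm (differentIdeal ℤ (𝓞 K)) ≠ 0 :=
      mul_ne_zero (fun h1 => h.ne_bot (Ideal.absNorm_eq_zero_iff.mp h1))
        (fun h1 => h𝔡 (Ideal.absNorm_eq_zero_iff.mp h1))
    exact_mod_cast Nat.one_le_iff_ne_zero.mpr h4
  have hR0 : 0 < R := by linarith
  have hRc : (R : ℂ) ≠ 0 := by exact_mod_cast hR0.ne'
  set M := mellin (Ftx ψ σ e ν (rp K)) with hM
  -- the mellin transform for the complementary representatives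
  have hdM' : Differentiable ℂ (mellin (Ftx ψ σ e ν 𝔟')) :=
    (hfe 𝔟' hR' σ e ν ψ hN' (mm 𝔟' 𝔣) D (mm_pos hR'.ne_bot h.ne_bot) hD0 Dd_mem
      (fun c => h.per_m (hR'.ne_bot c) (mm_mem _ _ c)) (hz _ hR')).2.1
  have hMM : mellin (Ftx ψ σ e ν 𝔟') = M := by
    refine entire_eq hdM' h2 fun s hs => ?_
    rw [hM, (hmel 𝔟' hR' σ e ν ψ h.norm_le_one hN' s hs).2,
      (hmel (rp K) reps_rp σ e ν ψ h.norm_le_one hN s hs).2]
  -- the functional equation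
  set κ : ℂ := ((V⁻¹ : ℝ) : ℂ) * ((m : ℂ) ^ (Module.finrank ℚ K))⁻¹ * (-I) ^ (∑ w, e w) with hκ
  set A : ℂ := τ * ((m : ℂ) ^ (Module.finrank ℚ K) / (Ideal.absNorm 𝔣 : ℂ)) with hA
  have hGt : ∀ t : ℝ, Gtx ψ σ e ν (rp K) m D t = A * (starRingEnd ℂ) (Ftx ψ σ e ν 𝔟' (R⁻¹ * t)) :=
    fun t => Gtx_eq hσ h.ne_bot reps_rp hR' h𝔟' (fun c x => hτ (rp K c) (𝔟' c) m D hm0 hD0 (h𝔟' c)
        (mm_mem _ _ c) Dd_mem x) t
  have hG : ∀ s, mellin (Gtx ψ σ e ν (rp K) m D) s =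
      A * ((R : ℂ) ^ s * (starRingEnd ℂ) (M ((starRingEnd ℂ) s))) := by
    intro s
    have h5 : Gtx ψ σ e ν (rp K) m D = fun t => A • (starRingEnd ℂ) (Ftx ψ σ e ν 𝔟' (R⁻¹ * t)) := by
      funext t
      rw [smul_eq_mul]
      exact hGt t
    rw [h5, mellin_const_smul, smul_eq_mul, mellin_conj (fun t => Ftx ψ σ e ν 𝔟' (R⁻¹ * t)),
      mellin_comp_mul_left _ _ (inv_pos.mpr hR0), hMM, smul_eq_mul, map_mul]
    congr 2
    have h6 : (((R⁻¹ : ℝ) : ℂ)) ^ (-(starRingEnd ℂ) s) = (R : ℂ) ^ ((starRingEnd ℂ) s) := by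
      rw [Complex.cpow_def_of_ne_zero (by exact_mod_cast (inv_pos.mpr hR0).ne'),
        ← Complex.ofReal_log (inv_pos.mpr hR0).le, Real.log_inv,
        Complex.cpow_def_of_ne_zero hRc, ← Complex.ofReal_log hR0.le]
      congr 1
      push_cast
      ring
    rw [h6]
    have h7 : ((R : ℝ) : ℂ).arg ≠ Real.pi := by
      rw [Complex.arg_ofReal_of_nonneg hR0.le]
      exact Real.pi_ne_zero.symm
    have h8 := Complex.conj_cpow (R : ℂ) s h7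
    rw [Complex.conj_ofReal] at h8
    exact h8.symm
  set L : ℂ → ℂ := fun s => (R : ℂ) ^ (s / 2) * M s with hL
  set w : ℂ := κ * A * (R : ℂ) ^ (1 / 2 : ℂ) with hw
  have hconjR : ∀ z : ℂ, (starRingEnd ℂ) ((R : ℂ) ^ z) = (R : ℂ) ^ ((starRingEnd ℂ) z) := by
    intro z
    have h7 : ((R : ℝ) : ℂ).arg ≠ Real.pi := by
      rw [Complex.arg_ofReal_of_nonneg hR0.le]
      exact Real.pi_ne_zero.symm
    have h8 := Complex.conj_cpow (R : ℂ) ((starRingEnd ℂ) z) h7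
    rw [Complex.conj_ofReal, Complex.conj_conj] at h8
    exact h8.symm
  have hLfe : ∀ s, L s = w * (starRingEnd ℂ) (L (1 - (starRingEnd ℂ) s)) := by
    intro s
    have h5 := h3 (1 - s)
    rw [sub_sub_cancel, hG, map_sub, map_one] at h5
    rw [hL]
    simp only
    rw [h5, map_mul, hconjR, hw]
    have h6 : (starRingEnd ℂ) ((1 - (starRingEnd ℂ) s) / 2) = (1 - s) / 2 := by
      have h20 : (starRingEnd ℂ) (2 : ℂ) = 2 := map_ofNat (starRingEnd ℂ) 2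
      rw [map_div₀, map_sub, map_one, Complex.conj_conj, h20]
    rw [h6]
    have h7 : (R : ℂ) ^ (s / 2) * (R : ℂ) ^ (1 - s) = (R : ℂ) ^ (1 / 2 : ℂ) * (R : ℂ) ^ ((1 - s) / 2) := by
      rw [← Complex.cpow_add _ _ hRc, ← Complex.cpow_add _ _ hRc]
      congr 1
      ring
    linear_combination (κ * A * (starRingEnd ℂ) (M (1 - (starRingEnd ℂ) s))) * h7
  have hL2 : L 2 ≠ 0 := by
    rw [hL]
    simp only
    have h5 : (1 : ℝ) < (2 : ℂ).re := by norm_num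
    rw [hM, (hmel (rp K) reps_rp σ e ν ψ h.norm_le_one hN 2 h5).2]
    obtain ⟨A', -, hd⟩ := Pool.Agent.Y772.DK.t_dirK K
    have h6 := (hd ψ h.norm_le_one).2.2.1 2 h5
    refine mul_ne_zero ?_ (mul_ne_zero (by exact_mod_cast hC.ne')
      (mul_ne_zero (GK_ne_zero e ν (by norm_num)) h6))
    rw [Ne, Complex.cpow_eq_zero_iff]
    exact fun h => hRc h.1
  have hw1 : ‖w‖ = 1 := by
    have h5 := hLfe 2
    have h6 := hLfe (1 - (starRingEnd ℂ) 2)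
    rw [h6, map_mul] at h5
    have h7 : 1 - (starRingEnd ℂ) (1 - (starRingEnd ℂ) (2 : ℂ)) = 2 := by
      rw [map_sub, map_one, Complex.conj_conj]
      ring
    rw [h7, Complex.conj_conj] at h5
    have h8 : w * (starRingEnd ℂ) w = 1 := by
      have : (w * (starRingEnd ℂ) w) * L 2 = 1 * L 2 := by linear_combination -h5
      exact mul_right_cancel₀ hL2 this
    rw [Complex.mul_conj, Complex.normSq_eq_norm_sq] at h8
    have h9 : ‖w‖ ^ 2 = 1 := by exact_mod_cast h8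
    have := norm_nonneg w
    nlinarith
  have hC' : (C : ℂ) ≠ 0 := by exact_mod_cast hC.ne'
  refine ⟨fun s => (C : ℂ)⁻¹ * (M s * GKi e ν s), rp K, 𝔟',
    rp_ne_bot, hR'.ne_bot, (h2.mul (differentiable_GKi e ν)).const_mul _, ?_, ?_⟩
  · intro s hs
    simp only
    rw [hM, (hmel (rp K) reps_rp σ e ν ψ h.norm_le_one hN s hs).2]
    have h3 := GK_mul_GKi e ν (K := K) (s := s) (by linarith)
    calc (C : ℂ)⁻¹ * (C * (GK e ν s * LI ψ s) * GKi e ν s) =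
          ((C : ℂ)⁻¹ * C) * ((GK e ν s * GKi e ν s) * LI ψ s) := by ring
      _ = LI ψ s := by rw [h3, inv_mul_cancel₀ hC', one_mul, one_mul]
  · intro R' hR'' s hs
    have hRR : R' = R := hR''
    rw [hRR]
    have hκA : ‖κ‖ * ‖A‖ = R ^ (-(1 / 2) : ℝ) := by
      rw [hw, norm_mul, norm_mul, Complex.norm_cpow_eq_rpow_re_of_pos hR0] at hw1
      have e1 : ((1 / 2 : ℂ)).re = 1 / 2 := by norm_num
      rw [e1] at hw1
      have e2 : R ^ (1 / 2 : ℝ) * R ^ (-(1 / 2) : ℝ) = 1 := by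
        rw [← Real.rpow_add hR0]; norm_num
      calc ‖κ‖ * ‖A‖ = ‖κ‖ * ‖A‖ * (R ^ (1 / 2 : ℝ) * R ^ (-(1 / 2) : ℝ)) := by rw [e2, mul_one]
        _ = (‖κ‖ * ‖A‖ * R ^ (1 / 2 : ℝ)) * R ^ (-(1 / 2) : ℝ) := by ring
        _ = _ := by rw [hw1, one_mul]
    have hfold : ∀ t : ℝ, 0 < t → ‖Ftx ψ σ e ν (rp K) (1 / t)‖ =
        R ^ (-(1 / 2) : ℝ) * t * ‖Ftx ψ σ e ν 𝔟' (R⁻¹ * t)‖ := by
      intro t ht
      have h9 : Ftx ψ σ e ν (rp K) (1 / t) = κ * t * Gtx ψ σ e ν (rp K) m D t := h3' t ht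
      rw [h9, norm_mul, norm_mul, hGt, norm_mul A, Complex.norm_conj,
        Complex.norm_real, Real.norm_of_nonneg ht.le, ← hκA]
      ring
    have h5 := half_bound hR0 hs (h1 s) hfold
    rw [norm_mul, norm_mul, norm_inv, Complex.norm_real, Real.norm_of_nonneg hC.le]
    calc C⁻¹ * (‖M s‖ * ‖(GKi e ν s : ℂ)‖) =
          C⁻¹ * ‖(GKi e ν s : ℂ)‖ * ‖M s‖ := by ring
      _ ≤ _ := by
          refine mul_le_mul_of_nonneg_left h5 ?_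
          have := inv_pos.2 hC
          positivity

end Pool.Agent.J4H31.U
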