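import Pool.Agent.J4H31.U.U11
import Pool.Agent.J4H31.V.V14

/-!
The lattices of the ideals of a number field of arbitrary signature are balanced.
-/

set_option autoImplicit false
set_option linter.unusedSectionVars false

open NumberField Matrix MeasureTheory
open Pool.Agent.Y773 (Idx)
open Pool.Agent.Y773.G (cj cj_cj mk_cj rr rr_sum rr_int_mul rr_sq_add sum_mk card_Idx card_emb emb
  embD embD_emb)
open Pool.Agent.J4H31.V

namespace Pool.Agent.J4H31.U

section bal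

variable {ι : Type} [Fintype ι] [DecidableEq ι]

/-- **lattices without short vectors are balanced** -/
theorem bal_of_norm [Nonempty ι] {c : ℝ} (hc : 0 < c) {M : Matrix ι ι ℝ} (h : M.det ≠ 0)
    (hM : ∀ x : ι → ℤ, x ≠ 0 → c * |M.det| ≤ ‖M *ᵥ rc x‖ ^ Fintype.card ι) :
    Bal ((2 + (Fintype.card ι : ℝ) / 2) ^ ((Fintype.card ι : ℝ) / 2) / c) M := by
  intro lam hl
  set n := Fintype.card ι with hn
  have hn0 : 0 < n := Fintype.card_pos
  have hn0' : (0 : ℝ) < n := by exact_mod_cast hn0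
  set d := |M.det| with hd
  have hd0 : 0 < d := abs_pos.2 h
  set m0 : ℝ := (c * d) ^ (1 / (n : ℝ)) with hm0
  have hm00 : 0 < m0 := Real.rpow_pos_of_pos (by positivity) _
  have hm0n : m0 ^ n = c * d := by
    rw [hm0, ← Real.rpow_natCast, ← Real.rpow_mul (by positivity)]
    rw [one_div_mul_cancel hn0'.ne', Real.rpow_one]
  have hmin : ∀ x : ι → ℤ, x ≠ 0 → m0 ≤ ‖M *ᵥ rc x‖ := by
    intro x hx
    by_contra hcon
    push Not at hcon
    have h1 := hM x hx
    have h3 : ‖M *ᵥ rc x‖ ^ n < m0 ^ n := pow_lt_pow_left₀ hcon (norm_nonneg _) hn0.ne'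
    rw [hm0n] at h3
    linarith
  set K : ℝ := 2 + (n : ℝ) / 2 with hK
  have hK0 : 0 < K := by positivity
  set F : (ι → ℝ) → ℝ := fun y => Real.exp (-(Real.pi * (lam / K) * nsq y)) with hF
  have hF0 : ∀ y, 0 ≤ F y := fun y => (Real.exp_pos _).le
  -- pointwise comparison
  have hpt : ∀ x : ι → ℤ, x ≠ 0 → ∀ y ∈ Metric.ball (M *ᵥ rc x) (m0 / 2), gw M lam 0 x ≤ F y := by
    intro x hx y hy
    rw [mem_ball_iff_norm] at hy
    unfold gw gz
    rw [hF]
    simp only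
    rw [Real.exp_le_exp, sub_zero, neg_le_neg_iff]
    have h1 : nsq y ≤ 2 * nsq (M *ᵥ rc x) + 2 * nsq (y - M *ᵥ rc x) := by
      unfold nsq
      rw [Finset.mul_sum, Finset.mul_sum, ← Finset.sum_add_distrib]
      refine Finset.sum_le_sum fun i _ => ?_
      simp only [Pi.sub_apply]
      nlinarith [sq_nonneg (y i - 2 * (M *ᵥ rc x) i)]
    have h2 : nsq (y - M *ᵥ rc x) ≤ n * ‖y - M *ᵥ rc x‖ ^ 2 := by
      unfold nsq
      calc ∑ i, (y - M *ᵥ rc x) i ^ 2 ≤ ∑ _i : ι, ‖y - M *ᵥ rc x‖ ^ 2 := by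
            refine Finset.sum_le_sum fun i _ => ?_
            rw [← sq_abs]
            exact pow_le_pow_left₀ (abs_nonneg _) (norm_le_pi_norm (y - M *ᵥ rc x) i) 2
        _ = _ := by rw [Finset.sum_const, Finset.card_univ, nsmul_eq_mul]
    have h3 := hmin x hx
    have h4 := norm_sq_le_nsq (M *ᵥ rc x)
    have h5 : ‖y - M *ᵥ rc x‖ ^ 2 ≤ (‖M *ᵥ rc x‖ / 2) ^ 2 := by
      refine pow_le_pow_left₀ (norm_nonneg _) ?_ 2
      linarith
    have h6 : nsq y ≤ K * nsq (M *ᵥ rc x) := by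
      have : (n : ℝ) * ‖y - M *ᵥ rc x‖ ^ 2 ≤ n * (nsq (M *ᵥ rc x) / 4) := by
        gcongr
        calc ‖y - M *ᵥ rc x‖ ^ 2 ≤ (‖M *ᵥ rc x‖ / 2) ^ 2 := h5
          _ = ‖M *ᵥ rc x‖ ^ 2 / 4 := by ring
          _ ≤ _ := by gcongr
      rw [hK]
      linarith
    calc Real.pi * (lam / K) * nsq y ≤ Real.pi * (lam / K) * (K * nsq (M *ᵥ rc x)) := by
          have := Real.pi_pos
          gcongr
      _ = Real.pi * lam * nsq (M *ᵥ rc x) := by field_simp
  -- disjointness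
  have hdisj : Pairwise (Function.onFun Disjoint fun x : ι → ℤ => Metric.ball (M *ᵥ rc x) (m0 / 2)) := by
    intro x x' hxx'
    apply Metric.ball_disjoint_ball
    have h1 := hmin (x - x') (sub_ne_zero.2 hxx')
    have e1 : rc (x - x') = rc x - rc x' := by
      funext i
      simp [rc]
    rw [e1, Matrix.mulVec_sub] at h1
    rw [dist_eq_norm]
    linarith
  have hFi : Integrable F := integrable_gauss (by positivity)
  have hFm : Measurable fun y => ENNReal.ofReal (F y) :=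
    (ENNReal.measurable_ofReal.comp (by
      have : Continuous F := by
        simp only [hF]
        unfold nsq
        fun_prop
      exact this.measurable))
  -- the sum of integrals
  have hsum : ∑' x : ι → ℤ, ∫⁻ y in Metric.ball (M *ᵥ rc x) (m0 / 2), ENNReal.ofReal (F y) ≤
      ENNReal.ofReal ((lam / K) ^ (-(n : ℝ) / 2)) := by
    rw [← lintegral_iUnion (fun x => Metric.isOpen_ball.measurableSet) hdisj]
    refine (setLIntegral_le_lintegral _ _).trans ?_
    rw [← ofReal_integral_eq_lintegral_ofReal hFi (Filter.Eventually.of_forall hF0)]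
    apply le_of_eq
    congr 1
    exact integral_gauss (by positivity)
  have hterm : ∀ x : ι → ℤ, ENNReal.ofReal ((if x = 0 then 0 else gw M lam 0 x) * (c * d)) ≤
      ∫⁻ y in Metric.ball (M *ᵥ rc x) (m0 / 2), ENNReal.ofReal (F y) := by
    intro x
    by_cases hx : x = 0
    · rw [if_pos hx, zero_mul, ENNReal.ofReal_zero]; exact zero_le
    · rw [if_neg hx]
      calc ENNReal.ofReal (gw M lam 0 x * (c * d)) =
            ∫⁻ _y in Metric.ball (M *ᵥ rc x) (m0 / 2), ENNReal.ofReal (gw M lam 0 x) := by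
            rw [setLIntegral_const, vol_ball _ (by positivity), ← hn,
              ← ENNReal.ofReal_mul (gw_pos _ _ _ _).le]
            congr 2
            rw [mul_div_cancel₀ _ (two_ne_zero)]
            exact hm0n.symm
        _ ≤ _ := setLIntegral_mono hFm fun y hy => ENNReal.ofReal_le_ofReal (hpt x hx y hy)
  have hfin : ENNReal.ofReal (th1 M lam * (c * d)) ≤ ENNReal.ofReal ((lam / K) ^ (-(n : ℝ) / 2)) := by
    unfold th1
    rw [← tsum_mul_right, ENNReal.ofReal_tsum_of_nonneg _ ((summable_th1 h hl).mul_right _)]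
    · exact (ENNReal.tsum_le_tsum hterm).trans hsum
    · intro x
      split_ifs
      · rw [zero_mul]
      · exact mul_nonneg (gw_pos _ _ _ _).le (by positivity)
  rw [ENNReal.ofReal_le_ofReal_iff (by positivity)] at hfin
  have e1 : (lam / K) ^ (-(n : ℝ) / 2) = lam ^ (-(n : ℝ) / 2) * K ^ ((n : ℝ) / 2) := by
    rw [Real.div_rpow hl.le hK0.le, neg_div, Real.rpow_neg hK0.le, div_inv_eq_mul]
  rw [e1] at hfin
  calc th1 M lam ≤ lam ^ (-(n : ℝ) / 2) * K ^ ((n : ℝ) / 2) / (c * d) := by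
        rw [le_div_iff₀ (by positivity)]; exact hfin
    _ = _ := by field_simp

end bal

section basis

variable (K : Type) [Field K] [NumberField K]

/-- an integral basis indexed by the embeddings -/
noncomputable def bKX : Module.Basis (K →+* ℂ) ℤ (𝓞 K) :=
  (RingOfIntegers.basis K).reindex (Fintype.equivOfCardEq (card_Idx (K := K)))

variable {K}

/-- the matrix of the coordinates, scaled -/
noncomputable def bmX (v : (K →+* ℂ) → 𝓞 K) (y : InfinitePlace K → ℝ) :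
    Matrix (K →+* ℂ) (K →+* ℂ) ℝ :=
  Matrix.of fun φ i => Real.exp (y (InfinitePlace.mk φ) / 2) * rr φ (v i : K)

lemma rr_zsum {ι : Type} [Fintype ι] (φ : K →+* ℂ) (x : ι → ℤ) (v : ι → 𝓞 K) :
    rr φ ((∑ i, x i • v i : 𝓞 K) : K) = ∑ i, (x i : ℝ) * rr φ (v i : K) := by
  have h1 : ((∑ i, x i • v i : 𝓞 K) : K) = ∑ i, ((x i : K) * (v i : K)) := by
    have h2 := map_sum (algebraMap (𝓞 K) K) (fun i => x i • v i) Finset.univ
    refine h2.trans (Finset.sum_congr rfl fun i _ => ?_)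
    rw [zsmul_eq_mul, map_mul, map_intCast]
  rw [h1, rr_sum]
  exact Finset.sum_congr rfl fun i _ => rr_int_mul _ _ _

lemma bmX_mulVec (v : (K →+* ℂ) → 𝓞 K) (y : InfinitePlace K → ℝ)
    (x : (K →+* ℂ) → ℤ) (φ : K →+* ℂ) :
    (bmX v y *ᵥ rc x) φ = Real.exp (y (InfinitePlace.mk φ) / 2) *
      rr φ ((∑ i, x i • v i : 𝓞 K) : K) := by
  unfold bmX rc
  rw [Matrix.mulVec, dotProduct]
  simp only [Matrix.of_apply]
  rw [rr_zsum, Finset.mul_sum]
  refine Finset.sum_congr rfl fun i _ => ?_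
  ring

variable [DecidableEq (K →+* ℂ)]

lemma det_bmX (v : (K →+* ℂ) → 𝓞 K) (y : InfinitePlace K → ℝ) :
    (bmX v y).det = Real.exp ((∑ w : InfinitePlace K, (w.mult : ℝ) * y w) / 2) * (bmX v 0).det := by
  have h1 : bmX v y = Matrix.diagonal (fun φ : K →+* ℂ => Real.exp (y (InfinitePlace.mk φ) / 2)) *
      bmX v 0 := by
    ext w i
    rw [Matrix.diagonal_mul]
    unfold bmX
    simp
  rw [h1, Matrix.det_mul, Matrix.det_diagonal, ← Real.exp_sum, ← Finset.sum_div, sum_mk]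

lemma det_bKX_ne : (bmX (bKX K) 0).det ≠ 0 := by
  intro h0
  obtain ⟨x, hx0, hx⟩ := Matrix.exists_mulVec_eq_zero_iff.2 h0
  set σ := Fintype.equivOfCardEq (card_Idx (K := K)) with hσ
  have h1 : emb K (x ∘ σ) = 0 := by
    funext w
    have h2 := congrFun hx w
    simp only [Pi.zero_apply] at h2 ⊢
    rw [← h2, Matrix.mulVec, dotProduct]
    simp only [emb, LinearMap.coe_mk, AddHom.coe_mk, Function.comp_apply]
    rw [← σ.sum_comp]
    refine Finset.sum_congr rfl fun j _ => ?_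
    unfold bmX bKX
    simp only [Matrix.of_apply, Pi.zero_apply, zero_div, Real.exp_zero, one_mul]
    rw [Module.Basis.reindex_apply, ← hσ, Equiv.symm_apply_apply, integralBasis_apply, mul_comm]
  have h2 : x ∘ σ = 0 := by
    have h3 := embD_emb (K := K) (x ∘ σ)
    rw [h1, map_zero] at h3
    exact h3.symm
  apply hx0
  funext w
  have := congrFun h2 (σ.symm w)
  simpa using this

variable (K)

/-- the covolume of the ring of integers -/
noncomputable def dKX : ℝ := |(bmX (bKX K) 0).det|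

lemma dKX_pos : 0 < dKX K := abs_pos.2 det_bKX_ne

variable {K}

lemma abs_det_bmX {𝔟 : Ideal (𝓞 K)} (ω : Module.Basis (K →+* ℂ) ℤ 𝔟)
    (y : InfinitePlace K → ℝ) :
    |(bmX (fun i => (ω i : 𝓞 K)) y).det| =
      Real.exp ((∑ w : InfinitePlace K, (w.mult : ℝ) * y w) / 2) * dKX K *
        (Ideal.absNorm 𝔟 : ℝ) := by
  rw [det_bmX, abs_mul, abs_of_pos (Real.exp_pos _), mul_assoc]
  congr 1
  have h1 : bmX (fun i => (ω i : 𝓞 K)) (0 : InfinitePlace K → ℝ) =
      bmX (bKX K) 0 * ((bKX K).toMatrix (fun i => (ω i : 𝓞 K))).map (Int.castRingHom ℝ) := by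
    ext w i
    rw [Matrix.mul_apply]
    have h2 := (bKX K).sum_toMatrix_smul_self (fun i => (ω i : 𝓞 K)) i
    unfold bmX
    simp only [Matrix.of_apply, Pi.zero_apply, zero_div, Real.exp_zero, one_mul, Matrix.map_apply]
    rw [← h2, rr_zsum]
    exact Finset.sum_congr rfl fun j _ => mul_comm _ _
  rw [h1, Matrix.det_mul, abs_mul]
  unfold dKX
  congr 1
  have h3 := Ideal.natAbs_det_basis_change (bKX K) 𝔟 ω
  rw [← h3, ← RingHom.mapMatrix_apply, ← RingHom.map_det]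
  have h4 : (bKX K).det ((↑) ∘ ω) = ((bKX K).toMatrix (fun i => (ω i : 𝓞 K))).det := rfl
  rw [h4]
  simp [Nat.cast_natAbs]

/-! ### balance -/

variable (K) in
/-- the constant of balancedness -/
noncomputable def CBX : ℝ := (2 + (Fintype.card (K →+* ℂ) : ℝ) / 2) ^
  ((Fintype.card (K →+* ℂ) : ℝ) / 2) / (dKX K)⁻¹

lemma CBX_nonneg : 0 ≤ CBX K := by
  unfold CBX
  have := dKX_pos (K := K)
  positivity

omit [DecidableEq (K →+* ℂ)] in
lemma norm_geX {I : Ideal (𝓞 K)} {z : 𝓞 K} (hz : z ∈ I) (hz0 : z ≠ 0) :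
    (Ideal.absNorm I : ℝ) ≤ ∏ w : InfinitePlace K, w (z : K) ^ w.mult := by
  rw [InfinitePlace.prod_eq_abs_norm]
  have h1 : Algebra.norm ℤ z ≠ 0 := Algebra.norm_ne_zero_iff.mpr hz0
  have h2 := Ideal.absNorm_dvd_norm_of_mem hz
  have h3 : (Ideal.absNorm I : ℤ) ≤ |Algebra.norm ℤ z| :=
    Int.le_of_dvd (abs_pos.2 h1) ((dvd_abs _ _).2 h2)
  have h4 : ((|Algebra.norm ℚ (z : K)| : ℚ) : ℝ) = ((|Algebra.norm ℤ z| : ℤ) : ℝ) := by
    rw [← Algebra.coe_norm_int z]
    push_cast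
    rfl
  rw [h4]
  exact_mod_cast h3

omit [DecidableEq (K →+* ℂ)] in
/-- the sup norm of a lattice vector -/
lemma prod_le_norm (y : InfinitePlace K → ℝ) (z : K) (f : (K →+* ℂ) → ℝ)
    (hf : ∀ φ, f φ = Real.exp (y (InfinitePlace.mk φ) / 2) * rr φ z) :
    Real.exp ((∑ w : InfinitePlace K, (w.mult : ℝ) * y w) / 2) *
      ∏ w : InfinitePlace K, w z ^ w.mult ≤ ‖f‖ ^ Fintype.card (K →+* ℂ) := by
  have h1 : ∀ w : InfinitePlace K, Real.exp (y w / 2) * w z ≤ ‖f‖ := by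
    intro w
    have e1 : f w.embedding ^ 2 + f (cj w.embedding) ^ 2 = 2 * (Real.exp (y w / 2) * w z) ^ 2 := by
      rw [hf, hf, mk_cj, w.mk_embedding, mul_pow, mul_pow, ← mul_add, rr_sq_add,
        w.norm_embedding_eq]
      ring
    have e2 : ∀ φ, f φ ^ 2 ≤ ‖f‖ ^ 2 := fun φ => by
      rw [← sq_abs]
      exact pow_le_pow_left₀ (abs_nonneg _) (norm_le_pi_norm f φ) 2
    have e3 : (Real.exp (y w / 2) * w z) ^ 2 ≤ ‖f‖ ^ 2 := by
      have := e2 w.embedding
      have := e2 (cj w.embedding)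
      linarith
    exact le_of_sq_le_sq e3 (norm_nonneg _)
  have h2 : Real.exp ((∑ w : InfinitePlace K, (w.mult : ℝ) * y w) / 2) *
      ∏ w : InfinitePlace K, w z ^ w.mult =
      ∏ w : InfinitePlace K, (Real.exp (y w / 2) * w z) ^ w.mult := by
    rw [Finset.sum_div, Real.exp_sum, ← Finset.prod_mul_distrib]
    refine Finset.prod_congr rfl fun w _ => ?_
    rw [mul_pow, ← Real.exp_nat_mul]
    congr 2
    ring
  rw [h2]
  have h3 : ∑ w : InfinitePlace K, w.mult = Fintype.card (K →+* ℂ) := by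
    have := sum_mk (K := K) (fun _ => 1)
    simp only [Finset.sum_const, Finset.card_univ, mul_one, nsmul_eq_mul] at this
    exact_mod_cast this.symm
  rw [← h3, ← Finset.prod_pow_eq_pow_sum]
  refine Finset.prod_le_prod (fun w _ => ?_) fun w _ => ?_
  · have := Real.exp_pos (y w / 2)
    have h4 : 0 ≤ w z := apply_nonneg w z
    positivity
  · have h4 : 0 ≤ w z := apply_nonneg w z
    exact pow_le_pow_left₀ (by positivity) (h1 w) _

/-- **the lattices are balanced** -/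
theorem bal_bmX {p : ℕ} {𝔭 : (K →+* ℂ) → Ideal (𝓞 K)} (h : Split p 𝔭) {k : ℕ}
    {e : (K →+* ℂ) → ℕ} (he : ∀ i, e i ≤ k) {𝔟 : Ideal (𝓞 K)}
    {ω : Module.Basis (K →+* ℂ) ℤ 𝔟}
    (hω : ∀ i j, j ≠ i → (ω j : 𝓞 K) ∈ 𝔟 * 𝔭 i ^ k)
    (h𝔟 : 𝔟 ≠ ⊥) (y : InfinitePlace K → ℝ) :
    Bal (CBX K) (bmX (fun i => (ω i : 𝓞 K)) y * Dm (ew p e)) := by
  have hp0 : (0 : ℝ) < p := by exact_mod_cast h.hp.pos
  set v : (K →+* ℂ) → 𝓞 K := fun i => (ω i : 𝓞 K) with hv
  set B := bmX v y with hB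
  have hN0 : (0 : ℝ) < Ideal.absNorm 𝔟 := by
    have : Ideal.absNorm 𝔟 ≠ 0 := fun h1 => h𝔟 (Ideal.absNorm_eq_zero_iff.1 h1)
    exact_mod_cast Nat.pos_of_ne_zero this
  have hdK := dKX_pos (K := K)
  have hdet : |B.det| = Real.exp ((∑ w : InfinitePlace K, (w.mult : ℝ) * y w) / 2) * dKX K *
      (Ideal.absNorm 𝔟 : ℝ) := abs_det_bmX ω y
  have hBd : B.det ≠ 0 := by
    rw [← abs_pos, hdet]; positivity
  unfold CBX
  refine bal_of_norm (inv_pos.2 hdK) (det_mul_Dm_ne hBd (ew_ne h.hp.pos e)) fun x hx => ?_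
  set z : 𝓞 K := ∑ i, (cz (pw p e) * x) i • v i with hz
  have e1 : ∀ φ, ((B * Dm (ew p e)) *ᵥ rc x) φ =
      Real.exp (y (InfinitePlace.mk φ) / 2) * rr φ (z : K) := by
    intro φ
    rw [← Matrix.mulVec_mulVec]
    have e2 : Dm (ew p e) *ᵥ rc x = rc (cz (pw p e) * x) := by
      rw [lp_dv, rc_cz, cr_pw]
    rw [e2, hB, bmX_mulVec]
  have hz0 : z ≠ 0 := by
    refine sum_basis_ne ω (fun h0 => hx ?_)
    exact (dv_eq_zero (cz_ne (pw_pos h.hp.pos e))).1 h0
  have hzb : z ∈ 𝔟 := sum_mem_ideal ω _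
  have hzm : z ∈ 𝔟 * ∏ i, 𝔭 i ^ e i := by
    refine mem_prod h h𝔟 Finset.univ e hzb fun i _ => ?_
    rw [hz]
    refine Ideal.sum_mem _ fun j _ => ?_
    rw [zsmul_eq_mul]
    by_cases hji : j = i
    · subst hji
      have e3 : (((cz (pw p e) * x) j : ℤ) : 𝓞 K) * v j = v j * ((p : 𝓞 K) ^ e j) * (x j : 𝓞 K) := by
        rw [Pi.mul_apply, cz_pw_apply]
        push_cast
        ring
      rw [e3]
      refine Ideal.mul_mem_right _ _ (Ideal.mul_mem_mul (ω j).2 ?_)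
      exact Ideal.pow_mem_pow (h.deg1 j).mem _
    · refine Ideal.mul_mem_left _ _ ?_
      exact Ideal.mul_mono le_rfl (Ideal.pow_le_pow_right (he i)) (hω i j hji)
  have h1 := norm_geX hzm hz0
  have e4 : Ideal.absNorm (∏ i, 𝔭 i ^ e i) = p ^ ∑ i, e i := by
    rw [map_prod, ← Finset.prod_pow_eq_pow_sum]
    exact Finset.prod_congr rfl fun i _ => (h.deg1 i).norm_pow _
  rw [map_mul, e4] at h1
  push_cast at h1
  rw [det_mul_Dm, prod_ew, abs_mul, abs_of_pos (by positivity : (0 : ℝ) < (p : ℝ) ^ ∑ i, e i), hdet]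
  have h2 := prod_le_norm y (z : K) ((B * Dm (ew p e)) *ᵥ rc x) e1
  refine le_trans ?_ h2
  calc (dKX K)⁻¹ * (Real.exp ((∑ w : InfinitePlace K, (w.mult : ℝ) * y w) / 2) * dKX K *
        (Ideal.absNorm 𝔟 : ℝ) * (p : ℝ) ^ ∑ i, e i) =
        Real.exp ((∑ w : InfinitePlace K, (w.mult : ℝ) * y w) / 2) *
          ((Ideal.absNorm 𝔟 : ℝ) * (p : ℝ) ^ ∑ i, e i) := by
        field_simp
    _ ≤ _ := mul_le_mul_of_nonneg_left h1 (Real.exp_pos _).le

end basis

end Pool.Agent.J4H31.U
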