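import Pool.Agent.J4H31.U.U12

/-!
The Dirichlet characters attached to a Hecke character of conductor `𝔠 p ^ k`, arbitrary signature
(after `Pool.Agent.J4H31.A17`, `V14`).
-/

set_option autoImplicit false
set_option linter.unusedSectionVars false

open NumberField Matrix
open Pool.Agent.J4H31.V (Split mem_prod ci SplN)

namespace Pool.Agent.J4H31.U

variable {K : Type} [Field K] [NumberField K]

lemma Pk_top_mul {κ : K → ℂ} (hκ : Kap κ) {η : Ideal (𝓞 K) →*₀ ℂ} {𝔟 : Ideal (𝓞 K)} (h𝔟 : 𝔟 ≠ ⊥)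
    (x : 𝓞 K) {y : 𝓞 K} (hy : y ∈ 𝔟) :
    Pk η κ 𝔟 (x * y) = Pk η κ ⊤ x * Pk η κ 𝔟 y := by
  have ht : (⊤ : Ideal (𝓞 K)) ≠ ⊥ := top_ne_bot
  by_cases hx0 : x = 0
  · rw [hx0, zero_mul, Pk_zero h𝔟, Pk_zero ht, zero_mul]
  by_cases hy0 : y = 0
  · rw [hy0, mul_zero, Pk_zero h𝔟, mul_zero]
  obtain ⟨𝔞, h𝔞⟩ := Ideal.dvd_span_singleton.2 hy
  have h1 : 𝔞 * 𝔟 = Ideal.span {y} := by rw [h𝔞]; ring
  have h2 : Ideal.span {x} * ⊤ = Ideal.span {x} := Ideal.mul_top _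
  have h3 : (Ideal.span {x} * 𝔞) * 𝔟 = Ideal.span {x * y} := by
    rw [mul_assoc, h1, Ideal.span_singleton_mul_span_singleton]
  rw [Pk_of_eq h𝔟 h1, Pk_of_eq ht h2, Pk_of_eq h𝔟 h3, map_mul]
  have h4 : ((x * y : 𝓞 K) : K) = (x : K) * (y : K) := map_mul (algebraMap (𝓞 K) K) _ _
  rw [h4, hκ.mul _ _ (by exact_mod_cast hx0) (by exact_mod_cast hy0)]
  ring

lemma exists_spl {p : ℕ} {𝔭 𝔠 : Ideal (𝓞 K)} (hc : IsCoprime 𝔠 𝔭) (k : ℕ) :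
    ∃ u v : 𝓞 K, Spl p 𝔭 𝔠 k u v := by
  have h1 : IsCoprime 𝔠 (𝔭 ^ k) := hc.pow_right
  obtain ⟨u, hu, v, hv, huv⟩ := Ideal.isCoprime_iff_exists.1 h1
  exact ⟨u, v, hu, hv, huv⟩

/-- the value at `n` of the `p`-part -/
noncomputable def Fc (η : Ideal (𝓞 K) →*₀ ℂ) (κ : K → ℂ) (u v : 𝓞 K) (n : ℤ) : ℂ :=
  Pk η κ ⊤ (n * u + v)

variable {p k : ℕ} {𝔭 𝔠 : Ideal (𝓞 K)} {κ : K → ℂ} {η : Ideal (𝓞 K) →*₀ ℂ} {u v : 𝓞 K}

lemma Fc_nonunit (hd : Deg1 p 𝔭) (hk : 1 ≤ k) (hM : IsModK (𝔠 * 𝔭 ^ k) κ η)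
    (hs : Spl p 𝔭 𝔠 k u v) {n : ℤ} (hn : (p : ℤ) ∣ n) : Fc η κ u v n = 0 := by
  have ht : (⊤ : Ideal (𝓞 K)) ≠ ⊥ := top_ne_bot
  unfold Fc
  rw [Pk_of_eq ht (Ideal.mul_top _)]
  have h1 : ((n : 𝓞 K) * u + v) ∈ 𝔭 := by
    refine Ideal.add_mem _ (Ideal.mul_mem_right _ _ ?_) ?_
    · obtain ⟨m, rfl⟩ := hn
      push_cast
      exact Ideal.mul_mem_right _ _ hd.mem
    · exact Ideal.pow_le_self (by omega) hs.hv
  have h2 : η (Ideal.span {(n : 𝓞 K) * u + v}) = 0 := by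
    by_contra hc
    have h3 := (hM.supp _).1 hc
    have h4 : IsCoprime (Ideal.span {(n : 𝓞 K) * u + v}) 𝔭 := by
      have h5 : IsCoprime (Ideal.span {(n : 𝓞 K) * u + v}) (𝔭 ^ k) := h3.of_mul_right_right
      exact (IsCoprime.pow_right_iff (by omega)).1 h5
    rw [Ideal.isCoprime_iff_sup_eq] at h4
    refine hd.isPrime.ne_top (top_le_iff.1 ?_)
    rw [← h4]
    refine sup_le ?_ le_rfl
    rw [Ideal.span_singleton_le_iff_mem]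
    exact h1
  rw [h2, zero_mul]

lemma Fc_congr (hM : IsModK (𝔠 * 𝔭 ^ k) κ η) {x y : 𝓞 K} (h1 : x - y ∈ 𝔠 * 𝔭 ^ k) :
    Pk η κ ⊤ x = Pk η κ ⊤ y := by
  refine hM.per top_ne_bot ?_
  rwa [Ideal.top_mul]

/-- **the Dirichlet character** -/
theorem exists_char (hd : Deg1 p 𝔭) (hk : 1 ≤ k) (hM : IsModK (𝔠 * 𝔭 ^ k) κ η)
    (hs : Spl p 𝔭 𝔠 k u v) : ∃ χ : DirichletCharacter ℂ (p ^ k), ∀ n : ℤ,
      χ (n : ZMod (p ^ k)) = Fc η κ u v n := by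
  have : NeZero (p ^ k) := ⟨pow_ne_zero _ hd.hp.ne_zero⟩
  have huv := hs.huv
  have hUV : ∀ z : 𝓞 K, z * (u * v) ∈ 𝔠 * 𝔭 ^ k := fun z =>
    Ideal.mul_mem_left _ _ (Ideal.mul_mem_mul hs.hu hs.hv)
  refine mkChar ?_ ?_ ?_ ?_
  · intro n m
    unfold Fc
    refine Fc_congr hM ?_
    have e1 : ((n + (p ^ k : ℕ) * m : ℤ) : 𝓞 K) * u + v - ((n : 𝓞 K) * u + v) =
        u * ((p : 𝓞 K) ^ k * m) := by
      push_cast; ring
    rw [e1]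
    exact Ideal.mul_mem_mul hs.hu (Ideal.mul_mem_right _ _ (Ideal.pow_mem_pow hd.mem k))
  · unfold Fc
    rw [Int.cast_one, one_mul, huv, Pk_of_eq top_ne_bot (Ideal.mul_top _)]
    exact hM.sig 1 one_ne_zero (by rw [sub_self]; exact Ideal.zero_mem _)
  · intro m n
    unfold Fc
    rw [← Pk_top_mul hM.kap top_ne_bot _ (Submodule.mem_top : ((n : 𝓞 K) * u + v) ∈ (⊤ : Ideal (𝓞 K)))]
    refine Fc_congr hM ?_
    have e1 : ((m * n : ℤ) : 𝓞 K) * u + v - ((m : 𝓞 K) * u + v) * ((n : 𝓞 K) * u + v) =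
        ((m : 𝓞 K) * n - m - n + 1) * (u * v) := by
      have e2 : u = 1 - v := by rw [← huv]; ring
      push_cast
      rw [e2]
      ring
    rw [e1]
    exact hUV _
  · intro n hn
    refine Fc_nonunit hd hk hM hs ?_
    by_contra hc
    apply hn
    exact Pool.Agent.Y779.R3.unit_int (r := k) hd.hp hc

/-- the character is primitive -/
theorem char_prim (hd : Deg1 p 𝔭) (hk : 1 ≤ k) (hM : IsModK (𝔠 * 𝔭 ^ k) κ η)
    (hP : PrimK (𝔠 * 𝔭 ^ k) κ η)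
    (hs : Spl p 𝔭 𝔠 k u v) {χ : DirichletCharacter ℂ (p ^ k)}
    (hχ : ∀ n : ℤ, χ (n : ZMod (p ^ k)) = Fc η κ u v n) : χ.IsPrimitive := by
  have : NeZero (p ^ k) := ⟨pow_ne_zero _ hd.hp.ne_zero⟩
  have h𝔠0 : 𝔠 ≠ ⊥ := by
    rintro rfl
    exact hM.ne_bot (Ideal.bot_mul _)
  by_contra hnp
  unfold DirichletCharacter.IsPrimitive at hnp
  -- the conductor divides `p ^ (k-1)`
  obtain ⟨j, hj, hj'⟩ := (Nat.dvd_prime_pow hd.hp).1 χ.conductor_dvd_level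
  have hjk : j ≤ k - 1 := by
    rcases Nat.lt_or_ge j k with h | h
    · omega
    · exfalso
      apply hnp
      rw [hj']
      congr 1
      omega
  have hft : χ.FactorsThrough (p ^ (k - 1)) := by
    have hf0 := χ.factorsThrough_conductor
    rw [hj'] at hf0
    exact DirichletCharacter.FactorsThrough.mono χ hf0 (pow_dvd_pow _ hjk)
      (pow_dvd_pow _ (by omega))
  -- the witness
  have hg1 : 𝔠 * 𝔭 ^ (k - 1) ∣ 𝔠 * 𝔭 ^ k := mul_dvd_mul_left _ (pow_dvd_pow _ (by omega))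
  have hg2 : 𝔠 * 𝔭 ^ (k - 1) ≠ 𝔠 * 𝔭 ^ k := by
    intro h0
    have h1 := congrArg Ideal.absNorm h0
    rw [map_mul, map_mul, hd.norm_pow, hd.norm_pow] at h1
    have h2 : Ideal.absNorm 𝔠 ≠ 0 := fun h => h𝔠0 (Ideal.absNorm_eq_zero_iff.1 h)
    have h3 := Nat.eq_of_mul_eq_mul_left (Nat.pos_of_ne_zero h2) h1
    have h4 := Nat.pow_right_injective hd.hp.two_le h3
    omega
  obtain ⟨x, hx1, hx2, hx3⟩ := hP _ hg1 hg2
  obtain ⟨n, hn⟩ := hd.res_pow k x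
  have hxc : x - 1 ∈ 𝔠 := Ideal.mul_le_left hx1
  have hxp : x - 1 ∈ 𝔭 ^ (k - 1) := Ideal.mul_le_right hx1
  have huv := hs.huv
  -- the value at `n`
  have hval : χ (n : ZMod (p ^ k)) = η (Ideal.span {x}) * κ (x : K) := by
    rw [hχ]
    unfold Fc
    have e1 : Pk η κ ⊤ ((n : 𝓞 K) * u + v) = Pk η κ ⊤ x := by
      refine Fc_congr hM ?_
      have h1 : (n : 𝓞 K) * u + v - x ∈ 𝔭 ^ k := by
        have e2 : (n : 𝓞 K) * u + v - x = -(x - n) + (1 - n) * v := by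
          have : u = 1 - v := by rw [← huv]; ring
          rw [this]; ring
        rw [e2]
        exact Ideal.add_mem _ (neg_mem hn) (Ideal.mul_mem_left _ _ hs.hv)
      have h2 : (n : 𝓞 K) * u + v - x ∈ 𝔠 := by
        have e2 : (n : 𝓞 K) * u + v - x = -(x - 1) + (n - 1) * u := by
          have : v = 1 - u := by rw [← huv]; ring
          rw [this]; ring
        rw [e2]
        exact Ideal.add_mem _ (neg_mem hxc) (Ideal.mul_mem_left _ _ hs.hu)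
      have h3 : (n : 𝓞 K) * u + v - x =
          u * ((n : 𝓞 K) * u + v - x) + ((n : 𝓞 K) * u + v - x) * v := by
        rw [mul_comm u, ← mul_add, huv, mul_one]
      rw [h3]
      exact Ideal.add_mem _ (Ideal.mul_mem_mul hs.hu h1) (Ideal.mul_mem_mul h2 hs.hv)
    rw [e1, Pk_of_eq top_ne_bot (Ideal.mul_top _)]
  -- `n` is a unit
  have hnp' : ¬ (p : ℤ) ∣ n := by
    intro h0
    have h1 : χ (n : ZMod (p ^ k)) = 0 := by rw [hχ]; exact Fc_nonunit hd hk hM hs h0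
    rw [hval] at h1
    have h2 := (hM.supp _).2 hx2
    have hx0 : x ≠ 0 := by
      rintro rfl
      rw [Ideal.span_singleton_eq_bot.mpr rfl] at hx2
      exact hM.ne_bot_of_coprime hx2 rfl
    exact mul_ne_zero h2 (hM.kap.ne_zero (by exact_mod_cast hx0)) h1
  have hnu : IsUnit (n : ZMod (p ^ k)) := Pool.Agent.Y779.R3.unit_int (r := k) hd.hp hnp'
  have hn1 : (p : ℤ) ^ (k - 1) ∣ n - 1 := by
    rw [← hd.int_mem]
    have e2 : ((n - 1 : ℤ) : 𝓞 K) = -(x - n) + (x - 1) := by push_cast; ring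
    rw [e2]
    exact Ideal.add_mem _ (neg_mem (Ideal.pow_le_pow_right (by omega) hn)) hxp
  -- the character at `n` is one
  have hdvd : p ^ (k - 1) ∣ p ^ k := pow_dvd_pow _ (by omega)
  have hker := (DirichletCharacter.factorsThrough_iff_ker_unitsMap hdvd).1 hft
  have hmem : hnu.unit ∈ (ZMod.unitsMap hdvd).ker := by
    rw [MonoidHom.mem_ker]
    apply Units.ext
    rw [ZMod.unitsMap_val, IsUnit.unit_spec, Units.val_one]
    have h1 : (((n : ZMod (p ^ k)).cast : ZMod (p ^ (k - 1)))) = (n : ZMod (p ^ (k - 1))) := by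
      have := ZMod.cast_intCast hdvd n (R := ZMod (p ^ (k - 1)))
      exact this
    rw [h1]
    have h2 : ((n : ℤ) : ZMod (p ^ (k - 1))) = ((1 : ℤ) : ZMod (p ^ (k - 1))) := by
      rw [← sub_eq_zero, ← Int.cast_sub, ZMod.intCast_zmod_eq_zero_iff_dvd]
      exact_mod_cast hn1
    rw [h2, Int.cast_one]
  have h3 := hker hmem
  rw [MonoidHom.mem_ker] at h3
  have h4 : χ (n : ZMod (p ^ k)) = 1 := by
    have h5 := congrArg Units.val h3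
    rw [MulChar.coe_toUnitHom, IsUnit.unit_spec, Units.val_one] at h5
    exact h5
  rw [hval] at h4
  exact hx3 h4

/-- one coordinate of a class -/
lemma val_one {p k : ℕ} {𝔭 𝔠 : Ideal (𝓞 K)} {κ : K → ℂ} {η : Ideal (𝓞 K) →*₀ ℂ} {u v : 𝓞 K}
    (hM : IsModK (𝔠 * 𝔭 ^ k) κ η) (hs : Spl p 𝔭 𝔠 k u v) {𝔟 : Ideal (𝓞 K)} (h𝔟 : 𝔟 ≠ ⊥)
    {Y w : 𝓞 K} (hY : Y ∈ 𝔟 * 𝔭 ^ k) (hw : w ∈ 𝔟 * 𝔠) (x : ℤ) :
    Pk η κ 𝔟 (Y + x * w) = Fc η κ u v x * Pk η κ 𝔟 (Y + w) := by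
  have huv := hs.huv
  have hY' : Y ∈ 𝔟 := Ideal.mul_le_left hY
  have hw' : w ∈ 𝔟 := Ideal.mul_le_left (I := 𝔟) (J := 𝔠) hw
  unfold Fc
  rw [← Pk_top_mul hM.kap h𝔟 _ (Ideal.add_mem _ hY' hw')]
  refine hM.per h𝔟 ?_
  have e1 : Y + (x : 𝓞 K) * w - ((x : 𝓞 K) * u + v) * (Y + w) =
      (1 - (x : 𝓞 K)) * (Y * u) + ((x : 𝓞 K) - 1) * (w * v) := by
    have : u = 1 - v := by rw [← huv]; ring
    rw [this]; ring
  rw [e1]
  refine Ideal.add_mem _ (Ideal.mul_mem_left _ _ ?_) (Ideal.mul_mem_left _ _ ?_)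
  · have : 𝔟 * (𝔠 * 𝔭 ^ k) = 𝔟 * 𝔭 ^ k * 𝔠 := by ring
    rw [this]
    exact Ideal.mul_mem_mul hY hs.hu
  · have : 𝔟 * (𝔠 * 𝔭 ^ k) = 𝔟 * 𝔠 * 𝔭 ^ k := by ring
    rw [this]
    exact Ideal.mul_mem_mul hw hs.hv

variable {ι : Type} [Fintype ι] [DecidableEq ι]

lemma ci_mul (𝔭 : ι → Ideal (𝓞 K)) (𝔠 : Ideal (𝓞 K)) (k : ℕ) (i : ι) :
    ci 𝔭 𝔠 k i * 𝔭 i ^ k = 𝔠 * ∏ j, 𝔭 j ^ k := by
  unfold ci
  rw [← Finset.mul_prod_erase _ _ (Finset.mem_univ i)]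
  ring

lemma ci_cop {p : ℕ} {𝔭 : ι → Ideal (𝓞 K)} (h : Split p 𝔭) {𝔠 : Ideal (𝓞 K)}
    (hc : ∀ i, IsCoprime 𝔠 (𝔭 i)) (k : ℕ) (i : ι) : IsCoprime (ci 𝔭 𝔠 k i) (𝔭 i) := by
  unfold ci
  refine (hc i).mul_left (IsCoprime.prod_left fun j hj => ?_)
  exact (h.coprime (Finset.ne_of_mem_erase hj)).pow_left

lemma exists_splN {p : ℕ} {𝔭 : ι → Ideal (𝓞 K)} (h : Split p 𝔭) {𝔠 : Ideal (𝓞 K)}
    (hc : ∀ i, IsCoprime 𝔠 (𝔭 i)) (k : ℕ) : ∃ u v : ι → 𝓞 K, SplN p 𝔭 𝔠 k u v := by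
  have hex := fun i => exists_spl (p := p) (ci_cop h hc k i) k
  choose u v huv using hex
  exact ⟨u, v, ⟨huv⟩⟩

/-- the values on a class -/
lemma val_clsN {p k : ℕ} {𝔭 : ι → Ideal (𝓞 K)} {𝔠 : Ideal (𝓞 K)} {κ : K → ℂ}
    {η : Ideal (𝓞 K) →*₀ ℂ} {u v : ι → 𝓞 K} (h : Split p 𝔭)
    (hM : IsModK (𝔠 * ∏ j, 𝔭 j ^ k) κ η) (hs : SplN p 𝔭 𝔠 k u v) {𝔟 : Ideal (𝓞 K)}
    (h𝔟 : 𝔟 ≠ ⊥) (h𝔠 : 𝔠 ≠ ⊥) {ρ : 𝓞 K} (hρ : ∀ i, ρ ∈ 𝔟 * 𝔭 i ^ k)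
    {ω : Module.Basis ι ℤ (𝔟 * 𝔠 : Ideal (𝓞 K))}
    (hω : ∀ i j, j ≠ i → (ω j : 𝓞 K) ∈ (𝔟 * 𝔠) * 𝔭 i ^ k) (x : ι → ℤ) :
    Pk η κ 𝔟 (ρ + ∑ i, x i • (ω i : 𝓞 K)) =
      (∏ i, Fc η κ (u i) (v i) (x i)) * Pk η κ 𝔟 (ρ + ∑ i, (ω i : 𝓞 K)) := by
  classical
  have key : ∀ S : Finset ι, Pk η κ 𝔟 (ρ + ∑ i, x i • (ω i : 𝓞 K)) =
      (∏ i ∈ S, Fc η κ (u i) (v i) (x i)) *
        Pk η κ 𝔟 (ρ + ∑ i, (if i ∈ S then 1 else x i) • (ω i : 𝓞 K)) := by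
    intro S
    induction S using Finset.induction_on with
    | empty => simp
    | insert i S hi ih =>
      rw [ih, Finset.prod_insert hi, mul_comm (Fc η κ (u i) (v i) (x i)), mul_assoc]
      congr 1
      set Y : 𝓞 K := ρ + ∑ j ∈ Finset.univ.erase i, (if j ∈ S then 1 else x j) • (ω j : 𝓞 K) with hY
      have e1 : ρ + ∑ j, (if j ∈ S then 1 else x j) • (ω j : 𝓞 K) = Y + x i * (ω i : 𝓞 K) := by
        rw [hY, ← Finset.add_sum_erase _ _ (Finset.mem_univ i), if_neg hi, zsmul_eq_mul]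
        ring
      have e2 : ρ + ∑ j, (if j ∈ insert i S then 1 else x j) • (ω j : 𝓞 K) = Y + (ω i : 𝓞 K) := by
        rw [hY, ← Finset.add_sum_erase _ _ (Finset.mem_univ i), if_pos (Finset.mem_insert_self i S),
          one_smul]
        have e3 : ∑ j ∈ Finset.univ.erase i, (if j ∈ insert i S then (1 : ℤ) else x j) •
            (ω j : 𝓞 K) = ∑ j ∈ Finset.univ.erase i, (if j ∈ S then (1 : ℤ) else x j) • (ω j : 𝓞 K) := by
          refine Finset.sum_congr rfl fun j hj => ?_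
          have hji := Finset.ne_of_mem_erase hj
          by_cases hjS : j ∈ S
          · rw [if_pos hjS, if_pos (Finset.mem_insert_of_mem hjS)]
          · rw [if_neg hjS, if_neg]
            rw [Finset.mem_insert]
            push Not
            exact ⟨hji, hjS⟩
        rw [e3]
        ring
      rw [e1, e2]
      have hM' : IsModK (ci 𝔭 𝔠 k i * 𝔭 i ^ k) κ η := by rw [ci_mul]; exact hM
      refine val_one hM' (hs.spl i) h𝔟 ?_ ?_ (x i)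
      · rw [hY]
        refine Ideal.add_mem _ (hρ i) (Ideal.sum_mem _ fun j hj => ?_)
        rw [zsmul_eq_mul]
        refine Ideal.mul_mem_left _ _ ?_
        exact Ideal.mul_mono Ideal.mul_le_left le_rfl (hω i j (Finset.ne_of_mem_erase hj))
      · unfold ci
        rw [← mul_assoc]
        refine mem_prod h (mul_ne_zero h𝔟 h𝔠) _ (fun _ => k) (ω i).2 fun j hj => ?_
        exact hω j i (Finset.ne_of_mem_erase hj).symm
  have h1 := key Finset.univ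
  simp only [Finset.mem_univ, if_true, one_smul] at h1
  exact h1


end Pool.Agent.J4H31.U
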