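import Pool.Agent.J4H31.U.U14
import Pool.Agent.J4H31.A23

/-!
The sub-Weyl bound for the L-functions of Hecke characters of conductor `𝔠 p ^ k`, arbitrary
signature (after `Pool.Agent.J4H31.V.V16`).
-/

set_option autoImplicit false
set_option linter.unusedSectionVars false

open NumberField Complex Filter Topology MeasureTheory Set
open NumberField.Units NumberField.Units.dirichletUnitTheorem
open Pool.Agent.Y773 (PP el LI volume_cube entire_eq)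
open Pool.Agent.Y773.G (sum_el card_emb)
open Pool.Agent.Y767 (ph norm_ph)
open Pool.Agent.J4H31.V (Split)

namespace Pool.Agent.J4H31.U

/-! ### uniform bounds for the archimedean data -/

lemma gam_boundX (M : ℕ) (W : ℝ) : ∃ G : ℝ, 1 ≤ G ∧ ∀ m e : ℕ, m ≤ 2 → e ≤ M → ∀ x : ℝ, |x| ≤ W →
    ‖(Complex.Gammaℝ ((m : ℂ) / 2 + x * I + e))⁻¹‖ ≤ G := by
  have hc : ∀ m e : ℕ, ContinuousOn
      (fun x : ℝ => ‖(Complex.Gammaℝ ((m : ℂ) / 2 + x * I + e))⁻¹‖) (Icc (-W) W) := by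
    intro m e
    refine Continuous.continuousOn ?_
    have h1 : Continuous fun s : ℂ => (Complex.Gammaℝ s)⁻¹ :=
      Complex.differentiable_Gammaℝ_inv.continuous
    exact (h1.comp (by fun_prop)).norm
  have hex := fun m e => isCompact_Icc.bddAbove_image (hc m e)
  choose G hG using hex
  refine ⟨1 + ∑ m ∈ Finset.range 3, ∑ e ∈ Finset.range (M + 1), |G m e|, ?_,
    fun m e hm he x hx => ?_⟩
  · have : 0 ≤ ∑ m ∈ Finset.range 3, ∑ e ∈ Finset.range (M + 1), |G m e| :=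
      Finset.sum_nonneg fun m _ => Finset.sum_nonneg fun e _ => abs_nonneg _
    linarith
  · have hx' : x ∈ Icc (-W) W := abs_le.1 hx
    have h1 := hG m e (mem_image_of_mem _ hx')
    have h2 : |G m e| ≤ ∑ e ∈ Finset.range (M + 1), |G m e| :=
      Finset.single_le_sum (f := fun e => |G m e|) (fun e _ => abs_nonneg _)
        (Finset.mem_range.2 (by omega))
    have h3 : ∑ e ∈ Finset.range (M + 1), |G m e| ≤
        ∑ m ∈ Finset.range 3, ∑ e ∈ Finset.range (M + 1), |G m e| :=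
      Finset.single_le_sum (f := fun m => ∑ e ∈ Finset.range (M + 1), |G m e|)
        (fun m _ => Finset.sum_nonneg fun e _ => abs_nonneg _) (Finset.mem_range.2 (by omega))
    have h4 := le_abs_self (G m e)
    linarith

variable {K : Type} [Field K] [NumberField K]

lemma ls_bound (K : Type) [Field K] [NumberField K] (M : ℕ) : ∃ H : ℝ, 1 ≤ H ∧
    ∀ (σ : InfinitePlace K → (K →+* ℂ)) (e : InfinitePlace K → ℕ), (∀ w, e w ≤ M) →
      CH (ls σ e) ≤ H ∧ CW (ls σ e) ≤ H := by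
  classical
  set E : Finset (InfinitePlace K → ℕ) := Fintype.piFinset fun _ => Finset.range (M + 1) with hE
  have h0 : ∀ σ e, 0 ≤ CH (ls (K := K) σ e) + CW (ls σ e) := fun σ e =>
    add_nonneg (CH_nonneg _) (CW_nonneg _)
  refine ⟨1 + ∑ σ : InfinitePlace K → (K →+* ℂ), ∑ e ∈ E, (CH (ls σ e) + CW (ls σ e)), ?_,
    fun σ e he => ?_⟩
  · have : 0 ≤ ∑ σ : InfinitePlace K → (K →+* ℂ), ∑ e ∈ E, (CH (ls σ e) + CW (ls σ e)) :=
      Finset.sum_nonneg fun σ _ => Finset.sum_nonneg fun e _ => h0 σ e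
    linarith
  · have hmem : e ∈ E := by
      rw [hE, Fintype.mem_piFinset]
      intro w
      rw [Finset.mem_range]
      have := he w
      omega
    have h2 : CH (ls σ e) + CW (ls σ e) ≤ ∑ e ∈ E, (CH (ls σ e) + CW (ls σ e)) :=
      Finset.single_le_sum (f := fun e => CH (ls σ e) + CW (ls σ e)) (fun e _ => h0 σ e) hmem
    have h3 : ∑ e ∈ E, (CH (ls σ e) + CW (ls σ e)) ≤
        ∑ σ : InfinitePlace K → (K →+* ℂ), ∑ e ∈ E, (CH (ls σ e) + CW (ls σ e)) :=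
      Finset.single_le_sum (f := fun σ => ∑ e ∈ E, (CH (ls σ e) + CW (ls σ e)))
        (fun σ _ => Finset.sum_nonneg fun e _ => h0 σ e) (Finset.mem_univ σ)
    have h4 := CH_nonneg (ls σ e)
    have h5 := CW_nonneg (ls σ e)
    constructor <;> linarith

lemma mult_le_two (w : InfinitePlace K) : w.mult ≤ 2 := by
  unfold InfinitePlace.mult
  split_ifs <;> omega

lemma norm_GKi_le {M : ℕ} {G W : ℝ}
    (hG : ∀ m e : ℕ, m ≤ 2 → e ≤ M → ∀ x : ℝ, |x| ≤ W →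
      ‖(Complex.Gammaℝ ((m : ℂ) / 2 + x * I + e))⁻¹‖ ≤ G)
    {e : InfinitePlace K → ℕ} (he : ∀ w, e w ≤ M) {ν : InfinitePlace K → ℝ} {t T V : ℝ}
    (ht : |t| ≤ T) (hν : ∀ w, |ν w| ≤ V) (hW : 2 * T + V ≤ W) :
    ‖(GKi e ν (1 / 2 + t * I) : ℂ)‖ ≤ (2 * G) ^ Fintype.card (InfinitePlace K) := by
  unfold GKi
  rw [← Finset.prod_mul_distrib, norm_prod, ← Finset.card_univ, ← Finset.prod_const]
  refine Finset.prod_le_prod (fun _ _ => norm_nonneg _) fun w _ => ?_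
  rw [norm_mul]
  have hm2 := mult_le_two w
  have hm1 : 1 ≤ w.mult := InfinitePlace.mult_pos
  have hm2' : (w.mult : ℝ) ≤ 2 := by exact_mod_cast hm2
  have hm1' : (1 : ℝ) ≤ w.mult := by exact_mod_cast hm1
  have h1 : ‖(((Real.sqrt (w.mult : ℝ) : ℝ) : ℂ)) ^ ((w.mult : ℂ) * (1 / 2 + t * I) - I * ν w)‖ ≤
      2 := by
    rw [Complex.norm_cpow_eq_rpow_re_of_pos (Real.sqrt_pos.2 (by linarith))]
    have h2 : ((w.mult : ℂ) * (1 / 2 + t * I) - I * ν w).re = (w.mult : ℝ) / 2 := by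
      simp
      ring
    rw [h2]
    have h3 : Real.sqrt (w.mult : ℝ) ≤ 2 := by
      rw [Real.sqrt_le_left (by norm_num)]
      linarith
    have h4 : 1 ≤ Real.sqrt (w.mult : ℝ) := Real.one_le_sqrt.2 hm1'
    calc Real.sqrt (w.mult : ℝ) ^ ((w.mult : ℝ) / 2) ≤ Real.sqrt (w.mult : ℝ) ^ (1 : ℝ) :=
          Real.rpow_le_rpow_of_exponent_le h4 (by linarith)
      _ ≤ 2 := by rw [Real.rpow_one]; exact h3
  have e1 : ((w.mult : ℂ) * (1 / 2 + t * I) - I * ν w + e w : ℂ) =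
      (w.mult : ℂ) / 2 + (((w.mult : ℝ) * t - ν w : ℝ) : ℂ) * I + e w := by
    push_cast; ring
  have h5 : ‖(Complex.Gammaℝ ((w.mult : ℂ) * (1 / 2 + t * I) - I * ν w + e w))⁻¹‖ ≤ G := by
    rw [e1]
    refine hG w.mult (e w) hm2 (he w) _ ?_
    calc |(w.mult : ℝ) * t - ν w| ≤ |(w.mult : ℝ) * t| + |ν w| := abs_sub _ _
      _ ≤ 2 * T + V := by
          rw [abs_mul, abs_of_nonneg (by linarith : (0 : ℝ) ≤ w.mult)]
          have := hν w
          have := mul_le_mul hm2' ht (abs_nonneg t) (by norm_num : (0 : ℝ) ≤ 2)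
          linarith
      _ ≤ W := hW
  exact mul_le_mul h1 h5 (norm_nonneg _) (by norm_num)

/-! ### integrals over the units -/

lemma hX_le {σ : InfinitePlace K → (K →+* ℂ)} {e : InfinitePlace K → ℕ}
    {ν : InfinitePlace K → ℝ} {Ψ : 𝓞 K → ℂ} {t X : ℝ}
    (hX' : ∀ θ : Fin (rank K) → ℝ,
      ‖tt σ e Ψ (el K ((2 / Module.finrank ℚ K) * Real.log t, θ))‖ ≤ X) : ‖hX σ e ν Ψ t‖ ≤ X := by
  rw [hX_eq]
  have h6 := norm_setIntegral_le_of_norm_le_const (μ := volume) (s := Icc (0 : Fin (rank K) → ℝ) 1)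
    (f := fun θ => tq σ e ν Ψ (el K ((2 / Module.finrank ℚ K) * Real.log t, θ))) (C := X)
    (by rw [volume_cube]; exact ENNReal.one_lt_top) (fun θ _ => by
      unfold tq
      rw [norm_mul, norm_ph, mul_one]
      exact hX' θ)
  refine h6.trans (le_of_eq ?_)
  rw [Measure.real, volume_cube]
  simp

lemma exp_elX {𝔟 : Ideal (𝓞 K)} (h𝔟 : 𝔟 ≠ ⊥) {v : ℝ} (hv : 0 < v) (θ : Fin (rank K) → ℝ) :
    v = Real.exp ((∑ w : InfinitePlace K, (w.mult : ℝ) * el K ((2 / Module.finrank ℚ K) *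
      Real.log ((Ideal.absNorm 𝔟 : ℝ)⁻¹ * v), θ) w) / 2) * Ideal.absNorm 𝔟 := by
  have hn : (0 : ℝ) < Module.finrank ℚ K := by exact_mod_cast Module.finrank_pos
  have hN : (0 : ℝ) < Ideal.absNorm 𝔟 := by
    have : Ideal.absNorm 𝔟 ≠ 0 := fun h => h𝔟 (Ideal.absNorm_eq_zero_iff.1 h)
    exact_mod_cast Nat.pos_of_ne_zero this
  rw [sum_el]
  have e1 : (Module.finrank ℚ K : ℝ) * (((2 / Module.finrank ℚ K) *
      Real.log ((Ideal.absNorm 𝔟 : ℝ)⁻¹ * v), θ) : PP K).1 / 2 =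
      Real.log ((Ideal.absNorm 𝔟 : ℝ)⁻¹ * v) := by
    simp only
    field_simp
  rw [e1, Real.exp_log (by positivity)]
  field_simp

/-- **the bound on the critical line** -/
theorem centralX (K : Type) [Field K] [NumberField K] (M : ℕ) (V T : ℝ) :
    ∃ C : ℝ, 0 < C ∧ ∀ (p : ℕ) (𝔭 : (K →+* ℂ) → Ideal (𝓞 K)), Split p 𝔭 → 7 ≤ p →
      ∀ (𝔠 : Ideal (𝓞 K)), 𝔠 ≠ ⊥ →
      (∀ i, IsCoprime 𝔠 (𝔭 i)) → ∀ k : ℕ, 1 ≤ k →
      ∀ (σ : InfinitePlace K → (K →+* ℂ)), Sel σ → ∀ (e : InfinitePlace K → ℕ), Ex e →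
      (∀ w, e w ≤ M) → ∀ (ν : InfinitePlace K → ℝ), (∀ w, |ν w| ≤ V) → ∑ w, ν w = 0 →
      ∀ (ψ : Ideal (𝓞 K) →*₀ ℂ), IsModK (𝔠 * ∏ j, 𝔭 j ^ k) (kp σ e ν) ψ →
      PrimK (𝔠 * ∏ j, 𝔭 j ^ k) (kp σ e ν) ψ →
      ∀ F : ℂ → ℂ, Differentiable ℂ F → (∀ s : ℂ, 1 < s.re → F s = LI ψ s) →
      ∀ t : ℝ, |t| ≤ T → ‖F (1 / 2 + t * I)‖ ≤
        C * (Ideal.absNorm 𝔠 : ℝ) ^ 2 * ((p : ℝ) * k) ^ (39 * Module.finrank ℚ K) *
          ((p : ℝ) ^ (Module.finrank ℚ K * k)) ^ (19 / 116 : ℝ) := by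
  classical
  have h𝔡 : differentIdeal ℤ (𝓞 K) ≠ ⊥ := differentIdeal_ne_bot
  set Δ : ℝ := (Ideal.absNorm (differentIdeal ℤ (𝓞 K)) : ℝ) with hΔ
  have hΔ1 : 1 ≤ Δ := by
    have h0 : Ideal.absNorm (differentIdeal ℤ (𝓞 K)) ≠ 0 := fun h => h𝔡 (Ideal.absNorm_eq_zero_iff.1 h)
    have h1 : 1 ≤ Ideal.absNorm (differentIdeal ℤ (𝓞 K)) := Nat.one_le_iff_ne_zero.2 h0
    rw [hΔ]
    exact_mod_cast h1
  obtain ⟨H, hH1, hH⟩ := ls_bound K M
  obtain ⟨C1, hC1, hth⟩ := tt_boundN K hΔ1 hH1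
  obtain ⟨C2, hC2, hfe⟩ := fe_boundX K
  obtain ⟨G, hG1, hG⟩ := gam_boundX M (2 * T + V)
  set r : ℕ := Fintype.card (InfinitePlace K) with hr
  set n := Fintype.card (K →+* ℂ) with hn
  have hn1 : 1 ≤ n := Fintype.card_pos
  set h : ℝ := (Fintype.card (ClassGroup (𝓞 K)) : ℝ) with hh
  have hdK := dKX_pos (K := K)
  have hCB := CBX_nonneg (K := K)
  set A : ℝ := h * (H * (CBX K * 2 ^ n) / dKX K) with hA
  have hA0 : 0 ≤ A := by positivity
  refine ⟨C2 * (2 * G) ^ r * (2 * (2 * A + h * Real.sqrt C1 * ((2 + n) * Δ))) + 1,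
    by positivity, ?_⟩
  intro p 𝔭 hd hp7 𝔠 h𝔠 hcop k hk σ hσ e he heM ν hνV hν ψ hM hP F hF hFL t ht
  obtain ⟨hCH, hCW⟩ := hH σ e heM
  have hnf : Module.finrank ℚ K = n := hd.card.symm
  rw [hnf]
  have hp0 : (0 : ℝ) < p := by exact_mod_cast hd.hp.pos
  have hp1 : (1 : ℝ) ≤ p := by exact_mod_cast hd.hp.one_le
  have hk1 : (1 : ℝ) ≤ k := by exact_mod_cast hk
  have hpk1 : (1 : ℝ) ≤ (p : ℝ) * k := by nlinarith
  have hN𝔠' : 1 ≤ Ideal.absNorm 𝔠 := Nat.one_le_iff_ne_zero.2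
    fun h => h𝔠 (Ideal.absNorm_eq_zero_iff.1 h)
  have hN𝔠 : (1 : ℝ) ≤ Ideal.absNorm 𝔠 := by exact_mod_cast hN𝔠'
  set Nc : ℝ := (Ideal.absNorm 𝔠 : ℝ) with hNc
  have hnp : Ideal.absNorm (∏ j, 𝔭 j ^ k) = p ^ (n * k) := by
    rw [map_prod, Finset.prod_congr rfl fun i _ => (hd.deg1 i).norm_pow k, Finset.prod_const,
      Finset.card_univ, ← pow_mul, mul_comm]
  obtain ⟨F', 𝔟, 𝔟', h𝔟, h𝔟', hF', hF'L, hbd⟩ := hfe hσ he hν hP hM
  have hFF : F = F' := entire_eq hF hF' fun s hs => by rw [hFL s hs, hF'L s hs]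
  obtain ⟨a, ha, ha'⟩ : ∃ a, 19 * k ≤ 58 * a ∧ 58 * a < 19 * k + 58 :=
    ⟨(19 * k + 57) / 58, by omega, by omega⟩
  set R : ℝ := Δ * Nc * (p : ℝ) ^ (n * k) with hR
  have hRe : R = (((Ideal.absNorm (𝔠 * ∏ j, 𝔭 j ^ k) *
      Ideal.absNorm (differentIdeal ℤ (𝓞 K)) : ℕ) : ℝ)) := by
    rw [map_mul, hnp]
    push_cast
    rw [hR, hΔ, hNc]
    ring
  have hpk : (1 : ℝ) ≤ (p : ℝ) ^ (n * k) := one_le_pow₀ hp1
  have hR1 : 1 ≤ R := by
    rw [hR]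
    calc (1 : ℝ) = 1 * 1 * 1 := by norm_num
      _ ≤ _ := by gcongr
  have hR0 : 0 < R := by linarith
  set Z : ℝ := C1 * Nc ^ 2 * ((p : ℝ) * k) ^ (75 * n) * (p : ℝ) ^ (n * a) with hZ
  have hZ0 : 0 ≤ Z := by positivity
  -- bounds for the theta functions
  have hb1 : ∀ 𝔞 : ClassGroup (𝓞 K) → Ideal (𝓞 K), (∀ c, 𝔞 c ≠ ⊥) → ∀ v : ℝ, 0 < v →
      ‖Ftx ψ σ e ν 𝔞 v‖ ≤ A / v := by
    intro 𝔞 h𝔞 v hv
    unfold Ftx
    refine (norm_sum_le _ _).trans ?_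
    calc _ ≤ ∑ c : ClassGroup (𝓞 K), H * (CBX K * 2 ^ n) / dKX K / v := by
          refine Finset.sum_le_sum fun c _ => hX_le fun θ => ?_
          have h1 := tt_triv hd hM (h𝔞 c) σ e
            (el K ((2 / Module.finrank ℚ K) *
            Real.log ((Ideal.absNorm (𝔞 c) : ℝ)⁻¹ * v), θ))
          have h2 := exp_elX (h𝔞 c) hv θ
          rw [mul_right_comm, ← h2, ← hn] at h1
          have h9 : 0 ≤ CBX K * 2 ^ n / (v * dKX K) := by positivity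
          calc _ ≤ CW (ls σ e) * (CBX K * 2 ^ n / (v * dKX K)) := h1
            _ ≤ H * (CBX K * 2 ^ n / (v * dKX K)) := mul_le_mul_of_nonneg_right hCW h9
            _ = _ := by
                rw [div_div, mul_comm v]
                exact (mul_div_assoc _ _ _).symm
      _ = _ := by
          rw [Finset.sum_const, Finset.card_univ, nsmul_eq_mul, hA]
          ring
  have hb2 : ∀ 𝔞 : ClassGroup (𝓞 K) → Ideal (𝓞 K), (∀ c, 𝔞 c ≠ ⊥) → ∀ v : ℝ,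
      R ^ (-(1 / 2) : ℝ) < v → ‖Ftx ψ σ e ν 𝔞 v‖ ^ 2 ≤ h ^ 2 * Z / v := by
    intro 𝔞 h𝔞 v hv
    have hv0 : 0 < v := lt_trans (Real.rpow_pos_of_pos hR0 _) hv
    have hRv : 1 ≤ Δ * Ideal.absNorm 𝔠 * (p : ℝ) ^ (n * k) * v ^ 2 := by
      have h1 : (R ^ (-(1 / 2) : ℝ)) ^ 2 ≤ v ^ 2 := by
        have := Real.rpow_pos_of_pos hR0 (-(1 / 2) : ℝ)
        gcongr
      have h2 : R * (R ^ (-(1 / 2) : ℝ)) ^ 2 = 1 := by
        rw [← Real.rpow_natCast, ← Real.rpow_mul hR0.le]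
        nth_rewrite 1 [← Real.rpow_one R]
        rw [← Real.rpow_add hR0]
        norm_num
      rw [← h2]
      exact mul_le_mul_of_nonneg_left h1 hR0.le
    have h3 : ‖Ftx ψ σ e ν 𝔞 v‖ ≤ h * Real.sqrt (Z / v) := by
      unfold Ftx
      refine (norm_sum_le _ _).trans ?_
      calc _ ≤ ∑ c : ClassGroup (𝓞 K), Real.sqrt (Z / v) := by
            refine Finset.sum_le_sum fun c _ => hX_le fun θ => ?_
            refine Real.le_sqrt_of_sq_le ?_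
            exact hth p 𝔭 hd hp7 𝔠 h𝔠 hcop k a hk ha ha' (kp σ e ν) ψ hM hP (𝔞 c) (h𝔞 c) σ hσ e he
              hCH hCW _ v (exp_elX (h𝔞 c) hv0 θ) hRv
        _ = _ := by rw [Finset.sum_const, Finset.card_univ, nsmul_eq_mul]
    calc _ ≤ (h * Real.sqrt (Z / v)) ^ 2 := pow_le_pow_left₀ (norm_nonneg _) h3 2
      _ = _ := by
          rw [mul_pow, Real.sq_sqrt (by positivity)]
          ring
  have hint := fun (𝔞 : ClassGroup (𝓞 K) → Ideal (𝓞 K)) (h𝔞 : ∀ c, 𝔞 c ≠ ⊥) =>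
    int_bound (f := Ftx ψ σ e ν 𝔞) hR1 (hb1 𝔞 h𝔞) (hb2 𝔞 h𝔞)
  have hh0 : 0 ≤ h := Nat.cast_nonneg _
  -- the size of the bound
  set Q : ℝ := ((p : ℝ) ^ (n * k)) ^ (19 / 116 : ℝ) with hQ
  have hQ1 : 1 ≤ Q := Real.one_le_rpow hpk (by norm_num)
  have hpa : (p : ℝ) ^ (n * a) ≤ (p : ℝ) ^ n * Q ^ 2 := by
    have e1 : (p : ℝ) ^ n * Q ^ 2 = (p : ℝ) ^ (n + n * k * (19 / 58) : ℝ) := by
      rw [Real.rpow_add hp0, Real.rpow_natCast, hQ,
        ← Real.rpow_natCast (((p : ℝ) ^ (n * k)) ^ (19 / 116 : ℝ)),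
        ← Real.rpow_mul (by positivity), ← Real.rpow_natCast (p : ℝ) (n * k), ← Real.rpow_mul hp0.le]
      congr 2
      push_cast
      ring
    rw [e1, ← Real.rpow_natCast]
    refine Real.rpow_le_rpow_of_exponent_le hp1 ?_
    have h1 : (58 : ℝ) * a < 19 * k + 58 := by exact_mod_cast ha'
    have h2 : (0 : ℝ) < n := by exact_mod_cast hn1
    push_cast
    nlinarith
  have hsqrt : Real.sqrt (h ^ 2 * Z) ≤ h * Real.sqrt C1 * (Nc * ((p : ℝ) * k) ^ (38 * n) * Q) := by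
    refine Real.sqrt_le_iff.2 ⟨by positivity, ?_⟩
    have e0 : (((p : ℝ) * k) ^ (38 * n)) ^ 2 = ((p : ℝ) * k) ^ (75 * n) * ((p : ℝ) * k) ^ n := by
      rw [← pow_mul, ← pow_add]
      congr 1
      ring
    have e1 : (h * Real.sqrt C1 * (Nc * ((p : ℝ) * k) ^ (38 * n) * Q)) ^ 2 =
        h ^ 2 * (C1 * Nc ^ 2 * (((p : ℝ) * k) ^ (75 * n) * (((p : ℝ) * k) ^ n * Q ^ 2))) := by
      rw [mul_pow, mul_pow, Real.sq_sqrt (by linarith), mul_pow, mul_pow, e0]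
      ring
    rw [e1, hZ]
    have h4 : (p : ℝ) ^ (n * a) ≤ ((p : ℝ) * k) ^ n * Q ^ 2 := by
      refine hpa.trans ?_
      have h5 : (p : ℝ) ≤ p * k := le_mul_of_one_le_right hp0.le hk1
      have h6 : (p : ℝ) ^ n ≤ ((p : ℝ) * k) ^ n := pow_le_pow_left₀ hp0.le h5 n
      gcongr
    calc h ^ 2 * (C1 * Nc ^ 2 * ((p : ℝ) * k) ^ (75 * n) * (p : ℝ) ^ (n * a)) =
          h ^ 2 * (C1 * Nc ^ 2 * (((p : ℝ) * k) ^ (75 * n) * (p : ℝ) ^ (n * a))) := by ring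
      _ ≤ _ := by gcongr
  have hnR : (1 : ℝ) ≤ n := by exact_mod_cast hn1
  have hlog : Real.log R ≤ (2 + n) * Δ * Nc * ((p : ℝ) * k) := by
    have h1 : Real.log R = Real.log Δ + Real.log Nc + n * (k * Real.log p) := by
      rw [hR, Real.log_mul (by positivity) (by positivity), Real.log_mul (by positivity) (by positivity),
        Real.log_pow]
      push_cast
      ring
    have h2 : Real.log Δ ≤ Δ := (Real.log_le_sub_one_of_pos (by linarith)).trans (by linarith)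
    have h3 : Real.log Nc ≤ Nc := (Real.log_le_sub_one_of_pos (by linarith)).trans (by linarith)
    have h4 : Real.log p ≤ p := (Real.log_le_sub_one_of_pos hp0).trans (by linarith)
    have h5 : (k : ℝ) * Real.log p ≤ p * k := by
      rw [mul_comm (p : ℝ)]
      gcongr
    have g1 : Δ ≤ Δ * Nc * ((p : ℝ) * k) := by
      calc Δ = Δ * 1 * 1 := by ring
        _ ≤ _ := by gcongr
    have g2 : Nc ≤ Δ * Nc * ((p : ℝ) * k) := by
      calc Nc = 1 * Nc * 1 := by ring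
        _ ≤ _ := by gcongr
    have g3 : (p : ℝ) * k ≤ Δ * Nc * ((p : ℝ) * k) := by
      calc (p : ℝ) * k = 1 * 1 * (p * k) := by ring
        _ ≤ _ := by gcongr
    have g4 : (n : ℝ) * (k * Real.log p) ≤ n * (Δ * Nc * ((p : ℝ) * k)) := by
      have := h5.trans g3
      gcongr
    rw [h1]
    linarith
  have hlog0 : 0 ≤ Real.log R := Real.log_nonneg hR1
  set W : ℝ := Nc ^ 2 * ((p : ℝ) * k) ^ (39 * n) * Q with hW
  have hW1 : 1 ≤ W := by
    rw [hW]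
    have h1 : (1 : ℝ) ≤ Nc ^ 2 := one_le_pow₀ hN𝔠
    have h2 : (1 : ℝ) ≤ ((p : ℝ) * k) ^ (39 * n) := one_le_pow₀ hpk1
    calc (1 : ℝ) = 1 * 1 * 1 := by norm_num
      _ ≤ _ := by gcongr
  have hI : 2 * A + Real.sqrt (h ^ 2 * Z) * Real.log R ≤
      (2 * A + h * Real.sqrt C1 * ((2 + n) * Δ)) * W := by
    have h38 : ((p : ℝ) * k) ^ (38 * n) * ((p : ℝ) * k) ≤ ((p : ℝ) * k) ^ (39 * n) := by
      rw [← pow_succ]
      exact pow_le_pow_right₀ hpk1 (by omega)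
    calc _ ≤ 2 * A * W + h * Real.sqrt C1 * (Nc * ((p : ℝ) * k) ^ (38 * n) * Q) *
          ((2 + n) * Δ * Nc * ((p : ℝ) * k)) := by
          exact add_le_add (le_mul_of_one_le_right (by positivity) hW1)
            (mul_le_mul hsqrt hlog hlog0 (by positivity))
      _ = 2 * A * W + h * Real.sqrt C1 * ((2 + n) * Δ) * (Nc ^ 2 *
          (((p : ℝ) * k) ^ (38 * n) * ((p : ℝ) * k)) * Q) := by ring
      _ ≤ 2 * A * W + h * Real.sqrt C1 * ((2 + n) * Δ) * (Nc ^ 2 *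
          ((p : ℝ) * k) ^ (39 * n) * Q) := by gcongr
      _ = _ := by rw [hW]; ring
  -- the gamma factors
  have hs : (1 / 2 + t * I : ℂ).re = 1 / 2 := by simp
  have hgam : ‖(GKi e ν (1 / 2 + t * I) : ℂ)‖ ≤ (2 * G) ^ r :=
    norm_GKi_le hG heM ht hνV le_rfl
  have hfin := hbd R hRe (1 / 2 + t * I) hs
  rw [hFF]
  refine hfin.trans ?_
  have hI1 := (hint 𝔟 h𝔟).trans hI
  have hI2 := (hint 𝔟' h𝔟').trans hI
  calc _ ≤ C2 * (2 * G) ^ r * ((2 * A + h * Real.sqrt C1 * ((2 + n) * Δ)) * W +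
        (2 * A + h * Real.sqrt C1 * ((2 + n) * Δ)) * W) := by
        refine mul_le_mul (mul_le_mul_of_nonneg_left hgam hC2.le) (add_le_add hI1 hI2) ?_ (by positivity)
        refine add_nonneg ?_ ?_
        · refine setIntegral_nonneg measurableSet_Ioi fun v hv => ?_
          have : (0 : ℝ) < v := lt_trans (Real.rpow_pos_of_pos hR0 _) hv
          positivity
        · refine setIntegral_nonneg measurableSet_Ioi fun v hv => ?_
          have : (0 : ℝ) < v := lt_trans (Real.rpow_pos_of_pos hR0 _) hv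
          positivity
    _ = C2 * (2 * G) ^ r * (2 * (2 * A + h * Real.sqrt C1 * ((2 + n) * Δ))) * W := by ring
    _ ≤ (C2 * (2 * G) ^ r * (2 * (2 * A + h * Real.sqrt C1 * ((2 + n) * Δ))) + 1) * W := by
        have : 0 ≤ W := by linarith
        nlinarith
    _ = _ := by rw [hW]; ring

end Pool.Agent.J4H31.U
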