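import Pool.Agent.J4H31.U.U15
import Pool.Agent.J4H31.V.V17
import Pool.Agent.Y772.HG.Tw

/-!
Hecke characters of number fields of arbitrary signature: signs, products, twists.
-/

set_option autoImplicit false
set_option linter.unusedSectionVars false

open NumberField
open Pool.Agent.Y773 (TPos)
open Pool.Agent.J4H31.V (Split nch nch_apply nch_tpos prim_wit norm_res mem_prod)

namespace Pool.Agent.J4H31.U

variable {K : Type} [Field K] [NumberField K]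

section sig

open Pool.Agent.Y773.G (rl sg)
open Pool.Agent.Y772.G (exists_neg tpos_iff isReal_or rl_pos_cpx rl_ne)

theorem sig_genX {𝔣 : Ideal (𝓞 K)}
    (hf : 𝔣 ≠ ⊥) {f : 𝓞 K → ℂ} (f1 : f 1 = 1)
    (hfm : ∀ x y : 𝓞 K, x ≠ 0 → y ≠ 0 → f (x * y) = f x * f y)
    (hψ : ∀ x : 𝓞 K, x ≠ 0 → x - 1 ∈ 𝔣 → TPos K x → f x = 1) :
    ∃ e : InfinitePlace K → ℕ, (∀ w, e w ≤ 1) ∧ (∀ w : InfinitePlace K, w.IsComplex → e w = 0) ∧
      ∀ x : 𝓞 K, x ≠ 0 → x - 1 ∈ 𝔣 → f x = sg e (x : K) := by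
  classical
  choose z hz0 hz1 hz2 hz3 using fun w : InfinitePlace K => exists_neg hf w
  -- congruences
  have hmul : ∀ x y : 𝓞 K, x - 1 ∈ 𝔣 → y - 1 ∈ 𝔣 → x * y - 1 ∈ 𝔣 := by
    intro x y hx hy
    have h1 := 𝔣.add_mem (𝔣.mul_mem_left y hx) hy
    have h2 : y * (x - 1) + (y - 1) = x * y - 1 := by ring
    rwa [h2] at h1
  have hprod : ∀ (s : Finset (InfinitePlace K)), (∏ w ∈ s, z w) - 1 ∈ 𝔣 := by
    intro s
    induction s using Finset.induction_on with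
    | empty => simp
    | insert a s ha ih => rw [Finset.prod_insert ha]; exact hmul _ _ (hz1 a) ih
  have hp0 : ∀ s : Finset (InfinitePlace K), ∏ w ∈ s, z w ≠ 0 := fun s =>
    Finset.prod_ne_zero_iff.2 fun w _ => hz0 w
  have hψp : ∀ (s : Finset (InfinitePlace K)), f (∏ w ∈ s, z w) = ∏ w ∈ s, f (z w) := by
    intro s
    induction s using Finset.induction_on with
    | empty => rw [Finset.prod_empty, Finset.prod_empty, f1]
    | insert a s ha ih =>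
      rw [Finset.prod_insert ha, hfm _ _ (hz0 a) (hp0 s), ih, Finset.prod_insert ha]
  have hsq : ∀ x : 𝓞 K, x ≠ 0 → x - 1 ∈ 𝔣 → f x ^ 2 = 1 := by
    intro x hx0 hx
    rw [pow_two, ← hfm x x hx0 hx0]
    refine hψ _ (mul_ne_zero hx0 hx0) (hmul _ _ hx hx)
      ((tpos_iff (mul_ne_zero hx0 hx0)).2 fun w => ?_)
    push_cast
    rw [map_mul]
    have : rl w (x : K) ≠ 0 := rl_ne (by simpa using hx0)
    exact mul_self_pos.2 this
  have hcpx : ∀ w : InfinitePlace K, w.IsComplex → f (z w) = 1 := by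
    intro w hw
    refine hψ _ (hz0 w) (hz1 w) ((tpos_iff (hz0 w)).2 fun v => hz3 w v fun hv h => ?_)
    rw [h] at hv
    exact InfinitePlace.not_isReal_iff_isComplex.2 hw hv
  refine ⟨fun w => if f (z w) = 1 then 0 else 1, fun w => ?_, fun w hw => ?_, fun x hx0 hx => ?_⟩
  · simp only
    split_ifs <;> norm_num
  · simp only
    rw [if_pos (hcpx w hw)]
  · have hzv : ∀ w, f (z w) = (-1 : ℂ) ^ (if f (z w) = 1 then 0 else 1) := by
      intro w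
      split_ifs with h
      · rw [h, pow_zero]
      · rw [pow_one]
        have h1 := hsq _ (hz0 w) (hz1 w)
        rw [pow_two] at h1
        exact (mul_self_eq_one_iff.1 h1).resolve_left h
    set S : Finset (InfinitePlace K) := Finset.univ.filter fun w => rl w (x : K) < 0 with hS
    have hx0' : (x : K) ≠ 0 := by simpa using hx0
    have hSr : ∀ w ∈ S, w.IsReal := by
      intro w hw
      rw [hS, Finset.mem_filter] at hw
      rcases isReal_or w with h | h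
      · exact h
      · exact absurd hw.2 (not_lt.2 (rl_pos_cpx h hx0').le)
    have htp : TPos K (x * ∏ w ∈ S, z w) := by
      rw [tpos_iff (mul_ne_zero hx0 (hp0 S))]
      intro w
      push_cast
      rw [map_mul, map_prod]
      by_cases hw : w ∈ S
      · rw [← Finset.mul_prod_erase _ _ hw]
        have h1 : rl w (x : K) < 0 := by
          rw [hS, Finset.mem_filter] at hw
          exact hw.2
        have h2 : 0 < ∏ v ∈ S.erase w, rl w ((algebraMap (𝓞 K) K) (z v)) :=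
          Finset.prod_pos fun v hv => hz3 v w fun _ => (Finset.ne_of_mem_erase hv).symm
        have h3 := hz2 w (hSr w hw)
        have h4 : 0 < rl w (x : K) * rl w (z w : K) := mul_pos_of_neg_of_neg h1 h3
        calc 0 < rl w (x : K) * rl w (z w : K) *
              ∏ v ∈ S.erase w, rl w ((algebraMap (𝓞 K) K) (z v)) := mul_pos h4 h2
          _ = _ := by ring
      · have h1 : 0 < rl w (x : K) := by
          rw [hS, Finset.mem_filter] at hw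
          have h2 : ¬ rl w (x : K) < 0 := fun h => hw ⟨Finset.mem_univ _, h⟩
          exact lt_of_le_of_ne (not_lt.1 h2) (rl_ne hx0').symm
        refine mul_pos h1 (Finset.prod_pos fun v hv => hz3 v w fun _ => ?_)
        rintro rfl
        exact hw hv
    have h1 := hψ _ (mul_ne_zero hx0 (hp0 S)) (hmul _ _ hx (hprod S)) htp
    rw [hfm _ _ hx0 (hp0 S), hψp] at h1
    have h2 : (∏ w ∈ S, f (z w)) ^ 2 = 1 := by
      rw [← hψp]
      exact hsq _ (hp0 S) (hprod S)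
    have h3 : f x = ∏ w ∈ S, f (z w) := by
      have h4 : f x * (∏ w ∈ S, f (z w)) ^ 2 = ∏ w ∈ S, f (z w) := by
        rw [pow_two, ← mul_assoc, h1, one_mul]
      rwa [h2, mul_one] at h4
    rw [h3]
    unfold sg
    rw [hS, Finset.prod_filter]
    refine Finset.prod_congr rfl fun w _ => ?_
    by_cases h4 : rl w (x : K) < 0
    · rw [if_pos h4, sign_neg h4]
      have := hzv w
      rw [this]
      congr 1
      simp
    · have h6 : 0 < rl w (x : K) := lt_of_le_of_ne (not_lt.1 h4) (rl_ne hx0').symm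
      rw [if_neg h4, sign_pos h6]
      simp

end sig

/-- `ψ` is a primitive character of conductor `𝔣` with archimedean part `α` -/
structure IsHA (𝔣 : Ideal (𝓞 K)) (α : K → ℂ) (ψ : Ideal (𝓞 K) →*₀ ℂ) : Prop where
  ne_bot : 𝔣 ≠ ⊥
  supp : ∀ 𝔞 : Ideal (𝓞 K), 𝔞 ≠ ⊥ → (ψ 𝔞 ≠ 0 ↔ IsCoprime 𝔞 𝔣)
  ray : ∀ x : 𝓞 K, x ≠ 0 → x - 1 ∈ 𝔣 → TPos K x → ψ (Ideal.span {x}) = α (x : K)
  prim : ∀ 𝔤 : Ideal (𝓞 K), 𝔤 ∣ 𝔣 → 𝔤 ≠ 𝔣 → ∃ x : 𝓞 K, x ≠ 0 ∧ x - 1 ∈ 𝔤 ∧ TPos K x ∧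
    IsCoprime (Ideal.span {x}) 𝔣 ∧ ψ (Ideal.span {x}) ≠ α (x : K)

/-- multiplicative functions without zeros -/
structure Mul0 (α : K → ℂ) : Prop where
  mul : ∀ x y : K, x ≠ 0 → y ≠ 0 → α (x * y) = α x * α y
  ne : ∀ x : K, x ≠ 0 → α x ≠ 0

lemma Mul0.coe {α : K → ℂ} (h : Mul0 α) {x y : 𝓞 K} (hx : x ≠ 0) (hy : y ≠ 0) :
    α ((x * y : 𝓞 K) : K) = α (x : K) * α (y : K) := by
  have h1 : ((x * y : 𝓞 K) : K) = (x : K) * (y : K) := map_mul (algebraMap (𝓞 K) K) x y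
  rw [h1, h.mul _ _ (by simpa using hx) (by simpa using hy)]

lemma tpos_mul {x y : 𝓞 K} (hx : TPos K x) (hy : TPos K y) : TPos K (x * y) := by
  intro σ
  push_cast
  rw [map_mul]
  exact mul_pos (hx σ) (hy σ)

lemma span_mul_val (ψ : Ideal (𝓞 K) →*₀ ℂ) (x y : 𝓞 K) :
    ψ (Ideal.span {x * y}) = ψ (Ideal.span {x}) * ψ (Ideal.span {y}) := by
  rw [← map_mul, Ideal.span_singleton_mul_span_singleton]

/-- the values on totally positive integers depend on the class and on the archimedean part -/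
lemma psi_cls {𝔣 : Ideal (𝓞 K)} {α : K → ℂ} (hα : Mul0 α) {ψ : Ideal (𝓞 K) →*₀ ℂ}
    (hψ : IsHA 𝔣 α ψ)
    {x y : 𝓞 K} (hx0 : x ≠ 0) (hy0 : y ≠ 0) (hx : TPos K x) (hy : TPos K y)
    (hc : IsCoprime (Ideal.span {x}) 𝔣)
    (h : y - x ∈ 𝔣) : ψ (Ideal.span {x}) * α (y : K) = ψ (Ideal.span {y}) * α (x : K) := by
  obtain ⟨z₀, hz₀⟩ := Pool.Agent.Y772.SG.coprime_iff.1 hc
  have hN : 0 < Ideal.absNorm 𝔣 :=
    Nat.pos_of_ne_zero (by rw [Ne, Ideal.absNorm_eq_zero_iff]; exact hψ.ne_bot)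
  obtain ⟨k, hk1, hk2⟩ := Pool.Agent.Y772.TW.exists_tpos z₀ hN
  set z : 𝓞 K := z₀ + (k : 𝓞 K) * (Ideal.absNorm 𝔣 : 𝓞 K) with hz
  have hxz : x * z - 1 ∈ 𝔣 := by
    have : x * z - 1 = (x * z₀ - 1) + (x * k) * (Ideal.absNorm 𝔣 : 𝓞 K) := by rw [hz]; ring
    rw [this]
    exact 𝔣.add_mem hz₀ (𝔣.mul_mem_left _ (Ideal.absNorm_mem 𝔣))
  have hyz : y * z - 1 ∈ 𝔣 := by
    have : y * z - 1 = z * (y - x) + (x * z - 1) := by ring
    rw [this]
    exact 𝔣.add_mem (𝔣.mul_mem_left _ h) hxz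
  have h1 := hψ.ray _ (mul_ne_zero hx0 hk2) hxz (tpos_mul hx hk1)
  have h2 := hψ.ray _ (mul_ne_zero hy0 hk2) hyz (tpos_mul hy hk1)
  rw [span_mul_val, hα.coe hx0 hk2] at h1
  rw [span_mul_val, hα.coe hy0 hk2] at h2
  have hz0 : ψ (Ideal.span {z}) ≠ 0 := by
    intro h0
    rw [h0, mul_zero] at h1
    exact mul_ne_zero (hα.ne _ (by simpa using hx0)) (hα.ne _ (by simpa using hk2)) h1.symm
  refine mul_right_cancel₀ hz0 ?_
  calc ψ (Ideal.span {x}) * α (y : K) * ψ (Ideal.span {z}) =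
        (ψ (Ideal.span {x}) * ψ (Ideal.span {z})) * α (y : K) := by ring
    _ = (ψ (Ideal.span {y}) * ψ (Ideal.span {z})) * α (x : K) := by rw [h1, h2]; ring
    _ = _ := by ring

/-- one half of the primitivity of products -/
lemma pr_halfA {𝔣 𝔮 : Ideal (𝓞 K)} (hc : IsCoprime 𝔣 𝔮) (h0 : 𝔣 * 𝔮 ≠ ⊥)
    {α β : K → ℂ} (hα : Mul0 α) (hβ : Mul0 β) {ψ lam : Ideal (𝓞 K) →*₀ ℂ} (hψ : IsHA 𝔣 α ψ)
    (hl : IsHA 𝔮 β lam) {𝔤 𝔥' 𝔭 : Ideal (𝓞 K)} (hp : 𝔭.IsPrime) (hg : 𝔣 * 𝔮 = 𝔤 * (𝔭 * 𝔥'))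
    (hpf : 𝔭 ∣ 𝔣) : ∃ x : 𝓞 K, x ≠ 0 ∧ x - 1 ∈ 𝔤 ∧ TPos K x ∧
      IsCoprime (Ideal.span {x}) (𝔣 * 𝔮) ∧
      ψ (Ideal.span {x}) * lam (Ideal.span {x}) ≠ α (x : K) * β (x : K) := by
  obtain ⟨𝔣', hf'⟩ := hpf
  have hp0 : 𝔭 ≠ 0 := by
    rintro rfl
    exact h0 (by rw [hf', zero_mul, zero_mul]; rfl)
  have hf0 : 𝔣' ≠ 0 := by
    rintro rfl
    exact h0 (by rw [hf', mul_zero, zero_mul]; rfl)
  have hne : 𝔣' ≠ 𝔣 := by
    intro h
    have h1 : 𝔭 * 𝔣' = 1 * 𝔣' := by rw [← hf', one_mul, h]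
    exact hp.ne_top (by rw [mul_right_cancel₀ hf0 h1, Ideal.one_eq_top])
  have hfg : 𝔣' * 𝔮 = 𝔤 * 𝔥' := by
    apply mul_left_cancel₀ hp0
    rw [← mul_assoc, ← hf', hg]
    ring
  have hc' : IsCoprime 𝔣' 𝔮 := by
    rw [hf'] at hc
    exact hc.of_mul_left_right
  obtain ⟨x₀, a0, a1, a2, a3, a4⟩ := hψ.prim 𝔣' ⟨𝔭, by rw [hf', mul_comm]⟩ hne
  obtain ⟨a, ha, b, hb, hab⟩ := Ideal.isCoprime_iff_exists.1 hc
  have hN : 0 < Ideal.absNorm (𝔣 * 𝔮) :=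
    Nat.pos_of_ne_zero (by rw [Ne, Ideal.absNorm_eq_zero_iff]; exact h0)
  obtain ⟨k, hk1, hk2⟩ := Pool.Agent.Y772.TW.exists_tpos (x₀ * b + a) hN
  set x : 𝓞 K := x₀ * b + a + (k : 𝓞 K) * (Ideal.absNorm (𝔣 * 𝔮) : 𝓞 K) with hx
  have hNm := Ideal.absNorm_mem (𝔣 * 𝔮)
  have hxf : x - x₀ ∈ 𝔣 := by
    have : x - x₀ = (1 - x₀) * a + (k : 𝓞 K) * (Ideal.absNorm (𝔣 * 𝔮) : 𝓞 K) := by
      rw [hx]
      linear_combination x₀ * hab
    rw [this]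
    exact 𝔣.add_mem (𝔣.mul_mem_left _ ha) (𝔣.mul_mem_left _ (Ideal.mul_le_left hNm))
  have hxq : x - 1 ∈ 𝔮 := by
    have : x - 1 = (x₀ - 1) * b + (k : 𝓞 K) * (Ideal.absNorm (𝔣 * 𝔮) : 𝓞 K) := by
      rw [hx]
      linear_combination hab
    rw [this]
    exact 𝔮.add_mem (𝔮.mul_mem_left _ hb) (𝔮.mul_mem_left _ (Ideal.mul_le_right hNm))
  have hcf : IsCoprime (Ideal.span {x}) 𝔣 := by
    rw [Pool.Agent.Y772.SG.coprime_iff] at a3 ⊢
    obtain ⟨z, hz⟩ := a3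
    refine ⟨z, ?_⟩
    have : x * z - 1 = z * (x - x₀) + (x₀ * z - 1) := by ring
    rw [this]
    exact 𝔣.add_mem (𝔣.mul_mem_left _ hxf) hz
  have hcq : IsCoprime (Ideal.span {x}) 𝔮 :=
    Pool.Agent.Y772.SG.coprime_iff.2 ⟨1, by rwa [mul_one]⟩
  refine ⟨x, hk2, ?_, hk1, hcf.mul_right hcq, ?_⟩
  · have h1 : x - 1 ∈ 𝔣' := by
      have h2 : x - 1 = (x - x₀) + (x₀ - 1) := by ring
      rw [h2]
      refine 𝔣'.add_mem ?_ a1
      have h3 : 𝔣 ≤ 𝔣' := Ideal.dvd_iff_le.mp ⟨𝔭, by rw [hf', mul_comm]⟩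
      exact h3 hxf
    have h2 : x - 1 ∈ 𝔣' * 𝔮 := by
      rw [← Ideal.inf_eq_mul_of_isCoprime hc']
      exact ⟨h1, hxq⟩
    rw [hfg] at h2
    exact Ideal.mul_le_left h2
  · intro h1
    rw [hl.ray x hk2 hxq hk1] at h1
    have h2 : ψ (Ideal.span {x}) = α (x : K) :=
      mul_right_cancel₀ (hβ.ne _ (by simpa using hk2)) h1
    have h3 := psi_cls hα hψ a0 hk2 a2 hk1 a3 hxf
    rw [h2] at h3
    apply a4
    have h4 : α (x : K) ≠ 0 := hα.ne _ (by simpa using hk2)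
    refine mul_right_cancel₀ h4 ?_
    rw [h3]
    ring

/-- the product of primitive characters of coprime conductors is primitive -/
theorem pr_isHA {𝔣 𝔮 : Ideal (𝓞 K)} (hc : IsCoprime 𝔣 𝔮) {α β : K → ℂ} (hα : Mul0 α)
    (hβ : Mul0 β) {ψ lam χ : Ideal (𝓞 K) →*₀ ℂ} (hψ : IsHA 𝔣 α ψ) (hl : IsHA 𝔮 β lam)
    (hχ : ∀ 𝔞 : Ideal (𝓞 K), 𝔞 ≠ ⊥ → χ 𝔞 = ψ 𝔞 * lam 𝔞) :
    IsHA (𝔣 * 𝔮) (fun x => α x * β x) χ := by
  have h0 : 𝔣 * 𝔮 ≠ ⊥ := mul_ne_zero hψ.ne_bot hl.ne_bot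
  have hχx : ∀ x : 𝓞 K, x ≠ 0 → χ (Ideal.span {x}) = ψ (Ideal.span {x}) * lam (Ideal.span {x}) :=
    fun x hx => hχ _ (by rw [Ne, Ideal.span_singleton_eq_bot]; exact hx)
  refine ⟨h0, ?_, ?_, ?_⟩
  · intro 𝔞 h𝔞
    rw [hχ 𝔞 h𝔞, mul_ne_zero_iff, hψ.supp 𝔞 h𝔞, hl.supp 𝔞 h𝔞, IsCoprime.mul_right_iff]
  · intro x hx0 hx hx1
    rw [hχx x hx0, hψ.ray x hx0 (Ideal.mul_le_left hx) hx1,
      hl.ray x hx0 (Ideal.mul_le_right hx) hx1]
  · intro 𝔤 hg hne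
    obtain ⟨𝔥, hgh⟩ := hg
    have h𝔥 : 𝔥 ≠ ⊤ := by
      rintro rfl
      exact hne (by rw [hgh, ← Ideal.one_eq_top, mul_one])
    obtain ⟨𝔭, hmax, hle⟩ := Ideal.exists_le_maximal 𝔥 h𝔥
    obtain ⟨𝔥', hh'⟩ := Ideal.dvd_iff_le.mpr hle
    have hg' : 𝔣 * 𝔮 = 𝔤 * (𝔭 * 𝔥') := by rw [hgh, hh']
    have hp0 : 𝔭 ≠ ⊥ := by
      rintro h
      have h0' : (⊥ : Ideal (𝓞 K)) = 0 := rfl
      exact h0 (by rw [hg', h, h0', zero_mul, mul_zero])
    have hprime : Prime 𝔭 := Ideal.prime_of_isPrime hp0 hmax.isPrime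
    have hdvd : 𝔭 ∣ 𝔣 * 𝔮 := by
      rw [hg']
      exact Dvd.intro (𝔤 * 𝔥') (by ring)
    rcases hprime.dvd_or_dvd hdvd with h | h
    · obtain ⟨x, b0, b1, b2, b3, b4⟩ := pr_halfA hc h0 hα hβ hψ hl hmax.isPrime hg' h
      refine ⟨x, b0, b1, b2, b3, ?_⟩
      rw [hχx x b0]
      exact b4
    · obtain ⟨x, b0, b1, b2, b3, b4⟩ := pr_halfA hc.symm (by rwa [mul_comm]) hβ hα hl hψ
        hmax.isPrime (by rw [mul_comm, hg']) h
      refine ⟨x, b0, b1, b2, by rwa [mul_comm], ?_⟩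
      rw [hχx x b0, mul_comm (ψ _), mul_comm (α _)]
      exact b4

section nchar

variable {ι : Type} [Fintype ι] [DecidableEq ι]

/-- **the composition of a primitive Dirichlet character with the norm is primitive** -/
theorem nch_isHA {p : ℕ} {𝔭 : ι → Ideal (𝓞 K)} (h : Split p 𝔭) {k : ℕ} (hk : 1 ≤ k)
    {χ : DirichletCharacter ℂ (p ^ k)} (hχ : χ.IsPrimitive) :
    IsHA (∏ i, 𝔭 i ^ k) (fun _ => 1) (nch χ) := by
  have : NeZero (p ^ k) := ⟨pow_ne_zero _ h.hp.ne_zero⟩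
  have hbot : ∏ i, 𝔭 i ^ k ≠ ⊥ := by
    have h1 : ∏ i, 𝔭 i ^ k ≠ 0 := Finset.prod_ne_zero_iff.2 fun i _ => pow_ne_zero _ (h.ne_bot i)
    exact h1
  have hpos : 0 < p ^ k := pow_pos h.hp.pos k
  refine ⟨hbot, ?_, ?_, ?_⟩
  · intro 𝔞 h𝔞
    rw [nch_apply χ h𝔞, h.prod_pow, Pool.Agent.Y772.TW.coprime_q, ← ZMod.isUnit_iff_coprime]
    constructor
    · intro h1
      by_contra h2
      exact h1 (χ.map_nonunit h2)
    · intro h1 h2
      have h3 : IsUnit (χ ((Ideal.absNorm 𝔞 : ℕ) : ZMod (p ^ k))) := h1.map χ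
      rw [h2] at h3
      exact not_isUnit_zero h3
  · intro x hx0 hx hx1
    rw [nch_tpos χ hx0 hx1]
    have h2 : ((Algebra.norm ℤ x : ℤ) : ZMod (p ^ k)) = ((Algebra.norm ℤ (1 : 𝓞 K) : ℤ) : ZMod (p ^ k)) := by
      refine Pool.Agent.Y772.TW.norm_eq_of_sub ?_
      rw [← h.prod_pow]
      exact hx
    rw [h2, map_one, Int.cast_one, map_one]
  · intro 𝔤 hg hne
    obtain ⟨𝔥, hgh⟩ := hg
    have h𝔥 : 𝔥 ≠ ⊤ := by
      rintro rfl
      exact hne (by rw [hgh, ← Ideal.one_eq_top, mul_one])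
    obtain ⟨𝔮, hmax, hle⟩ := Ideal.exists_le_maximal 𝔥 h𝔥
    obtain ⟨𝔥', hh'⟩ := Ideal.dvd_iff_le.mpr hle
    have hg0 : 𝔤 * (𝔮 * 𝔥') = ∏ i, 𝔭 i ^ k := by rw [hgh, hh']
    have hp0 : 𝔮 ≠ ⊥ := by
      rintro h1
      have h0' : (⊥ : Ideal (𝓞 K)) = 0 := rfl
      exact hbot (by rw [← hg0, h1, h0', zero_mul, mul_zero])
    have hprime : Prime 𝔮 := Ideal.prime_of_isPrime hp0 hmax.isPrime
    have hdvd : 𝔮 ∣ ∏ i, 𝔭 i ^ k := by
      rw [← hg0]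
      exact Dvd.intro (𝔤 * 𝔥') (by ring)
    obtain ⟨i, -, hi⟩ := (Prime.dvd_finsetProd_iff hprime _).1 hdvd
    have hi' : 𝔮 ∣ 𝔭 i := hprime.dvd_of_dvd_pow hi
    have hqi : 𝔭 i = 𝔮 := by
      have h1 : 𝔭 i ≤ 𝔮 := Ideal.dvd_iff_le.1 hi'
      exact (h.isMaximal i).eq_of_le hmax.ne_top h1
    -- the witness
    obtain ⟨u, hu1, hu2, hu3⟩ := prim_wit h.hp hk hχ
    have hcop : IsCoprime (𝔭 i ^ k) (∏ j ∈ Finset.univ.erase i, 𝔭 j ^ k) :=
      IsCoprime.prod_right fun j hj => (h.coprime (Finset.ne_of_mem_erase hj).symm).pow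
    obtain ⟨f, hf, e, he, hfe⟩ := Ideal.isCoprime_iff_exists.1 hcop
    obtain ⟨l, hl1, hl2⟩ := Pool.Agent.Y772.TW.exists_tpos (1 + (u - 1 : ℤ) * e : 𝓞 K) hpos
    set x : 𝓞 K := 1 + (u - 1 : ℤ) * e + (l : 𝓞 K) * ((p ^ k : ℕ) : 𝓞 K) with hx
    have hpk : ∀ j, ((p ^ k : ℕ) : 𝓞 K) ∈ 𝔭 j ^ k := fun j => by
      push_cast
      exact Ideal.pow_mem_pow (h.deg1 j).mem k
    have hxj : ∀ j, x - (if j = i then u else 1 : ℤ) ∈ 𝔭 j ^ k := by
      intro j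
      by_cases hj : j = i
      · subst hj
        rw [if_pos rfl]
        have e1 : x - (u : 𝓞 K) = (l : 𝓞 K) * ((p ^ k : ℕ) : 𝓞 K) + (1 - (u : 𝓞 K)) * f := by
          rw [hx]
          push_cast
          linear_combination (1 - (u : 𝓞 K)) * (-hfe)
        rw [e1]
        exact Ideal.add_mem _ (Ideal.mul_mem_left _ _ (hpk _)) (Ideal.mul_mem_left _ _ hf)
      · rw [if_neg hj]
        have e1 : x - ((1 : ℤ) : 𝓞 K) = (l : 𝓞 K) * ((p ^ k : ℕ) : 𝓞 K) + ((u : 𝓞 K) - 1) * e := by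
          rw [hx]
          push_cast
          ring
        rw [e1]
        have h1 : e ∈ 𝔭 j ^ k := by
          have h2 : 𝔭 j ^ k ∣ ∏ j ∈ Finset.univ.erase i, 𝔭 j ^ k :=
            Finset.dvd_prod_of_mem (fun j => 𝔭 j ^ k) (Finset.mem_erase.2 ⟨hj, Finset.mem_univ j⟩)
          exact (Ideal.dvd_iff_le.1 h2) he
        exact Ideal.add_mem _ (Ideal.mul_mem_left _ _ (hpk _)) (Ideal.mul_mem_left _ _ h1)
    have hnorm : ((Algebra.norm ℤ x : ℤ) : ZMod (p ^ k)) = ((u : ℤ) : ZMod (p ^ k)) := by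
      rw [norm_res h hk hxj]
      rw [Finset.prod_eq_single i]
      · rw [if_pos rfl]
      · intro j _ hj
        rw [if_neg hj, Int.cast_one]
      · intro hi
        exact absurd (Finset.mem_univ i) hi
    refine ⟨x, hl2, ?_, hl1, ?_, ?_⟩
    · -- membership in 𝔤
      have h1 : x - 1 ∈ (⊤ : Ideal (𝓞 K)) * ∏ j ∈ Finset.univ, 𝔭 j ^ (if j = i then k - 1 else k) := by
        refine mem_prod h top_ne_bot Finset.univ _ Submodule.mem_top fun j _ => ?_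
        rw [Ideal.top_mul]
        have h2 := hxj j
        by_cases hj : j = i
        · rw [if_pos hj] at h2 ⊢
          have e1 : x - 1 = (x - (u : 𝓞 K)) + ((u - 1 : ℤ) : 𝓞 K) := by push_cast; ring
          rw [e1]
          refine Ideal.add_mem _ (Ideal.pow_le_pow_right (by omega) h2) ?_
          rw [(h.deg1 j).int_mem]
          exact hu1
        · rw [if_neg hj] at h2 ⊢
          rw [Int.cast_one] at h2
          exact h2
      rw [Ideal.top_mul] at h1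
      have h3 : 𝔤 ∣ ∏ j ∈ Finset.univ, 𝔭 j ^ (if j = i then k - 1 else k) := by
        have e2 : 𝔭 i * ∏ j ∈ Finset.univ, 𝔭 j ^ (if j = i then k - 1 else k) =
            𝔭 i * (𝔤 * 𝔥') := by
          have e3 : 𝔭 i * (𝔤 * 𝔥') = ∏ i, 𝔭 i ^ k := by
            rw [← hg0, hqi]
            ring
          rw [e3, ← Finset.mul_prod_erase _ _ (Finset.mem_univ i), if_pos rfl, ← mul_assoc,
            ← pow_succ', Nat.sub_add_cancel hk, ← Finset.mul_prod_erase _ _ (Finset.mem_univ i)]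
          congr 1
          refine Finset.prod_congr rfl fun j hj => ?_
          rw [if_neg (Finset.ne_of_mem_erase hj)]
        have e4 := mul_left_cancel₀ (h.ne_bot i) e2
        rw [e4]
        exact dvd_mul_right _ _
      exact (Ideal.dvd_iff_le.1 h3) h1
    · have h1 : Ideal.span {x} ≠ ⊥ := by
        rw [Ne, Ideal.span_singleton_eq_bot]
        exact hl2
      rw [h.prod_pow, Pool.Agent.Y772.TW.coprime_q, ← ZMod.isUnit_iff_coprime]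
      have h2 : ((Ideal.absNorm (Ideal.span {x}) : ℕ) : ZMod (p ^ k)) = ((u : ℤ) : ZMod (p ^ k)) := by
        rw [← hnorm, ← Pool.Agent.Y772.TW.absNorm_tpos hl2 hl1]
        push_cast
        rfl
      rw [h2]
      exact Pool.Agent.Y779.R3.unit_int (r := k) h.hp hu2
    · rw [nch_tpos χ hl2 hl1, hnorm]
      exact hu3

end nchar

end Pool.Agent.J4H31.U
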