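import Pool.Agent.J4H31.U.U16

/-!
Hecke characters with an arbitrary infinity type in terms of the angular parts `us σ e`.
-/

set_option autoImplicit false
set_option linter.unusedSectionVars false

open NumberField
open Pool.Agent.Y773 (TPos)
open Pool.Agent.Y773.G (cj cj_apply mk_cj rl sg rl_pos_of_TPos rl_cast abs_rl)
open Pool.Agent.Y767 (ax norm_ax ax_mul ax_one ax_ne)

namespace Pool.Agent.J4H31.U

variable {K : Type} [Field K] [NumberField K]

/-- the angular part with integral exponents -/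
noncomputable def ang (l : InfinitePlace K → ℤ) (x : K) : ℂ :=
  ∏ w : InfinitePlace K, (w.embedding x / ((w x : ℝ) : ℂ)) ^ l w

lemma uni_ne (w : InfinitePlace K) {x : K} (hx : x ≠ 0) : w.embedding x / ((w x : ℝ) : ℂ) ≠ 0 :=
  div_ne_zero ((map_ne_zero _).2 hx) (by exact_mod_cast place_ne w hx)

lemma uni_norm (w : InfinitePlace K) {x : K} (hx : x ≠ 0) :
    ‖w.embedding x / ((w x : ℝ) : ℂ)‖ = 1 := by
  rw [norm_div, InfinitePlace.norm_embedding_eq, Complex.norm_real,
    Real.norm_of_nonneg (apply_nonneg w x), div_self (place_ne w hx)]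

lemma ang_mul (l : InfinitePlace K → ℤ) {x y : K} (_hx : x ≠ 0) (_hy : y ≠ 0) :
    ang l (x * y) = ang l x * ang l y := by
  unfold ang
  rw [← Finset.prod_mul_distrib]
  refine Finset.prod_congr rfl fun w _ => ?_
  rw [← mul_zpow, map_mul, map_mul]
  congr 1
  push_cast
  exact mul_div_mul_comm _ _ _ _

lemma ang_one (l : InfinitePlace K → ℤ) : ang l (1 : K) = 1 := by
  unfold ang
  refine Finset.prod_eq_one fun w _ => ?_
  simp

lemma ang_ne (l : InfinitePlace K → ℤ) {x : K} (hx : x ≠ 0) : ang l x ≠ 0 :=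
  Finset.prod_ne_zero_iff.2 fun w _ => zpow_ne_zero _ (uni_ne w hx)

lemma mul0_type (ν : InfinitePlace K → ℝ) (l : InfinitePlace K → ℤ) :
    Mul0 (fun x : K => ax ν x * ang l x) where
  mul x y hx hy := by
    rw [ax_mul ν hx hy, ang_mul l hx hy]
    ring
  ne x hx := mul_ne_zero (ax_ne ν x) (ang_ne l hx)

lemma mul0_one : Mul0 (fun _ : K => (1 : ℂ)) := ⟨fun _ _ _ _ => by simp, fun _ _ => one_ne_zero⟩

lemma uni_real {w : InfinitePlace K} (hw : w.IsReal) {x : K} (hx : x ≠ 0) :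
    w.embedding x / ((w x : ℝ) : ℂ) = (((SignType.sign (rl w x) : SignType) : ℤ) : ℂ) := by
  have h0 : rl w x ≠ 0 := (map_ne_zero _).2 hx
  rw [← rl_cast hw, ← abs_rl w x]
  rcases lt_or_gt_of_ne h0 with h | h
  · rw [sign_neg h, abs_of_neg h]
    have : ((rl w x : ℝ) : ℂ) ≠ 0 := by exact_mod_cast h0
    push_cast
    rw [div_neg, div_self this]
    simp
  · rw [sign_pos h, abs_of_pos h]
    have : ((rl w x : ℝ) : ℂ) ≠ 0 := by exact_mod_cast h0
    rw [div_self this]
    simp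

lemma uni_tpos {w : InfinitePlace K} (hw : w.IsReal) {x : 𝓞 K} (hx : x ≠ 0) (hp : TPos K x) :
    w.embedding (x : K) / ((w (x : K) : ℝ) : ℂ) = 1 := by
  rw [uni_real hw (by simpa using hx), sign_pos (rl_pos_of_TPos hx hp w)]
  simp

open Classical in
/-- the exponents at the complex places -/
noncomputable def lc (l : InfinitePlace K → ℤ) (w : InfinitePlace K) : ℤ :=
  if w.IsReal then 0 else l w

lemma ang_lc (l : InfinitePlace K → ℤ) {x : 𝓞 K} (hx : x ≠ 0) (hp : TPos K x) :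
    ang (lc l) (x : K) = ang l (x : K) := by
  unfold ang
  refine Finset.prod_congr rfl fun w _ => ?_
  by_cases hw : w.IsReal
  · rw [uni_tpos hw hx hp, one_zpow, one_zpow]
  · unfold lc
    rw [if_neg hw]

/-- the embeddings -/
noncomputable def sl (l : InfinitePlace K → ℤ) (w : InfinitePlace K) : K →+* ℂ :=
  if 0 ≤ lc l w then w.embedding else cj w.embedding

lemma sel_sl (l : InfinitePlace K → ℤ) : Sel (sl l) := by
  intro w
  unfold sl
  split_ifs
  · exact InfinitePlace.mk_embedding w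
  · rw [mk_cj]
    exact InfinitePlace.mk_embedding w

open Classical in
/-- the exponents -/
noncomputable def el' (l : InfinitePlace K → ℤ) (e : InfinitePlace K → ℕ) (w : InfinitePlace K) : ℕ :=
  if w.IsReal then e w else (l w).natAbs

lemma us_eq (l : InfinitePlace K → ℤ) {e : InfinitePlace K → ℕ}
    (he : ∀ w : InfinitePlace K, w.IsComplex → e w = 0) {x : K} (hx : x ≠ 0) :
    us (sl l) (el' l e) x = sg e x * ang (lc l) x := by
  unfold us sg ang
  rw [← Finset.prod_mul_distrib]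
  refine Finset.prod_congr rfl fun w _ => ?_
  by_cases hw : w.IsReal
  · have h1 : lc l w = 0 := by
      unfold lc
      rw [if_pos hw]
    have h2 : el' l e w = e w := by
      unfold el'
      rw [if_pos hw]
    unfold sl
    rw [h1, h2, if_pos le_rfl, zpow_zero, mul_one, uni_real hw hx]
  · have h1 : lc l w = l w := by
      unfold lc
      rw [if_neg hw]
    have h2 : el' l e w = (l w).natAbs := by
      unfold el'
      rw [if_neg hw]
    rw [he w (InfinitePlace.not_isReal_iff_isComplex.1 hw), pow_zero, one_mul, h2, h1]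
    unfold sl
    rw [h1]
    split_ifs with h3
    · rw [← zpow_natCast, Int.natAbs_of_nonneg h3]
    · have h4 : ((l w).natAbs : ℤ) = -l w := by
        rw [Int.ofNat_natAbs_of_nonpos (by omega)]
      have h5 : cj w.embedding x / ((w x : ℝ) : ℂ) = (w.embedding x / ((w x : ℝ) : ℂ))⁻¹ := by
        have h6 := uni_norm w hx
        rw [Complex.inv_eq_conj h6, map_div₀, Complex.conj_ofReal, cj_apply]
      rw [h5, ← zpow_natCast, h4, inv_zpow, zpow_neg, inv_inv]

lemma IsHA.congr {𝔣 : Ideal (𝓞 K)} {α β : K → ℂ} {ψ : Ideal (𝓞 K) →*₀ ℂ} (h : IsHA 𝔣 α ψ)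
    (hab : ∀ x : 𝓞 K, x ≠ 0 → TPos K x → α (x : K) = β (x : K)) : IsHA 𝔣 β ψ where
  ne_bot := h.ne_bot
  supp := h.supp
  ray x hx hx1 hx2 := by rw [h.ray x hx hx1 hx2, hab x hx hx2]
  prim 𝔤 hg hne := by
    obtain ⟨x, a0, a1, a2, a3, a4⟩ := h.prim 𝔤 hg hne
    exact ⟨x, a0, a1, a2, a3, by rwa [← hab x a0 a2]⟩

lemma type_tpos (ν : InfinitePlace K → ℝ) (l : InfinitePlace K → ℤ) {e : InfinitePlace K → ℕ}
    (he : ∀ w : InfinitePlace K, w.IsComplex → e w = 0) {x : 𝓞 K} (hx : x ≠ 0) (hp : TPos K x) :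
    us (sl l) (el' l e) (x : K) * ax ν (x : K) = ax ν (x : K) * ang l (x : K) := by
  rw [us_eq l he (by simpa using hx), ang_lc l hx hp]
  have : sg e (x : K) = 1 := by
    unfold sg
    refine Finset.prod_eq_one fun w _ => ?_
    rw [sign_pos (rl_pos_of_TPos hx hp w)]
    simp
  rw [this]
  ring

/-- **Hecke characters of arbitrary infinity type** -/
theorem IsHA.toK {𝔣 : Ideal (𝓞 K)} {ν : InfinitePlace K → ℝ} {l : InfinitePlace K → ℤ}
    {ψ : Ideal (𝓞 K) →*₀ ℂ} (h : IsHA 𝔣 (fun x => ax ν x * ang l x) ψ) (hν : ∑ w, ν w = 0)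
    (ht : 𝔣 ≠ ⊤) {M : ℕ} (hM : 1 ≤ M) (hl : ∀ w, (l w).natAbs ≤ M) :
    ∃ (σ : InfinitePlace K → (K →+* ℂ)) (e : InfinitePlace K → ℕ), Sel σ ∧ Ex e ∧
      (∀ w, e w ≤ M) ∧ IsModK 𝔣 (kp σ e ν) ψ ∧ PrimK 𝔣 (kp σ e ν) ψ := by
  classical
  have hinj : ∀ {x : 𝓞 K}, x ≠ 0 → (x : K) ≠ 0 := fun {x} hx => by simpa using hx
  -- the signs
  obtain ⟨e, he1, he2, he3⟩ := sig_genX (𝔣 := 𝔣) h.ne_bot
    (f := fun x => ψ (Ideal.span {x}) * (ax ν (x : K) * ang (lc l) (x : K))⁻¹) (by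
      have h1 : ((1 : 𝓞 K) : K) = 1 := map_one (algebraMap (𝓞 K) K)
      rw [h1, ax_one, ang_one, Ideal.span_singleton_one, ← Ideal.one_eq_top, map_one]
      norm_num) (by
      intro x y hx hy
      rw [span_mul_val, (mul0_type ν (lc l)).coe hx hy, mul_inv]
      ring) (by
      intro x hx hx1 hx2
      rw [h.ray x hx hx1 hx2]
      rw [ang_lc l hx hx2]
      exact mul_inv_cancel₀ (mul_ne_zero (ax_ne _ _) (ang_ne _ (hinj hx))))
  have hS := sel_sl l
  refine ⟨sl l, el' l e, hS, ?_, ?_, ?_, ?_⟩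
  · intro w hw
    unfold el'
    rw [if_pos hw]
    exact he1 w
  · intro w
    unfold el'
    split_ifs
    · exact (he1 w).trans hM
    · exact hl w
  · refine ⟨kap_kp hS _ hν, h.ne_bot, ht, ?_, ?_⟩
    · intro 𝔞
      by_cases h𝔞 : 𝔞 = ⊥
      · have h0 : 𝔞 = 0 := h𝔞
        rw [h𝔞, Ideal.isCoprime_iff_sup_eq, bot_sup_eq]
        rw [← h𝔞, h0, map_zero]
        exact ⟨fun h1 => absurd rfl h1, fun h1 => absurd h1 ht⟩
      · exact h.supp 𝔞 h𝔞
    · intro x hx hx1
      have h1 := he3 x hx hx1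
      have h2 : ax ν (x : K) * ang (lc l) (x : K) ≠ 0 :=
        mul_ne_zero (ax_ne _ _) (ang_ne _ (hinj hx))
      have h3 : ψ (Ideal.span {x}) = us (sl l) (el' l e) (x : K) * ax ν (x : K) := by
        rw [us_eq l he2 (hinj hx), ← h1, mul_assoc, mul_comm (ang (lc l) (x : K)), mul_assoc,
          inv_mul_cancel₀ h2, mul_one]
      rw [h3, mul_comm]
      exact kp_mul_inv hS _ ν (hinj hx)
  · intro 𝔤 hg hne
    obtain ⟨x, a0, a1, a2, a3, a4⟩ := h.prim 𝔤 hg hne
    refine ⟨x, a1, a3, fun h1 => a4 ?_⟩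
    have h2 := kp_mul_inv hS (el' l e) ν (hinj a0)
    have h3 : kp (sl l) (el' l e) ν (x : K) ≠ 0 := left_ne_zero_of_mul_eq_one h2
    have h4 := type_tpos ν l he2 a0 a2
    rw [← h4]
    refine mul_right_cancel₀ h3 ?_
    rw [h1, mul_comm, h2]

end Pool.Agent.J4H31.U
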