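import Pool.Agent.J4H31.U.U1
import Pool.Agent.J4H31.A13

/-!
Gaussian functions with harmonic polynomials: Fourier transforms and lattice sums.
-/

set_option autoImplicit false
set_option linter.unusedSectionVars false

open MeasureTheory Complex Matrix
open Pool.Agent.Y773 (GD)
open scoped ENNReal

namespace Pool.Agent.J4H31.U

variable {ι : Type} [Fintype ι]

/-- orthogonality of the forms -/
def Orth (l : List (ι → ℂ)) : Prop := l.Pairwise fun α β => ∑ i, β i * α i = 0

/-- a polynomial times the gaussian -/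
noncomputable def WL (l : List (ι → ℂ)) (u : ι → ℝ) : ℂ :=
  LP l (fun i => (u i : ℂ)) * ((Real.exp (-(Real.pi * nsq u)) : ℝ) : ℂ)

lemma continuous_nsq : Continuous (nsq : (ι → ℝ) → ℝ) := by
  unfold nsq
  fun_prop

lemma continuous_WL (l : List (ι → ℂ)) : Continuous (WL l) := by
  unfold WL
  exact (continuous_LP l).mul (Complex.continuous_ofReal.comp
    (Real.continuous_exp.comp (continuous_const.mul continuous_nsq).neg))

/-- the constant of the bound -/
noncomputable def CW (l : List (ι → ℂ)) : ℝ :=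
  nL l * Real.exp (Fintype.card ι * (l.length : ℝ) ^ 2 / 4)

lemma CW_nonneg (l : List (ι → ℂ)) : 0 ≤ CW l := mul_nonneg (nL_nonneg l) (Real.exp_pos _).le

lemma exp_s1_le (r : ℝ) (u : ι → ℝ) :
    Real.exp (r * s1 u) ≤ Real.exp (Fintype.card ι * r ^ 2 / 4) * Real.exp (nsq u) := by
  rw [← Real.exp_add]
  refine Real.exp_le_exp.2 ?_
  unfold s1 nsq
  have h1 : ∀ i, r * |u i| ≤ r ^ 2 / 4 + u i ^ 2 := by
    intro i
    nlinarith [sq_nonneg (r / 2 - |u i|), sq_abs (u i)]
  calc r * ∑ i, |u i| = ∑ i, r * |u i| := Finset.mul_sum _ _ _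
    _ ≤ ∑ i, (r ^ 2 / 4 + u i ^ 2) := Finset.sum_le_sum fun i _ => h1 i
    _ = _ := by
        rw [Finset.sum_add_distrib, Finset.sum_const, Finset.card_univ, nsmul_eq_mul]
        ring

lemma norm_WL_le (l : List (ι → ℂ)) (u : ι → ℝ) : ‖WL l u‖ ≤ CW l * Real.exp (-2 * nsq u) := by
  unfold WL
  rw [norm_mul, Complex.norm_real, Real.norm_of_nonneg (Real.exp_pos _).le]
  have h1 := norm_LP_le l u
  have h2 := exp_s1_le (l.length : ℝ) u
  have h3 : Real.exp (-(Real.pi * nsq u)) ≤ Real.exp (-3 * nsq u) := by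
    refine Real.exp_le_exp.2 ?_
    have : 0 ≤ nsq u := Finset.sum_nonneg fun _ _ => sq_nonneg _
    have := Real.pi_gt_three
    nlinarith
  calc _ ≤ (nL l * (Real.exp (Fintype.card ι * (l.length : ℝ) ^ 2 / 4) * Real.exp (nsq u))) *
        Real.exp (-3 * nsq u) := by
        refine mul_le_mul (h1.trans (mul_le_mul_of_nonneg_left h2 (nL_nonneg l))) h3
          (Real.exp_pos _).le (mul_nonneg (nL_nonneg l) (by positivity))
    _ = CW l * (Real.exp (nsq u) * Real.exp (-3 * nsq u)) := by unfold CW; ring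
    _ = _ := by
        rw [← Real.exp_add]
        congr 2
        ring

lemma gd_WL (l : List (ι → ℂ)) {a : ι → ℝ} (ha : ∀ w, 0 < a w) :
    GD (fun x : ι → ℝ => WL l (fun w => a w * x w)) := by
  classical
  obtain ⟨c, hc, hca⟩ : ∃ c : ℝ, 0 < c ∧ ∀ w, c ≤ a w ^ 2 := by
    rcases isEmpty_or_nonempty ι with hι | hι
    · exact ⟨1, one_pos, fun w => (IsEmpty.false w).elim⟩
    · obtain ⟨i, hi⟩ := Finite.exists_min (fun w => a w ^ 2)
      exact ⟨a i ^ 2, by have := ha i; positivity, hi⟩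
  refine ⟨CW l, 2 * c, by positivity, fun z => ?_⟩
  refine (norm_WL_le l _).trans (mul_le_mul_of_nonneg_left (Real.exp_le_exp.mpr ?_) (CW_nonneg l))
  have h1 := Pool.Agent.Y773.norm_sq_le_sum z
  have h2 : c * ∑ w, z w ^ 2 ≤ nsq (fun w => a w * z w) := by
    unfold nsq
    rw [Finset.mul_sum]
    refine Finset.sum_le_sum fun w _ => ?_
    rw [mul_pow]
    exact mul_le_mul_of_nonneg_right (hca w) (sq_nonneg _)
  nlinarith

lemma lf_scale (α : ι → ℂ) (a u : ι → ℂ) :
    lf α (fun i => a i * u i) = lf (fun i => a i * α i) u := by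
  unfold lf
  exact Finset.sum_congr rfl fun i _ => by ring

lemma LP_scale (l : List (ι → ℂ)) (a u : ι → ℂ) :
    LP l (fun i => a i * u i) = LP (l.map fun α i => a i * α i) u := by
  unfold LP
  rw [List.map_map]
  congr 1
  refine List.map_congr_left fun α _ => ?_
  simp only [Function.comp_apply]
  exact lf_scale α a u

lemma LP_smul (l : List (ι → ℂ)) (c : ℂ) (u : ι → ℂ) :
    LP l (fun i => c * u i) = c ^ l.length * LP l u := by
  induction l with
  | nil => simp [LP]
  | cons α l ih =>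
    rw [LP_cons, LP_cons, ih, List.length_cons]
    have : lf α (fun i => c * u i) = c * lf α u := by
      unfold lf
      rw [Finset.mul_sum]
      exact Finset.sum_congr rfl fun i _ => by ring
    rw [this]
    ring

/-- the Fourier transform -/
theorem ft_WL {l : List (ι → ℂ)} (hl : Orth l) {a : ι → ℝ} (ha : ∀ w, 0 < a w) (ξ : ι → ℝ) :
    ∫ x : ι → ℝ, cexp (-(2 * Real.pi * I * ((∑ w, ξ w * x w : ℝ) : ℂ))) * WL l (fun w => a w * x w) =
      (∏ w, ((a w : ℝ) : ℂ)⁻¹) * ((-I) ^ l.length * WL l (fun w => ξ w / a w)) := by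
  classical
  set b : ι → ℝ := fun i => a i ^ 2 with hb
  have hb0 : ∀ i, 0 < b i := fun i => pow_pos (ha i) 2
  set l' : List (ι → ℂ) := l.map fun α i => (a i : ℂ) * α i with hl'
  have hac : ∀ i, (a i : ℂ) ≠ 0 := fun i => by exact_mod_cast (ha i).ne'
  have hO : l'.Pairwise fun α β => ∑ i, β i * α i / (b i : ℂ) = 0 := by
    rw [hl', List.pairwise_map]
    refine hl.imp fun {α β} h => ?_
    rw [← h]
    refine Finset.sum_congr rfl fun i _ => ?_
    simp only [hb]
    have := hac i
    push_cast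
    field_simp
  have h := ggen hb0 l' hO (fun i => -I * (ξ i : ℂ))
  have e1 : ∀ x : ι → ℝ, cexp (-(2 * Real.pi * I * ((∑ w, ξ w * x w : ℝ) : ℂ))) *
      WL l (fun w => a w * x w) = LP l' (fun i => (x i : ℂ)) * EE b (fun i => -I * (ξ i : ℂ)) x := by
    intro x
    unfold WL EE nsq
    have e2 : LP l (fun i => ((a i * x i : ℝ) : ℂ)) = LP l' (fun i => (x i : ℂ)) := by
      rw [hl', ← LP_scale]
      congr 1
      funext i
      push_cast
      rfl
    rw [e2, Complex.ofReal_exp, mul_left_comm, ← Complex.exp_add]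
    congr 2
    push_cast
    rw [Finset.mul_sum, Finset.mul_sum, ← Finset.sum_neg_distrib, ← Finset.sum_neg_distrib,
      ← Finset.sum_add_distrib]
    refine Finset.sum_congr rfl fun i _ => ?_
    simp only [hb]
    push_cast
    ring
  simp_rw [e1]
  rw [h]
  have e3 : ∀ i, Real.sqrt (b i) = a i := fun i => Real.sqrt_sq (ha i).le
  simp_rw [e3]
  congr 1
  have e4 : LP l' (fun i => -I * (ξ i : ℂ) / (b i : ℂ)) = (-I) ^ l.length *
      LP l (fun i => ((ξ i / a i : ℝ) : ℂ)) := by
    rw [hl', ← LP_scale, ← LP_smul]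
    congr 1
    funext i
    simp only [hb]
    have := hac i
    push_cast
    field_simp
  rw [e4, mul_assoc]
  congr 1
  unfold WL nsq
  congr 1
  rw [Complex.ofReal_exp]
  congr 1
  push_cast
  rw [Finset.mul_sum, Finset.mul_sum, ← Finset.sum_neg_distrib]
  refine Finset.sum_congr rfl fun i _ => ?_
  simp only [hb]
  have := hac i
  push_cast
  have hI : I ^ 2 = -1 := Complex.I_sq
  field_simp
  rw [hI]
  ring

/-! ### the representation by gaussians with centres -/

/-- the kernel -/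
noncomputable def HL (l : List (ι → ℂ)) (u : ι → ℝ) : ℂ :=
  2 ^ (Fintype.card ι) * (LP l (fun i => 2 * (u i : ℂ)) * ((Real.exp (-(2 * Real.pi * nsq u)) : ℝ) : ℂ))

lemma continuous_HL (l : List (ι → ℂ)) : Continuous (HL l) := by
  unfold HL
  simp_rw [LP_smul]
  exact continuous_const.mul ((continuous_const.mul (continuous_LP l)).mul
    (Complex.continuous_ofReal.comp (Real.continuous_exp.comp (continuous_const.mul continuous_nsq).neg)))

/-- the majorant -/
noncomputable def HB (l : List (ι → ℂ)) (u : ι → ℝ) : ℝ :=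
  2 ^ (Fintype.card ι) * (2 ^ l.length * CW l) * ∏ i, Real.exp (-(Real.pi) * (u i) ^ 2)

lemma HB_nonneg (l : List (ι → ℂ)) (u : ι → ℝ) : 0 ≤ HB l u := by
  unfold HB
  have := CW_nonneg l
  have h2 : 0 ≤ ∏ i, Real.exp (-(Real.pi) * (u i) ^ 2) := Finset.prod_nonneg fun _ _ => (Real.exp_pos _).le
  positivity

lemma norm_HL_le (l : List (ι → ℂ)) (u : ι → ℝ) : ‖HL l u‖ ≤ HB l u := by
  have h1 := norm_LP_le l u
  have h2 := exp_s1_le (l.length : ℝ) u
  have e1 : ∏ i, Real.exp (-(Real.pi) * (u i) ^ 2) = Real.exp (-(Real.pi * nsq u)) := by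
    unfold nsq
    rw [← Real.exp_sum, Finset.mul_sum, ← Finset.sum_neg_distrib]
    congr 1
    exact Finset.sum_congr rfl fun i _ => by ring
  have h3 : Real.exp (nsq u) * Real.exp (-(2 * Real.pi * nsq u)) ≤ Real.exp (-(Real.pi * nsq u)) := by
    rw [← Real.exp_add]
    refine Real.exp_le_exp.2 ?_
    have h0 : 0 ≤ nsq u := Finset.sum_nonneg fun _ _ => sq_nonneg _
    have := Real.pi_gt_three
    nlinarith
  have h4 : ‖LP l (fun i => (u i : ℂ))‖ * Real.exp (-(2 * Real.pi * nsq u)) ≤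
      CW l * Real.exp (-(Real.pi * nsq u)) := by
    calc _ ≤ (nL l * (Real.exp (Fintype.card ι * (l.length : ℝ) ^ 2 / 4) * Real.exp (nsq u))) *
          Real.exp (-(2 * Real.pi * nsq u)) :=
          mul_le_mul_of_nonneg_right (h1.trans (mul_le_mul_of_nonneg_left h2 (nL_nonneg l)))
            (Real.exp_pos _).le
      _ = CW l * (Real.exp (nsq u) * Real.exp (-(2 * Real.pi * nsq u))) := by unfold CW; ring
      _ ≤ _ := mul_le_mul_of_nonneg_left h3 (CW_nonneg l)
  calc ‖HL l u‖ = 2 ^ (Fintype.card ι) * (2 ^ l.length *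
        (‖LP l (fun i => (u i : ℂ))‖ * Real.exp (-(2 * Real.pi * nsq u)))) := by
        unfold HL
        rw [LP_smul, norm_mul, norm_mul, norm_mul, norm_pow, norm_pow, Complex.norm_real,
          Real.norm_of_nonneg (Real.exp_pos _).le, Complex.norm_ofNat]
        ring
    _ ≤ 2 ^ (Fintype.card ι) * (2 ^ l.length * (CW l * Real.exp (-(Real.pi * nsq u)))) := by gcongr
    _ = HB l u := by
        unfold HB
        rw [e1]
        ring

lemma integrable_HB (l : List (ι → ℂ)) : Integrable (HB l) := by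
  unfold HB
  exact (Integrable.fintype_prod (f := fun (_ : ι) (u : ℝ) => Real.exp (-Real.pi * u ^ 2))
    fun _ => integrable_exp_neg_mul_sq Real.pi_pos).const_mul _

/-- the constant of the lattice sums -/
noncomputable def CH (l : List (ι → ℂ)) : ℝ := 2 ^ (Fintype.card ι) * (2 ^ l.length * CW l)

lemma CH_nonneg (l : List (ι → ℂ)) : 0 ≤ CH l := by
  unfold CH
  have := CW_nonneg l
  positivity

lemma integral_HB (l : List (ι → ℂ)) : ∫ u, HB l u = CH l := by
  unfold HB CH
  rw [integral_const_mul,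
    integral_fintype_prod_volume_eq_prod (fun (_ : ι) (u : ℝ) => Real.exp (-Real.pi * u ^ 2))]
  simp_rw [integral_gaussian, div_self Real.pi_ne_zero, Real.sqrt_one]
  rw [Finset.prod_const_one, mul_one]

/-- the representation -/
lemma WL_conv {l : List (ι → ℂ)} (hl : Orth l) (z : ι → ℝ) :
    ∫ u : ι → ℝ, HL l u * ((Real.exp (-(Real.pi * 2 * nsq (z - u))) : ℝ) : ℂ) = WL l z := by
  set b : ι → ℝ := fun _ => 4 with hb
  have hO : l.Pairwise fun α β => ∑ i, β i * α i / (b i : ℂ) = 0 := by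
    refine hl.imp fun {α β} h => ?_
    simp only [hb]
    rw [← Finset.sum_div, h, zero_div]
  have h := ggen (b := b) (fun _ => by norm_num) l hO (fun i => 2 * (z i : ℂ))
  have e1 : ∀ u : ι → ℝ, HL l u * ((Real.exp (-(Real.pi * 2 * nsq (z - u))) : ℝ) : ℂ) =
      (2 ^ (Fintype.card ι) * 2 ^ l.length * ((Real.exp (-(2 * Real.pi * nsq z)) : ℝ) : ℂ)) *
        (LP l (fun i => (u i : ℂ)) * EE b (fun i => 2 * (z i : ℂ)) u) := by
    intro u
    unfold HL
    rw [LP_smul]
    have e2 : ((Real.exp (-(2 * Real.pi * nsq u)) : ℝ) : ℂ) *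
        ((Real.exp (-(Real.pi * 2 * nsq (z - u))) : ℝ) : ℂ) =
        ((Real.exp (-(2 * Real.pi * nsq z)) : ℝ) : ℂ) * EE b (fun i => 2 * (z i : ℂ)) u := by
      unfold EE nsq
      rw [Complex.ofReal_exp, Complex.ofReal_exp, Complex.ofReal_exp, ← Complex.exp_add,
        ← Complex.exp_add]
      congr 1
      push_cast
      simp only [Finset.mul_sum, ← Finset.sum_neg_distrib, ← Finset.sum_add_distrib, Pi.sub_apply]
      refine Finset.sum_congr rfl fun i _ => ?_
      simp only [hb]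
      push_cast
      ring
    linear_combination (2 ^ (Fintype.card ι) * (2 ^ l.length * LP l (fun i => (u i : ℂ)))) * e2
  simp_rw [e1]
  rw [integral_const_mul, h]
  have e3 : (∏ i : ι, ((Real.sqrt (b i) : ℝ) : ℂ)⁻¹) = (2 ^ (Fintype.card ι))⁻¹ := by
    simp only [hb]
    have : Real.sqrt 4 = 2 := by
      rw [show (4 : ℝ) = 2 ^ 2 by norm_num]
      exact Real.sqrt_sq (by norm_num)
    rw [this, Finset.prod_const, Finset.card_univ, inv_pow]
    push_cast
    rfl
  have e4 : LP l (fun i => (z i : ℂ)) = 2 ^ l.length * LP l (fun i => 2 * (z i : ℂ) / (b i : ℂ)) := by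
    rw [← LP_smul]
    congr 1
    funext i
    simp only [hb]
    push_cast
    ring
  have e5 : ((Real.exp (-(2 * Real.pi * nsq z)) : ℝ) : ℂ) *
      cexp (Real.pi * ∑ i, (2 * (z i : ℂ)) ^ 2 / (b i : ℂ)) = ((Real.exp (-(Real.pi * nsq z)) : ℝ) : ℂ) := by
    unfold nsq
    rw [Complex.ofReal_exp, Complex.ofReal_exp, ← Complex.exp_add]
    congr 1
    push_cast
    simp only [Finset.mul_sum, ← Finset.sum_neg_distrib, ← Finset.sum_add_distrib]
    refine Finset.sum_congr rfl fun i _ => ?_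
    simp only [hb]
    push_cast
    ring
  unfold WL
  rw [e3, e4, ← e5]
  have h2 : (2 : ℂ) ^ (Fintype.card ι) ≠ 0 := pow_ne_zero _ two_ne_zero
  field_simp

variable [DecidableEq ι]

/-- **sums with weights `WL`** -/
theorem WL_sum_le {l : List (ι → ℂ)} (hl : Orth l) {B : Matrix ι ι ℝ} (hB : B.det ≠ 0)
    {c : (ι → ℤ) → ℂ} (hc : ∀ x, ‖c x‖ ≤ 1) {X : ℝ} (hX : ∀ u, ‖ES B 2 u c‖ ≤ X) (v : ι → ℝ) :
    ‖∑' x : ι → ℤ, c x * WL l (v + B *ᵥ rc x)‖ ≤ CH l * X := by
  have hX0 : 0 ≤ X := (norm_nonneg _).trans (hX 0)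
  set f : (ι → ℤ) → (ι → ℝ) → ℂ := fun x u =>
    HL l u * (c x * ((gw B 2 (u - v) x : ℝ) : ℂ)) with hf
  have h1 : ∀ x, c x * WL l (v + B *ᵥ rc x) = ∫ u, f x u := by
    intro x
    rw [← WL_conv hl, ← integral_const_mul]
    congr 1
    funext u
    simp only [hf]
    unfold gw gz
    have e1 : v + B *ᵥ rc x - u = B *ᵥ rc x - (u - v) := by
      funext i
      simp only [Pi.add_apply, Pi.sub_apply]
      ring
    rw [e1]
    push_cast
    ring
  simp_rw [h1]
  have hgc : ∀ x : ι → ℤ, Continuous fun u : ι → ℝ => gw B 2 (u - v) x := by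
    intro x
    unfold gw gz nsq
    fun_prop
  have hmeas : ∀ x, AEStronglyMeasurable (f x) volume := by
    intro x
    refine Continuous.aestronglyMeasurable ?_
    exact (continuous_HL l).mul (continuous_const.mul (Complex.continuous_ofReal.comp (hgc x)))
  have hfin : ∑' x, ∫⁻ u, ‖f x u‖ₑ ≠ ⊤ := by
    rw [← lintegral_tsum fun x => (hmeas x).enorm]
    have h2 : ∀ u : ι → ℝ, ∑' x, ‖f x u‖ₑ ≤ ENNReal.ofReal (th0 B 2) * ENNReal.ofReal (HB l u) := by
      intro u
      calc ∑' x, ‖f x u‖ₑ ≤ ∑' x, ENNReal.ofReal (HB l u) * ENNReal.ofReal (gw B 2 (u - v) x) := by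
            refine ENNReal.tsum_le_tsum fun x => ?_
            simp only [hf]
            rw [enorm_mul, enorm_mul, ← ofReal_norm, ← ofReal_norm (c x),
              ← ofReal_norm (((gw B 2 (u - v) x : ℝ) : ℂ)),
              Complex.norm_real, Real.norm_of_nonneg (gw_pos _ _ _ _).le]
            have h3 : ENNReal.ofReal ‖c x‖ ≤ 1 := by
              rw [← ENNReal.ofReal_one]
              exact ENNReal.ofReal_le_ofReal (hc x)
            calc _ ≤ ENNReal.ofReal (HB l u) * (1 * ENNReal.ofReal (gw B 2 (u - v) x)) := by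
                  gcongr
                  exact norm_HL_le l u
              _ = _ := by rw [one_mul]
        _ = ENNReal.ofReal (HB l u) * ENNReal.ofReal (∑' x, gw B 2 (u - v) x) := by
            rw [ENNReal.tsum_mul_left, ENNReal.ofReal_tsum_of_nonneg
              (fun x => (gw_pos _ _ _ _).le) (summable_gw hB two_pos (u - v))]
        _ ≤ _ := by
            rw [mul_comm]
            gcongr
            exact tsum_gw_le hB two_pos (u - v)
    refine ne_top_of_le_ne_top ?_ (lintegral_mono h2)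
    rw [lintegral_const_mul' _ _ ENNReal.ofReal_ne_top]
    refine ENNReal.mul_ne_top ENNReal.ofReal_ne_top ?_
    rw [← ofReal_integral_eq_lintegral_ofReal (integrable_HB l)
      (Filter.Eventually.of_forall fun u => HB_nonneg l u)]
    exact ENNReal.ofReal_ne_top
  rw [← integral_tsum hmeas hfin]
  have h5 : ∀ u, ∑' x, f x u = HL l u * ES B 2 (u - v) c := by
    intro u
    simp only [hf]
    rw [tsum_mul_left]
    rfl
  simp_rw [h5]
  have h6 : ∀ u : ι → ℝ, ‖HL l u * ES B 2 (u - v) c‖ ≤ HB l u * X := by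
    intro u
    rw [norm_mul]
    exact mul_le_mul (norm_HL_le l u) (hX _) (norm_nonneg _) (HB_nonneg l u)
  refine (norm_integral_le_of_norm_le ((integrable_HB l).mul_const X)
    (Filter.Eventually.of_forall h6)).trans (le_of_eq ?_)
  rw [integral_mul_const, integral_HB]

/-- the trivial bound -/
theorem WL_sum_triv (l : List (ι → ℂ)) {B : Matrix ι ι ℝ} (hB : B.det ≠ 0)
    {c : (ι → ℤ) → ℂ} (hc : ∀ x, ‖c x‖ ≤ 1) (hc0 : c 0 = 0) :
    ‖∑' x : ι → ℤ, c x * WL l (B *ᵥ rc x)‖ ≤ CW l * th1 B (1 / 2) := by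
  unfold th1
  rw [← tsum_mul_left]
  refine tsum_of_norm_bounded ((summable_th1 hB (by norm_num)).mul_left (CW l)).hasSum fun x => ?_
  split_ifs with hx
  · rw [hx, hc0, zero_mul, norm_zero, mul_zero]
  · rw [norm_mul]
    calc _ ≤ 1 * (CW l * Real.exp (-2 * nsq (B *ᵥ rc x))) :=
          mul_le_mul (hc x) (norm_WL_le l _) (norm_nonneg _) zero_le_one
      _ ≤ _ := by
          rw [one_mul]
          refine mul_le_mul_of_nonneg_left ?_ (CW_nonneg l)
          unfold gw gz nsq
          refine Real.exp_le_exp.2 ?_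
          rw [sub_zero]
          have h1 : 0 ≤ ∑ w, (B *ᵥ rc x) w ^ 2 := Finset.sum_nonneg fun _ _ => sq_nonneg _
          have h2 := Real.pi_lt_four
          nlinarith

end Pool.Agent.J4H31.U
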