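import Pool.Agent.J4H31.U.U2
import Pool.Agent.Y773.HG.Unf2

/-!
The weights at the infinite places of a number field of arbitrary signature.
-/

set_option autoImplicit false
set_option linter.unusedSectionVars false

open NumberField Complex Filter Topology MeasureTheory
open Pool.Agent.Y773 (Idx db g0 G0)
open Pool.Agent.Y773.G (cj cj_cj cj_apply mk_cj prod_emb sum_emb rr rr_zero sum_rr_sq av sum_cj)

namespace Pool.Agent.J4H31.U

variable {K : Type} [Field K] [NumberField K]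

/-- a choice of an embedding for each place -/
def Sel (σ : InfinitePlace K → (K →+* ℂ)) : Prop := ∀ w, InfinitePlace.mk (σ w) = w

/-- the other choice -/
noncomputable def sc (σ : InfinitePlace K → (K →+* ℂ)) : InfinitePlace K → (K →+* ℂ) :=
  fun w => cj (σ w)

lemma Sel.sc {σ : InfinitePlace K → (K →+* ℂ)} (h : Sel σ) : Sel (sc σ) := fun w => by
  unfold U.sc
  rw [mk_cj, h w]

lemma sc_sc (σ : InfinitePlace K → (K →+* ℂ)) : sc (sc σ) = σ := by
  funext w
  unfold sc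
  rw [cj_cj]

/-- admissible exponents -/
def Ex (e : InfinitePlace K → ℕ) : Prop := ∀ w : InfinitePlace K, w.IsReal → e w ≤ 1

lemma Sel.norm {σ : InfinitePlace K → (K →+* ℂ)} (h : Sel σ) (w : InfinitePlace K) (x : K) :
    ‖σ w x‖ = w x := by
  conv_rhs => rw [← h w]
  rfl

lemma Sel.real {σ : InfinitePlace K → (K →+* ℂ)} (h : Sel σ) {w : InfinitePlace K}
    (hw : w.IsReal) : cj (σ w) = σ w := by
  have h1 : ComplexEmbedding.IsReal (σ w) := InfinitePlace.isReal_of_mk_isReal (by rw [h w]; exact hw)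
  exact h1

lemma Sel.cpx {σ : InfinitePlace K → (K →+* ℂ)} (h : Sel σ) {w : InfinitePlace K}
    (hw : ¬ w.IsReal) : cj (σ w) ≠ σ w := by
  intro h1
  apply hw
  rw [← h w]
  exact ⟨σ w, h1, rfl⟩

open Classical in
/-- the linear form of a place -/
noncomputable def fm (σ : InfinitePlace K → (K →+* ℂ)) (w : InfinitePlace K) : (K →+* ℂ) → ℂ :=
  fun φ => ((Real.sqrt (w.mult : ℝ) : ℝ) : ℂ) *
    ((if φ = σ w then (1 + I) / 2 else 0) + (if φ = cj (σ w) then (1 - I) / 2 else 0))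

lemma lf_fm (σ : InfinitePlace K → (K →+* ℂ)) (w : InfinitePlace K) (u : (K →+* ℂ) → ℂ) :
    lf (fm σ w) u = ((Real.sqrt (w.mult : ℝ) : ℝ) : ℂ) *
      ((1 + I) / 2 * u (σ w) + (1 - I) / 2 * u (cj (σ w))) := by
  classical
  unfold lf fm
  simp only [mul_assoc, add_mul, ite_mul, zero_mul]
  rw [← Finset.mul_sum, Finset.sum_add_distrib, Finset.sum_ite_eq' Finset.univ (σ w),
    Finset.sum_ite_eq' Finset.univ (cj (σ w))]
  simp

/-- the list of the linear forms -/
noncomputable def ls (σ : InfinitePlace K → (K →+* ℂ)) (e : InfinitePlace K → ℕ) :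
    List ((K →+* ℂ) → ℂ) :=
  (Finset.univ : Finset (InfinitePlace K)).toList.flatMap fun w => List.replicate (e w) (fm σ w)

lemma length_ls (σ : InfinitePlace K → (K →+* ℂ)) (e : InfinitePlace K → ℕ) :
    (ls σ e).length = ∑ w, e w := by
  unfold ls
  rw [List.length_flatMap]
  simp only [List.length_replicate]
  exact Finset.sum_map_toList _ _

lemma prod_flat {α : Type} (l : List α) (f : α → List ℂ) :
    (l.flatMap f).prod = (l.map fun a => (f a).prod).prod := by
  induction l with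
  | nil => simp
  | cons a l ih => simp [ih]

lemma LP_ls (σ : InfinitePlace K → (K →+* ℂ)) (e : InfinitePlace K → ℕ) (u : (K →+* ℂ) → ℂ) :
    LP (ls σ e) u = ∏ w, (lf (fm σ w) u) ^ (e w) := by
  unfold LP ls
  rw [List.map_flatMap, prod_flat]
  simp only [List.map_replicate, List.prod_replicate]
  exact Finset.prod_map_toList _ _

lemma fm_self {σ : InfinitePlace K → (K →+* ℂ)} (h : Sel σ) {w : InfinitePlace K}
    (hw : ¬ w.IsReal) : ∑ φ, fm σ w φ * fm σ w φ = 0 := by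
  classical
  have h1 : ∑ φ, fm σ w φ * fm σ w φ = lf (fm σ w) (fm σ w) := rfl
  rw [h1, lf_fm]
  have hne := h.cpx hw
  unfold fm
  rw [if_pos rfl, if_neg hne.symm, if_neg hne, if_pos rfl]
  have hI : I ^ 2 = -1 := Complex.I_sq
  have : (1 + I) / 2 * (((Real.sqrt (w.mult : ℝ) : ℝ) : ℂ) * ((1 + I) / 2 + 0)) +
      (1 - I) / 2 * (((Real.sqrt (w.mult : ℝ) : ℝ) : ℂ) * (0 + (1 - I) / 2)) =
      ((Real.sqrt (w.mult : ℝ) : ℝ) : ℂ) * ((1 + I ^ 2) / 2) := by ring
  rw [this, hI]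
  ring

lemma fm_ne {σ : InfinitePlace K → (K →+* ℂ)} (h : Sel σ) {w w' : InfinitePlace K}
    (hw : w ≠ w') : ∑ φ, fm σ w' φ * fm σ w φ = 0 := by
  classical
  refine Finset.sum_eq_zero fun φ _ => ?_
  unfold fm
  have hφ : ∀ w : InfinitePlace K, InfinitePlace.mk φ ≠ w → φ ≠ σ w ∧ φ ≠ cj (σ w) := by
    intro w hne
    refine ⟨fun h1 => hne ?_, fun h1 => hne ?_⟩
    · rw [h1, h w]
    · rw [h1, mk_cj, h w]
  by_cases hc : InfinitePlace.mk φ = w
  · have h2 : InfinitePlace.mk φ ≠ w' := fun h3 => hw (hc.symm.trans h3)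
    obtain ⟨h3, h4⟩ := hφ w' h2
    rw [if_neg h3, if_neg h4, add_zero, mul_zero, zero_mul]
  · obtain ⟨h3, h4⟩ := hφ w hc
    rw [if_neg h3, if_neg h4, add_zero, mul_zero, mul_zero]

lemma orth_ls {σ : InfinitePlace K → (K →+* ℂ)} (h : Sel σ) {e : InfinitePlace K → ℕ} (he : Ex e) :
    Orth (ls σ e) := by
  unfold Orth ls
  rw [List.pairwise_flatMap]
  refine ⟨fun w _ => ?_, ?_⟩
  · rw [List.pairwise_replicate]
    by_cases hw : w.IsReal
    · exact Or.inl (he w hw)
    · exact Or.inr (fm_self h hw)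
  · have hnd : (Finset.univ : Finset (InfinitePlace K)).toList.Nodup := Finset.nodup_toList _
    refine hnd.imp fun {w w'} hne => ?_
    intro α hα β hβ
    rw [List.mem_replicate] at hα hβ
    rw [hα.2, hβ.2]
    exact fm_ne h hne

/-! ### the angular part -/

/-- the angular part `∏ (σ_w(x) / |x|_w) ^ (e_w)` -/
noncomputable def us (σ : InfinitePlace K → (K →+* ℂ)) (e : InfinitePlace K → ℕ) (x : K) : ℂ :=
  ∏ w : InfinitePlace K, (σ w x / ((w x : ℝ) : ℂ)) ^ (e w)

lemma us_mul (σ : InfinitePlace K → (K →+* ℂ)) (e : InfinitePlace K → ℕ) (x y : K) :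
    us σ e (x * y) = us σ e x * us σ e y := by
  unfold us
  rw [← Finset.prod_mul_distrib]
  refine Finset.prod_congr rfl fun w _ => ?_
  rw [← mul_pow, map_mul, map_mul]
  congr 1
  push_cast
  exact mul_div_mul_comm _ _ _ _

lemma place_ne (w : InfinitePlace K) {x : K} (hx : x ≠ 0) : w x ≠ 0 := by
  rw [Ne, map_eq_zero]
  exact hx

lemma norm_us {σ : InfinitePlace K → (K →+* ℂ)} (h : Sel σ) (e : InfinitePlace K → ℕ) {x : K}
    (hx : x ≠ 0) : ‖us σ e x‖ = 1 := by
  unfold us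
  rw [norm_prod]
  refine Finset.prod_eq_one fun w _ => ?_
  rw [norm_pow, norm_div, h.norm, Complex.norm_real, Real.norm_of_nonneg (apply_nonneg w x),
    div_self (place_ne w hx), one_pow]

lemma norm_us_le {σ : InfinitePlace K → (K →+* ℂ)} (h : Sel σ) (e : InfinitePlace K → ℕ) (x : K) :
    ‖us σ e x‖ ≤ 1 := by
  unfold us
  rw [norm_prod]
  refine Finset.prod_le_one (fun _ _ => norm_nonneg _) fun w _ => ?_
  rw [norm_pow, norm_div, h.norm, Complex.norm_real, Real.norm_of_nonneg (apply_nonneg w x)]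
  exact pow_le_one₀ (by positivity) (div_self_le_one _)

lemma us_nat (σ : InfinitePlace K → (K →+* ℂ)) (e : InfinitePlace K → ℕ) {k : ℕ} (hk : 0 < k) :
    us σ e (k : K) = 1 := by
  unfold us
  refine Finset.prod_eq_one fun w _ => ?_
  have h1 : (k : ℂ) ≠ 0 := by exact_mod_cast hk.ne'
  rw [map_natCast, InfinitePlace.map_natCast]
  push_cast
  rw [div_self h1, one_pow]

lemma us_sc (σ : InfinitePlace K → (K →+* ℂ)) (e : InfinitePlace K → ℕ) (x : K) :
    us (sc σ) e x = (starRingEnd ℂ) (us σ e x) := by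
  unfold us sc
  rw [map_prod]
  refine Finset.prod_congr rfl fun w _ => ?_
  rw [map_pow, map_div₀, Complex.conj_ofReal, cj_apply]

/-! ### the weights -/

/-- the weight -/
noncomputable def GX (σ : InfinitePlace K → (K →+* ℂ)) (e : InfinitePlace K → ℕ)
    (a : InfinitePlace K → ℝ) (x : K) : ℂ :=
  WL (ls σ e) (fun φ => a (InfinitePlace.mk φ) * rr φ x)

/-- normalised absolute values -/
noncomputable def avK (x : K) (w : InfinitePlace K) : ℝ := Real.sqrt (w.mult : ℝ) * w x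

lemma lf_rr {σ : InfinitePlace K → (K →+* ℂ)} (h : Sel σ) (w : InfinitePlace K)
    (a : InfinitePlace K → ℝ) (x : K) :
    lf (fm σ w) (fun φ => ((a (InfinitePlace.mk φ) * rr φ x : ℝ) : ℂ)) =
      ((Real.sqrt (w.mult : ℝ) : ℝ) : ℂ) * (a w * σ w x) := by
  rw [lf_fm, mk_cj, h w]
  congr 1
  have hre : rr (σ w) x = (σ w x).re + (σ w x).im := rfl
  have hre2 : rr (cj (σ w)) x = (σ w x).re - (σ w x).im := by
    unfold rr
    rw [cj_apply, Complex.conj_re, Complex.conj_im]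
    ring
  rw [hre, hre2]
  have h1 : (σ w x : ℂ) = ((σ w x).re : ℂ) + ((σ w x).im : ℂ) * I := (Complex.re_add_im _).symm
  conv_rhs => rw [h1]
  push_cast
  have hI : I ^ 2 = -1 := Complex.I_sq
  linear_combination 0 * hI

lemma GX_eq {σ : InfinitePlace K → (K →+* ℂ)} (h : Sel σ) (e : InfinitePlace K → ℕ)
    (a : InfinitePlace K → ℝ) (x : K) :
    GX σ e a x = us σ e x * ((G0 e (fun w => a w * avK x w) : ℝ) : ℂ) := by
  unfold GX WL G0 g0 us
  rw [LP_ls, Complex.ofReal_prod, ← Finset.prod_mul_distrib]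
  have e1 : nsq (fun φ : K →+* ℂ => a (InfinitePlace.mk φ) * rr φ x) =
      ∑ w : InfinitePlace K, (a w * avK x w) ^ 2 := by
    unfold nsq avK
    have h1 := sum_rr_sq (fun w => a w ^ 2) x
    have h2 : ∀ φ : K →+* ℂ, (a (InfinitePlace.mk φ) * rr φ x) ^ 2 =
        a (InfinitePlace.mk φ) ^ 2 * rr φ x ^ 2 := fun φ => by ring
    simp_rw [h2]
    rw [h1]
    refine Finset.sum_congr rfl fun w _ => ?_
    have h3 : (Real.sqrt (w.mult : ℝ)) ^ 2 = w.mult := Real.sq_sqrt (Nat.cast_nonneg _)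
    calc (w.mult : ℝ) * (a w ^ 2 * w x ^ 2) = (Real.sqrt (w.mult : ℝ)) ^ 2 * (a w ^ 2 * w x ^ 2) := by
          rw [h3]
      _ = _ := by ring
  rw [e1, Finset.mul_sum, ← Finset.sum_neg_distrib, Real.exp_sum, Complex.ofReal_prod,
    ← Finset.prod_mul_distrib]
  refine Finset.prod_congr rfl fun w _ => ?_
  rw [lf_rr h]
  have h4 : σ w x = σ w x / ((w x : ℝ) : ℂ) * ((w x : ℝ) : ℂ) := by
    by_cases hx : x = 0
    · rw [hx, map_zero, zero_div, zero_mul]
    · have : ((w x : ℝ) : ℂ) ≠ 0 := by exact_mod_cast place_ne w hx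
      rw [div_mul_cancel₀ _ this]
  have h5 : ((Real.sqrt (w.mult : ℝ) : ℝ) : ℂ) * (a w * σ w x) =
      σ w x / ((w x : ℝ) : ℂ) * ((a w * avK x w : ℝ) : ℂ) := by
    conv_lhs => rw [h4]
    unfold avK
    push_cast
    ring
  rw [h5, mul_pow]
  push_cast
  rw [neg_mul]
  ring

lemma GX_mul {σ : InfinitePlace K → (K →+* ℂ)} (h : Sel σ) (e : InfinitePlace K → ℕ)
    (a : InfinitePlace K → ℝ) (u x : K) :
    GX σ e a (u * x) = us σ e u * GX σ e (fun w => a w * w u) x := by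
  rw [GX_eq h, GX_eq h, us_mul, mul_assoc]
  congr 3
  congr 1
  funext w
  unfold avK
  rw [map_mul]
  ring

lemma norm_GX_le (σ : InfinitePlace K → (K →+* ℂ)) (e : InfinitePlace K → ℕ)
    (a : InfinitePlace K → ℝ) (x : K) :
    ‖GX σ e a x‖ ≤ CW (ls σ e) *
      Real.exp (-2 * ∑ φ : K →+* ℂ, (a (InfinitePlace.mk φ) * rr φ x) ^ 2) :=
  norm_WL_le _ _

/-- the conjugate coordinates -/
lemma WL_cj (σ : InfinitePlace K → (K →+* ℂ)) (e : InfinitePlace K → ℕ) (u : (K →+* ℂ) → ℝ) :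
    WL (ls σ e) (fun φ => u (cj φ)) = WL (ls (sc σ) e) u := by
  unfold WL
  rw [LP_ls, LP_ls]
  congr 1
  · refine Finset.prod_congr rfl fun w _ => ?_
    rw [lf_fm, lf_fm]
    unfold sc
    rfl
  · congr 3
    congr 1
    unfold nsq
    exact sum_cj fun φ => u φ ^ 2

end Pool.Agent.J4H31.U
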