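import Pool.Agent.J4H31.U.U4
import Pool.Agent.Y773.HG.Cty

/-!
Continuity and decay of the theta series (after `Pool.Agent.Y773.HG.Cty`).
-/

set_option autoImplicit false
set_option linter.unusedSectionVars false

open NumberField Complex Filter Topology MeasureTheory Set
open NumberField.Units NumberField.Units.dirichletUnitTheorem
open Pool.Agent.Y773 (el)
open Pool.Agent.Y773.G (rr summable_gauss one_le_sumsq C0 C0_nonneg)

namespace Pool.Agent.J4H31.U

variable {K : Type} [Field K] [NumberField K]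

lemma norm_term_le (σ : InfinitePlace K → (K →+* ℂ)) (e : InfinitePlace K → ℕ)
    {y : InfinitePlace K → ℝ} {c : ℝ} (hc : ∀ w, c ≤ y w) (x : K) :
    ‖GX σ e (fun w => Real.exp (y w / 2)) x‖ ≤
      CW (ls σ e) * Real.exp (-(2 * Real.exp c) * ∑ φ : K →+* ℂ, (rr φ x) ^ 2) := by
  refine (norm_GX_le σ e _ x).trans (mul_le_mul_of_nonneg_left (Real.exp_le_exp.mpr ?_) (CW_nonneg _))
  have h1 : Real.exp c * ∑ φ : K →+* ℂ, (rr φ x) ^ 2 ≤
      ∑ φ : K →+* ℂ, (Real.exp (y (InfinitePlace.mk φ) / 2) * rr φ x) ^ 2 := by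
    rw [Finset.mul_sum]
    refine Finset.sum_le_sum fun w _ => ?_
    rw [mul_pow, ← Real.exp_nat_mul]
    have h2 : ((2 : ℕ) : ℝ) * (y (InfinitePlace.mk w) / 2) = y (InfinitePlace.mk w) := by
      push_cast; ring
    rw [h2]
    exact mul_le_mul_of_nonneg_right (Real.exp_le_exp.mpr (hc _)) (sq_nonneg _)
  nlinarith

lemma continuous_tt (σ : InfinitePlace K → (K →+* ℂ)) (e : InfinitePlace K → ℕ) {Ψ : 𝓞 K → ℂ}
    {B : ℝ} (hΨ : ∀ x, ‖Ψ x‖ ≤ B) : Continuous (tt σ e Ψ) := by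
  rw [continuous_iff_continuousAt]
  intro y0
  have hB : 0 ≤ B := (norm_nonneg _).trans (hΨ 0)
  set R : ℝ := ‖y0‖ + 1 with hR
  have h1 : ContinuousOn (tt σ e Ψ) (Metric.ball 0 R) := by
    unfold tt
    refine continuousOn_tsum (u := fun x : 𝓞 K => B * (CW (ls σ e) * Real.exp (-(2 * Real.exp (-R)) *
      ∑ φ : K →+* ℂ, (rr φ (x : K)) ^ 2))) (fun x => ?_)
      (((summable_gauss (by have := Real.exp_pos (-R); positivity)).mul_left _).mul_left B) ?_
    · refine (Continuous.continuousOn ?_)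
      refine continuous_const.mul ?_
      unfold GX
      refine (continuous_WL _).comp ?_
      fun_prop
    · intro x y hy
      rw [norm_mul]
      refine mul_le_mul (hΨ x) (norm_term_le σ e (fun w => ?_) _) (norm_nonneg _) hB
      have h2 : ‖y‖ < R := by simpa using hy
      have h3 : |y w| ≤ ‖y‖ := norm_le_pi_norm y w
      have h4 := neg_abs_le (y w)
      linarith
  exact h1.continuousAt (Metric.isOpen_ball.mem_nhds (by simp [hR]))

lemma norm_tt_le (σ : InfinitePlace K → (K →+* ℂ)) (e : InfinitePlace K → ℕ) {Ψ : 𝓞 K → ℂ} {B : ℝ}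
    (hΨ : ∀ x, ‖Ψ x‖ ≤ B) (h0 : Ψ 0 = 0) {y : InfinitePlace K → ℝ} {c : ℝ} (hc0 : 0 ≤ c)
    (hc : ∀ w, c ≤ y w) : ‖tt σ e Ψ y‖ ≤ B * CW (ls σ e) * C0 K * Real.exp (-Real.exp c) := by
  have hB : 0 ≤ B := (norm_nonneg _).trans (hΨ 0)
  have hCW := CW_nonneg (ls σ e)
  have h1 : ∀ x : 𝓞 K, ‖Ψ x * GX σ e (fun w => Real.exp (y w / 2)) (x : K)‖ ≤
      B * CW (ls σ e) * Real.exp (-Real.exp c) * Real.exp (-1 * ∑ φ : K →+* ℂ, (rr φ (x : K)) ^ 2) := by
    intro x
    rcases eq_or_ne x 0 with rfl | hx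
    · rw [h0, zero_mul, norm_zero]
      positivity
    · rw [norm_mul, mul_assoc, mul_assoc]
      refine mul_le_mul (hΨ x) ((norm_term_le σ e hc _).trans ?_) (norm_nonneg _) hB
      refine mul_le_mul_of_nonneg_left ?_ hCW
      rw [← Real.exp_add]
      apply Real.exp_le_exp.mpr
      have h2 := one_le_sumsq hx
      have h3 := Real.one_le_exp hc0
      nlinarith [mul_le_mul h3 h2 (by norm_num) (by positivity)]
  have hs : Summable fun x : 𝓞 K => B * CW (ls σ e) * Real.exp (-Real.exp c) *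
      Real.exp (-1 * ∑ φ : K →+* ℂ, (rr φ (x : K)) ^ 2) := (summable_gauss one_pos).mul_left _
  unfold tt
  refine (norm_tsum_le_tsum_norm (Summable.of_nonneg_of_le (fun _ => norm_nonneg _) h1 hs)).trans ?_
  refine (Summable.tsum_le_tsum h1 (Summable.of_nonneg_of_le (fun _ => norm_nonneg _) h1 hs) hs).trans ?_
  rw [tsum_mul_left]
  unfold C0
  apply le_of_eq
  ring

end Pool.Agent.J4H31.U
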