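import Pool.Agent.J4H31.U.U5
import Pool.Agent.Y773.HG.Unf3
import Pool.Agent.Y767.HC.Unf2n

/-!
Unfolding with arbitrary exponents and an infinity type `ν` (after `Pool.Agent.Y773.HG.Unf3` and
`Pool.Agent.Y767.HC.Unf3n`).
-/

set_option autoImplicit false
set_option linter.unusedSectionVars false

open NumberField Complex Filter Topology MeasureTheory Set
open NumberField.Units NumberField.Units.dirichletUnitTheorem
open Pool.Agent.Y773 (PP S0 Fx PIdl gen span_gen gen_ne_zero toP xE unE lp unfold_P el)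
open Pool.Agent.Y773 (isHaar_PP exists_vol_gen local_int place_unE g0 G0)
open Pool.Agent.Y773.G hiding unfold_J unf
open Pool.Agent.Y767 (ax ph norm_ph norm_ax)

namespace Pool.Agent.J4H31.U

variable {K : Type} [Field K] [NumberField K]

/-- the gamma factors -/
noncomputable def GK (e : InfinitePlace K → ℕ) (ν : InfinitePlace K → ℝ) (s : ℂ) : ℂ :=
  (∏ w : InfinitePlace K,
    (((Real.sqrt (w.mult : ℝ) : ℝ) : ℂ)) ^ (-((w.mult : ℂ) * s - I * ν w))) *
    ∏ w : InfinitePlace K, Complex.Gammaℝ ((w.mult : ℂ) * s - I * ν w + e w)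

/-- the integrand -/
noncomputable def Fv (e : InfinitePlace K → ℕ) (ν : InfinitePlace K → ℝ) (s : ℂ) (x : 𝓞 K)
    (p : PP K) : ℂ :=
  Fx e s (av x) p *
    cexp (-(I * ((∑ w, ν w * (el K p w / 2 + Real.log (w (x : K))) : ℝ) : ℂ)))

lemma norm_Fv (e : InfinitePlace K → ℕ) (ν : InfinitePlace K → ℝ) (s : ℂ) (x : 𝓞 K)
    (p : PP K) : ‖Fv e ν s x p‖ = ‖Fx e s (av x) p‖ := by
  unfold Fv
  rw [norm_mul]
  have : ‖cexp (-(I * ((∑ w, ν w * (el K p w / 2 + Real.log (w (x : K))) : ℝ) : ℂ)))‖ = 1 := by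
    rw [← mul_neg, ← Complex.ofReal_neg, mul_comm, Complex.norm_exp_ofReal_mul_I]
  rw [this, mul_one]

lemma Fv_zero (e : InfinitePlace K → ℕ) (s : ℂ) (x : 𝓞 K) :
    Fv e (fun _ => 0) s x = Fx e s (av x) := by
  funext p
  unfold Fv
  simp

/-- the local phase -/
lemma loc_phase (w : InfinitePlace K) {a : ℝ} (ha : 0 < a) (ν : ℝ) (s : ℂ) :
    cexp (-(I * (ν * Real.log a : ℝ))) *
      ((Real.sqrt (w.mult : ℝ) * a : ℝ) : ℂ) ^ (-((w.mult : ℂ) * s - I * ν)) =
    ((Real.sqrt (w.mult : ℝ) * a : ℝ) : ℂ) ^ (-((w.mult : ℂ) * s)) *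
      (((Real.sqrt (w.mult : ℝ) : ℝ) : ℂ)) ^ (I * ν) := by
  have h1 := sqrt_mult_pos w
  have h2 : 0 < Real.sqrt (w.mult : ℝ) * a := mul_pos h1 ha
  rw [Complex.cpow_def_of_ne_zero (by exact_mod_cast h2.ne'),
    Complex.cpow_def_of_ne_zero (by exact_mod_cast h2.ne'),
    Complex.cpow_def_of_ne_zero (by exact_mod_cast h1.ne'), ← Complex.exp_add, ← Complex.exp_add,
    ← Complex.ofReal_log h2.le, ← Complex.ofReal_log h1.le, Real.log_mul h1.ne' ha.ne']
  congr 1
  push_cast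
  ring

/-- the total integral of an integer -/
lemma int_Fv (K : Type) [Field K] [NumberField K] : ∃ c : ℝ, 0 < c ∧
    ∀ (e : InfinitePlace K → ℕ) (ν : InfinitePlace K → ℝ) (s : ℂ), 0 < s.re →
      ∀ x : 𝓞 K, x ≠ 0 →
      Integrable (Fv e ν s x) ∧
      ∫ p, Fv e ν s x p = c * (((Ideal.absNorm (Ideal.span {x}) : ℕ) : ℂ) ^ (-s) * GK e ν s) := by
  have := isHaar_PP K
  obtain ⟨c, hc, h1, -, h3⟩ := exists_vol_gen (volume : Measure (PP K))
    (volume : Measure (InfinitePlace K → ℝ)) (elE K)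
  refine ⟨c, hc, fun e ν s hs x hx => ?_⟩
  have hs' : ∀ w : InfinitePlace K, 0 < ((w.mult : ℂ) * s - I * ν w).re := by
    intro w
    have h4 : ((w.mult : ℂ) * s - I * ν w).re = (w.mult : ℝ) * s.re := by simp
    rw [h4]
    have : (0 : ℝ) < w.mult := by exact_mod_cast w.mult_pos
    positivity
  have hb := av_pos hx
  have hwx : ∀ w : InfinitePlace K, 0 < w (x : K) := fun w => by
    rw [InfinitePlace.pos_iff]
    exact RingOfIntegers.coe_ne_zero_iff.mpr hx
  set f : (InfinitePlace K → ℝ) → ℂ := fun y =>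
    ∏ w, (cexp (-(I * (ν w * Real.log (w (x : K)) : ℝ))) *
      (((g0 (e w) (Real.exp (y w / 2) * av x w) : ℝ) : ℂ) *
        cexp (((w.mult : ℂ) * s - I * ν w) * y w / 2))) with hf
  have hF : Fv e ν s x = fun p => f (elE K p) := by
    funext p
    simp only [hf, Fv, Fx]
    rw [Finset.prod_mul_distrib, Finset.prod_mul_distrib, ← Complex.exp_sum, ← Complex.exp_sum,
      elE_apply]
    have h4 := sum_el K p
    have h5 : (∑ w : InfinitePlace K, ((w.mult : ℂ) * (el K p w : ℂ))) =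
        ((Module.finrank ℚ K * p.1 : ℝ) : ℂ) := by
      rw [← h4]
      push_cast
      rfl
    have hG : ((G0 e (fun w => Real.exp (el K p w / 2) * av x w) : ℝ) : ℂ) =
        ∏ w, ((g0 (e w) (Real.exp (el K p w / 2) * av x w) : ℝ) : ℂ) := by
      unfold G0
      push_cast
      rfl
    rw [hG]
    have h6 : cexp (Module.finrank ℚ K * s * p.1 / 2) *
        cexp (-(I * ((∑ w, ν w * (el K p w / 2 + Real.log (w (x : K))) : ℝ) : ℂ))) =
        cexp (∑ w : InfinitePlace K, -(I * ((ν w * Real.log (w (x : K)) : ℝ) : ℂ))) *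
          cexp (∑ w : InfinitePlace K, ((w.mult : ℂ) * s - I * ν w) * (el K p w) / 2) := by
      rw [← Complex.exp_add, ← Complex.exp_add]
      congr 1
      have e1 : (∑ w : InfinitePlace K, ((w.mult : ℂ) * s - I * ν w) * (el K p w : ℂ) / 2) =
          s * (∑ w : InfinitePlace K, ((w.mult : ℂ) * (el K p w : ℂ))) / 2 -
            I * ∑ w : InfinitePlace K, (ν w : ℂ) * (el K p w / 2) := by
        rw [Finset.mul_sum, Finset.mul_sum, Finset.sum_div, ← Finset.sum_sub_distrib]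
        exact Finset.sum_congr rfl fun w _ => by ring
      rw [e1, h5]
      push_cast
      rw [Finset.sum_neg_distrib, ← Finset.mul_sum]
      have e2 : ∑ w : InfinitePlace K, (ν w : ℂ) * ((el K p w : ℂ) / 2 +
          (Real.log (w (x : K)) : ℂ)) =
          ∑ w : InfinitePlace K, (ν w : ℂ) * (el K p w / 2) +
            ∑ w : InfinitePlace K, (ν w : ℂ) * (Real.log (w (x : K)) : ℂ) := by
        rw [← Finset.sum_add_distrib]
        exact Finset.sum_congr rfl fun w _ => by ring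
      rw [e2]
      ring
    rw [mul_assoc, h6]
    ring
  have hint : Integrable f := by
    apply Integrable.fintype_prod (f := fun (w : InfinitePlace K) (v : ℝ) =>
      cexp (-(I * (ν w * Real.log (w (x : K)) : ℝ))) *
      (((g0 (e w) (Real.exp (v / 2) * av x w) : ℝ) : ℂ) *
        cexp (((w.mult : ℂ) * s - I * ν w) * v / 2)))
    intro w
    exact (local_int (hs' w) (hb w)).1.const_mul _
  rw [hF]
  refine ⟨h3 f hint, ?_⟩
  rw [h1 f, hf, integral_fintype_prod_volume_eq_prod (fun (w : InfinitePlace K) (v : ℝ) =>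
      cexp (-(I * (ν w * Real.log (w (x : K)) : ℝ))) *
      (((g0 (e w) (Real.exp (v / 2) * av x w) : ℝ) : ℂ) *
        cexp (((w.mult : ℂ) * s - I * ν w) * v / 2)))]
  have h7 : ∀ w : InfinitePlace K, ∫ v : ℝ, cexp (-(I * (ν w * Real.log (w (x : K)) : ℝ))) *
      (((g0 (e w) (Real.exp (v / 2) * av x w) : ℝ) : ℂ) *
        cexp (((w.mult : ℂ) * s - I * ν w) * v / 2)) =
      ((av x w : ℝ) : ℂ) ^ (-((w.mult : ℂ) * s)) *
        ((((Real.sqrt (w.mult : ℝ) : ℝ) : ℂ)) ^ (I * ν w) *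
          Complex.Gammaℝ ((w.mult : ℂ) * s - I * ν w + e w)) := by
    intro w
    rw [integral_const_mul, (local_int (hs' w) (hb w)).2, ← mul_assoc]
    have h8 := loc_phase w (hwx w) (ν w) s
    have h9 : av x w = Real.sqrt (w.mult : ℝ) * w (x : K) := rfl
    rw [h9, h8]
    ring
  rw [Finset.prod_congr rfl fun w _ => h7 w, Finset.prod_mul_distrib, prod_av hx,
    Finset.prod_mul_distrib]
  unfold GK
  have h10 : (∏ w : InfinitePlace K,
      (((Real.sqrt (w.mult : ℝ) : ℝ) : ℂ)) ^ (-((w.mult : ℂ) * s - I * ν w))) =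
      (∏ w : InfinitePlace K, (((Real.sqrt (w.mult : ℝ) : ℝ) : ℂ)) ^ (-((w.mult : ℂ) * s))) *
        ∏ w : InfinitePlace K, (((Real.sqrt (w.mult : ℝ) : ℝ) : ℂ)) ^ (I * ν w) := by
    rw [← Finset.prod_mul_distrib]
    refine Finset.prod_congr rfl fun w _ => ?_
    have h11 : (((Real.sqrt (w.mult : ℝ) : ℝ) : ℂ)) ≠ 0 := by
      exact_mod_cast (sqrt_mult_pos w).ne'
    rw [← Complex.cpow_add _ _ h11]
    congr 1
    ring
  rw [h10]
  ring

lemma Fv_unit (e : InfinitePlace K → ℕ) (ν : InfinitePlace K → ℝ) (s : ℂ) (J : PIdl K)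
    (ζ : torsion K) (m : Fin (rank K) → ℤ) (p : PP K) :
    Fv e ν s (xE K (J, (ζ, m))).1 p = Fv e ν s (gen J) (p.1, p.2 + lp m) := by
  unfold Fv
  rw [Fx_unit]
  congr 4
  refine congrArg _ (Finset.sum_congr rfl fun w _ => ?_)
  have hg0 : w ((gen J : 𝓞 K) : K) ≠ 0 := by
    rw [Ne, map_eq_zero]
    exact RingOfIntegers.coe_ne_zero_iff.mpr (gen_ne_zero J)
  have h1 : Real.log (w (((xE K (J, (ζ, m))).1 : 𝓞 K) : K)) =
      (∑ i, (m i : ℝ) * Real.log (w ((fundSystem K i : (𝓞 K)ˣ) : K))) +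
        Real.log (w ((gen J : 𝓞 K) : K)) := by
    rw [xE_apply]
    have : (((unE K (ζ, m) : (𝓞 K)ˣ) * gen J : 𝓞 K) : K) =
      ((unE K (ζ, m) : (𝓞 K)ˣ) : K) * (gen J : K) := map_mul (algebraMap (𝓞 K) K) _ _
    rw [this, map_mul, place_unE, Real.log_mul (Real.exp_pos _).ne' hg0, Real.log_exp]
  have h2 : el K (p.1, p.2 + lp m) w = el K p w +
      2 * ∑ i, (m i : ℝ) * Real.log (w ((fundSystem K i : (𝓞 K)ˣ) : K)) := by
    simp only [el, LinearMap.coe_mk, AddHom.coe_mk, Pi.add_apply, Pool.Agent.Y773.lp, add_mul,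
      Finset.sum_add_distrib]
    have h2 : ∑ i, (m i : ℝ) * (2 * Real.log (w ((fundSystem K i : (𝓞 K)ˣ) : K))) =
        2 * ∑ i, (m i : ℝ) * Real.log (w ((fundSystem K i : (𝓞 K)ˣ) : K)) := by
      rw [Finset.mul_sum]
      exact Finset.sum_congr rfl fun i _ => by ring
    rw [h2]
    ring
  rw [h1, h2]
  ring

/-- the integral statement -/
def IntV (K : Type) [Field K] [NumberField K] (c : ℝ) : Prop :=
  ∀ (e : InfinitePlace K → ℕ) (ν : InfinitePlace K → ℝ) (s : ℂ), 0 < s.re →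
      ∀ x : 𝓞 K, x ≠ 0 →
      Integrable (Fv e ν s x) ∧
      ∫ p, Fv e ν s x p = c * (((Ideal.absNorm (Ideal.span {x}) : ℕ) : ℂ) ^ (-s) * GK e ν s)

/-- the sum over the units -/
lemma unfold_J {c : ℝ} (hint : IntV K c) (e : InfinitePlace K → ℕ) (ν : InfinitePlace K → ℝ)
    {s : ℂ} (hs : 0 < s.re) (J : PIdl K) :
    HasSum (fun z : torsion K × (Fin (rank K) → ℤ) =>
      ∫ p in S0 K, Fv e ν s (xE K (J, z)).1 p)
      ((Nat.card (torsion K) : ℂ) * (c * (((Ideal.absNorm J.1 : ℕ) : ℂ) ^ (-s) *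
        GK e ν s))) := by
  classical
  have : Fintype (torsion K) := Fintype.ofFinite _
  obtain ⟨h1, h2⟩ := hint e ν s hs (gen J) (gen_ne_zero J)
  rw [span_gen] at h2
  have h3 := unfold_P _ h1
  rw [h2] at h3
  set W : ℂ := c * (((Ideal.absNorm J.1 : ℕ) : ℂ) ^ (-s) * GK e ν s) with hW
  have e1 : ∀ ζ m, (∫ p in S0 K, Fv e ν s (xE K (J, (ζ, m))).1 p) =
      ∫ p in {p : PP K | ∀ i, ⌊p.2 i⌋ = 0}, Fv e ν s (gen J) (p.1, p.2 + lp m) := by
    intro ζ m
    exact integral_congr_ae (Eventually.of_forall fun p => Fv_unit e ν s J ζ m p)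
  -- summability
  have h5 : Summable fun z : torsion K × (Fin (rank K) → ℤ) =>
      ∫ p in S0 K, Fv e ν s (xE K (J, z)).1 p := by
    refine Summable.of_norm ?_
    refine (summable_prod_of_nonneg (fun z => norm_nonneg _)).mpr ⟨fun ζ => ?_, Summable.of_finite⟩
    simp only [e1]
    exact h3.summable.norm
  have h6 := h5.hasSum
  rw [h5.tsum_prod] at h6
  have h7 : ∀ ζ : torsion K, ∑' m : Fin (rank K) → ℤ,
      (∫ p in S0 K, Fv e ν s (xE K (J, (ζ, m))).1 p) = W := by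
    intro ζ
    simp only [e1]
    exact h3.tsum_eq
  simp only [h7] at h6
  rw [tsum_fintype, Finset.sum_const, nsmul_eq_mul, Finset.card_univ,
    ← Nat.card_eq_fintype_card] at h6
  exact h6

/-- **Unfolding** -/
theorem unf (K : Type) [Field K] [NumberField K] : ∃ C : ℝ, 0 < C ∧
    ∀ (e : InfinitePlace K → ℕ) (ν : InfinitePlace K → ℝ) (A : PIdl K → ℂ) (B : ℝ),
      (∀ J, ‖A J‖ ≤ B) →
      ∀ s : ℂ, 1 < s.re →
      (∀ x : {x : 𝓞 K // x ≠ 0},
        Integrable (fun p => A (toP x) * Fv e ν s x.1 p) (volume.restrict (S0 K))) ∧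
      (Summable fun x : {x : 𝓞 K // x ≠ 0} =>
        ∫ p in S0 K, ‖A (toP x) * Fv e ν s x.1 p‖) ∧
      ∫ p in S0 K, ∑' x : {x : 𝓞 K // x ≠ 0}, A (toP x) * Fv e ν s x.1 p =
        C * ((GK e ν s) *
          ∑' J : PIdl K, A J * ((Ideal.absNorm J.1 : ℕ) : ℂ) ^ (-s)) := by
  classical
  obtain ⟨c, hc, hint⟩ : ∃ c : ℝ, 0 < c ∧ IntV K c := int_Fv K
  have htor : 0 < Nat.card (torsion K) := Nat.card_pos
  refine ⟨Nat.card (torsion K) * c, by positivity, fun e ν A B hA s hs => ?_⟩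
  have hs0 : 0 < s.re := by linarith
  have hB : 0 ≤ B := (norm_nonneg _).trans (hA (toP ⟨1, one_ne_zero⟩))
  have hcount : Countable (𝓞 K) := (coE K).countable_iff.mpr inferInstance
  have hi : ∀ x : {x : 𝓞 K // x ≠ 0},
      Integrable (fun p => A (toP x) * Fv e ν s x.1 p) (volume.restrict (S0 K)) := fun x =>
    ((hint e ν s hs0 x.1 x.2).1.const_mul _).restrict
  -- the integrals of the norms
  set r : {x : 𝓞 K // x ≠ 0} → ℝ := fun x => ∫ p in S0 K, ‖Fx e s (av x.1) p‖ with hr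
  have hrc : ∀ x : {x : 𝓞 K // x ≠ 0}, ((r x : ℝ) : ℂ) = ∫ p in S0 K, Fx e (s.re : ℂ) (av x.1) p := by
    intro x
    rw [hr, ← integral_complex_ofReal]
    refine integral_congr_ae (Eventually.of_forall fun p => ?_)
    simp only
    rw [norm_Fx e s (av_pos x.2)]
  set R0 : ℝ := ((Nat.card (torsion K) : ℂ) * (c * GK e (fun _ => 0) (s.re : ℂ))).re with hR0
  have hrJ : ∀ J : PIdl K, HasSum (fun z : torsion K × (Fin (rank K) → ℤ) => r (xE K (J, z)))
      ((Ideal.absNorm J.1 : ℝ) ^ (-s.re) * R0) := by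
    intro J
    have h1 := unfold_J hint e (fun _ => 0) (s := (s.re : ℂ)) (by simpa using hs0) J
    simp_rw [Fv_zero] at h1
    have h2 := Complex.hasSum_re h1
    have h3 : ((Nat.card (torsion K) : ℂ) * (c * (((Ideal.absNorm J.1 : ℕ) : ℂ) ^ (-(s.re : ℂ)) *
        GK e (fun _ => 0) (s.re : ℂ)))).re = (Ideal.absNorm J.1 : ℝ) ^ (-s.re) * R0 := by
      have h4 : (((Ideal.absNorm J.1 : ℕ) : ℂ) ^ (-(s.re : ℂ))) =
          (((Ideal.absNorm J.1 : ℝ) ^ (-s.re) : ℝ) : ℂ) := by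
        rw [Complex.ofReal_cpow (Nat.cast_nonneg _)]
        push_cast
        rfl
      rw [h4, hR0, ← Complex.re_ofReal_mul]
      congr 1
      ring
    rw [h3] at h2
    refine h2.congr_fun fun z => ?_
    rw [← hrc, Complex.ofReal_re]
  have hsum : Summable fun x : {x : 𝓞 K // x ≠ 0} =>
      ∫ p in S0 K, ‖A (toP x) * Fv e ν s x.1 p‖ := by
    have h1 : ∀ x : {x : 𝓞 K // x ≠ 0}, ∫ p in S0 K, ‖A (toP x) * Fv e ν s x.1 p‖ =
        ‖A (toP x)‖ * r x := by
      intro x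
      simp_rw [norm_mul, norm_Fv]
      rw [integral_const_mul]
    simp_rw [h1]
    have hr0 : ∀ x, 0 ≤ r x := fun x => integral_nonneg fun p => norm_nonneg _
    rw [← (xE K).summable_iff]
    refine (summable_prod_of_nonneg (fun z => mul_nonneg (norm_nonneg _) (hr0 _))).mpr ⟨?_, ?_⟩
    · intro J
      simp only [Function.comp_apply, toP_xE]
      exact (hrJ J).summable.mul_left _
    · have h2 : ∀ J : PIdl K, ∑' z : torsion K × (Fin (rank K) → ℤ),
          ((fun x : {x : 𝓞 K // x ≠ 0} => ‖A (toP x)‖ * r x) ∘ (xE K)) (J, z) =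
          ‖A J‖ * ((Ideal.absNorm J.1 : ℝ) ^ (-s.re) * R0) := by
        intro J
        simp only [Function.comp_apply, toP_xE]
        rw [tsum_mul_left, (hrJ J).tsum_eq]
      have hR0n : 0 ≤ R0 := by
        have h3 := (hrJ (toP ⟨1, one_ne_zero⟩)).nonneg (fun z => hr0 _)
        have h4 : 0 < (Ideal.absNorm (toP (⟨1, one_ne_zero⟩ : {x : 𝓞 K // x ≠ 0})).1 : ℝ) ^ (-s.re) := by
          apply Real.rpow_pos_of_pos
          have : Ideal.absNorm (toP (⟨1, one_ne_zero⟩ : {x : 𝓞 K // x ≠ 0})).1 ≠ 0 := by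
            rw [Ne, Ideal.absNorm_eq_zero_iff]
            exact (toP (⟨1, one_ne_zero⟩ : {x : 𝓞 K // x ≠ 0})).2.1
          exact_mod_cast Nat.pos_of_ne_zero this
        by_contra hneg
        push Not at hneg
        have := mul_neg_of_pos_of_neg h4 hneg
        linarith
      have h8 : Summable fun J : PIdl K => ‖A J‖ * ((Ideal.absNorm J.1 : ℝ) ^ (-s.re) * R0) := by
        refine Summable.of_nonneg_of_le (fun J => by positivity) (fun J => ?_)
          (((summable_PIdl (K := K) hs).mul_right R0).mul_left B)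
        exact mul_le_mul_of_nonneg_right (hA J) (by positivity)
      exact h8.congr fun J => (h2 J).symm
  refine ⟨hi, hsum, ?_⟩
  have h5 := hasSum_integral_of_summable_integral_norm hi hsum
  rw [← h5.tsum_eq, ← (xE K).tsum_eq]
  have h6 : Summable fun z : PIdl K × (torsion K × (Fin (rank K) → ℤ)) =>
      ∫ p in S0 K, A (toP (xE K z)) * Fv e ν s (xE K z).1 p := (xE K).summable_iff.mpr h5.summable
  rw [h6.tsum_prod, ← tsum_mul_left, ← tsum_mul_left]
  refine tsum_congr fun J => ?_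
  simp only [toP_xE]
  have h7 : ∀ z : torsion K × (Fin (rank K) → ℤ), ∫ p in S0 K, A J * Fv e ν s (xE K (J, z)).1 p =
      A J * ∫ p in S0 K, Fv e ν s (xE K (J, z)).1 p := fun z => integral_const_mul _ _
  simp_rw [h7]
  rw [tsum_mul_left, (unfold_J hint e ν hs0 J).tsum_eq]
  push_cast
  ring

end Pool.Agent.J4H31.U
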