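import Pool.Agent.J4H31.U.U6
import Pool.Agent.Y773.HG.Mel

/-!
The Mellin transform of the theta series (after `Pool.Agent.Y773.HG.Mel`).
-/

set_option autoImplicit false
set_option linter.unusedSectionVars false

open NumberField Complex Filter Topology MeasureTheory Set
open NumberField.Units NumberField.Units.dirichletUnitTheorem
open Pool.Agent.Y773 (PP S0 Fx PIdl gen span_gen gen_ne_zero toP xE unE lp unfold_P el cube S0_eq
  integrable_tsum integral_exp_sub integrable_exp_sub)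
open Pool.Agent.Y773.G hiding unfold_J unf Nice AA hf mellin_hf th
open Pool.Agent.Y767 (ax ph norm_ph norm_ax continuous_ph ax_mul ax_neg_mul)

namespace Pool.Agent.J4H31.U

variable {K : Type} [Field K] [NumberField K]

lemma us_conj_mul {σ : InfinitePlace K → (K →+* ℂ)} (h : Sel σ) (e : InfinitePlace K → ℕ) {x : K}
    (hx : x ≠ 0) : (starRingEnd ℂ) (us σ e x) * us σ e x = 1 := by
  rw [mul_comm, Complex.mul_conj, Complex.normSq_eq_norm_sq, norm_us h e hx]
  simp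

/-- the archimedean part of the characters -/
noncomputable def kp (σ : InfinitePlace K → (K →+* ℂ)) (e : InfinitePlace K → ℕ)
    (ν : InfinitePlace K → ℝ) (x : K) : ℂ :=
  (starRingEnd ℂ) (us σ e x) * ax (fun w => -ν w) x

lemma kp_mul_inv {σ : InfinitePlace K → (K →+* ℂ)} (h : Sel σ) (e : InfinitePlace K → ℕ)
    (ν : InfinitePlace K → ℝ) {x : K} (hx : x ≠ 0) : kp σ e ν x * (us σ e x * ax ν x) = 1 := by
  unfold kp
  have h1 := us_conj_mul h e hx
  have h2 := ax_neg_mul ν x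
  calc _ = ((starRingEnd ℂ) (us σ e x) * us σ e x) * (ax (fun w => -ν w) x * ax ν x) := by ring
    _ = 1 := by rw [h1, h2, one_mul]

/-- the functions `Ψ` under consideration -/
structure NiceX (σ : InfinitePlace K → (K →+* ℂ)) (e : InfinitePlace K → ℕ)
    (ν : InfinitePlace K → ℝ) (Ψ : 𝓞 K → ℂ) : Prop where
  sel : Sel σ
  ex : Ex e
  nu : ∑ w, ν w = 0
  bdd : ∃ B : ℝ, ∀ x, ‖Ψ x‖ ≤ B
  zero : Ψ 0 = 0
  unit : ∀ (u : (𝓞 K)ˣ) (x : 𝓞 K), Ψ (u * x) = kp σ e ν ((u : 𝓞 K) : K) * Ψ x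

/-- the function on the principal ideals -/
noncomputable def AX (σ : InfinitePlace K → (K →+* ℂ)) (e : InfinitePlace K → ℕ)
    (ν : InfinitePlace K → ℝ) (Ψ : 𝓞 K → ℂ) (J : PIdl K) : ℂ :=
  Ψ (gen J) * (us σ e (gen J : K) * ax ν (gen J : K))

lemma norm_AX_le {σ : InfinitePlace K → (K →+* ℂ)} (h : Sel σ) {e : InfinitePlace K → ℕ}
    {ν : InfinitePlace K → ℝ}
    {Ψ : 𝓞 K → ℂ} {B : ℝ} (hB : ∀ x, ‖Ψ x‖ ≤ B) (J : PIdl K) : ‖AX σ e ν Ψ J‖ ≤ B := by
  unfold AX
  rw [norm_mul, norm_mul, norm_ax, mul_one]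
  calc _ ≤ B * 1 := mul_le_mul (hB _) (norm_us_le h e _) (norm_nonneg _)
        ((norm_nonneg _).trans (hB 0))
    _ = B := mul_one B

lemma AX_toP {σ : InfinitePlace K → (K →+* ℂ)} {e : InfinitePlace K → ℕ}
    {ν : InfinitePlace K → ℝ} {Ψ : 𝓞 K → ℂ}
    (h : NiceX σ e ν Ψ) (x : {x : 𝓞 K // x ≠ 0}) :
    Ψ x.1 * (us σ e ((x.1 : 𝓞 K) : K) * ax ν ((x.1 : 𝓞 K) : K)) = AX σ e ν Ψ (toP x) := by
  obtain ⟨⟨J, z⟩, rfl⟩ := (xE K).surjective x
  rw [toP_xE]
  have h1 : (xE K (J, z)).1 = (unE K z : 𝓞 K) * gen J := rfl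
  have h2 : (((unE K z : (𝓞 K)ˣ) * gen J : 𝓞 K) : K) =
      ((unE K z : (𝓞 K)ˣ) : K) * (gen J : K) := map_mul (algebraMap (𝓞 K) K) _ _
  have hu0 : ((unE K z : (𝓞 K)ˣ) : K) ≠ 0 := by simp
  have hg0 : (gen J : K) ≠ 0 := RingOfIntegers.coe_ne_zero_iff.mpr (gen_ne_zero J)
  rw [h1, h.unit, h2, us_mul, ax_mul ν hu0 hg0]
  unfold AX
  have h3 := kp_mul_inv h.sel e ν hu0
  calc _ = (kp σ e ν ((unE K z : (𝓞 K)ˣ) : K) * (us σ e ((unE K z : (𝓞 K)ˣ) : K) *
        ax ν ((unE K z : (𝓞 K)ˣ) : K))) *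
        (Ψ (gen J) * (us σ e (gen J : K) * ax ν (gen J : K))) := by ring
    _ = _ := by rw [h3, one_mul]

/-- the theta series as a sum over the non-zero integers -/
lemma tt_eq {σ : InfinitePlace K → (K →+* ℂ)} {e : InfinitePlace K → ℕ}
    {ν : InfinitePlace K → ℝ} {Ψ : 𝓞 K → ℂ} (h : NiceX σ e ν Ψ) (s : ℂ) (p : PP K) :
    tt σ e Ψ (el K p) * ph ν (el K p) * cexp (Module.finrank ℚ K * s * p.1 / 2) =
      ∑' x : {x : 𝓞 K // x ≠ 0}, AX σ e ν Ψ (toP x) * Fv e ν s x.1 p := by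
  unfold tt
  rw [mul_assoc, ← tsum_mul_right]
  have hsupp : Function.support (fun x : 𝓞 K =>
      Ψ x * GX σ e (fun w => Real.exp (el K p w / 2)) (x : K) *
      (ph ν (el K p) * cexp (Module.finrank ℚ K * s * p.1 / 2))) ⊆ {x | x ≠ 0} := by
    intro x hx h0
    apply hx
    change x = 0 at h0
    simp only
    rw [h0, h.zero, zero_mul, zero_mul]
  rw [← tsum_subtype_eq_of_support_subset hsupp]
  refine tsum_congr fun x => ?_
  rw [← AX_toP h x]
  unfold Fv Fx
  rw [GX_eq h.sel]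
  have hav : (fun w => Real.exp (el K p w / 2) * avK ((x : 𝓞 K) : K) w) =
      fun w => Real.exp (el K p w / 2) * av (x : 𝓞 K) w := rfl
  rw [hav]
  have h5 : cexp (-(I * ((∑ w, ν w * (el K p w / 2 + Real.log (w ((x.1 : 𝓞 K) : K))) : ℝ) : ℂ))) *
      ax ν ((x.1 : 𝓞 K) : K) = ph ν (el K p) := by
    unfold Pool.Agent.Y767.ax Pool.Agent.Y767.ph
    rw [← Complex.exp_add]
    congr 1
    have : (∑ w, ν w * (el K p w / 2 + Real.log (w ((x.1 : 𝓞 K) : K))) : ℝ) =
        (∑ w, ν w * el K p w) / 2 + ∑ w, ν w * Real.log (w ((x.1 : 𝓞 K) : K)) := by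
      rw [Finset.sum_div, ← Finset.sum_add_distrib]
      exact Finset.sum_congr rfl fun w _ => by ring
    rw [this]
    push_cast
    ring
  rw [← h5]
  ring

/-- the function whose Mellin transform is the completed Dirichlet series -/
noncomputable def hX (σ : InfinitePlace K → (K →+* ℂ)) (e : InfinitePlace K → ℕ)
    (ν : InfinitePlace K → ℝ) (Ψ : 𝓞 K → ℂ) (t : ℝ) : ℂ :=
  ∫ θ in cube K, tt σ e Ψ (el K ((2 / Module.finrank ℚ K) * Real.log t, θ)) *
    ph ν (el K ((2 / Module.finrank ℚ K) * Real.log t, θ))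

theorem mellin_hX (K : Type) [Field K] [NumberField K] : ∃ C : ℝ, 0 < C ∧
    ∀ (σ : InfinitePlace K → (K →+* ℂ)) (e : InfinitePlace K → ℕ) (ν : InfinitePlace K → ℝ)
      (Ψ : 𝓞 K → ℂ), NiceX σ e ν Ψ → ∀ s : ℂ, 1 < s.re →
      MellinConvergent (hX σ e ν Ψ) s ∧ (Summable fun J : PIdl K =>
        AX σ e ν Ψ J * ((Ideal.absNorm J.1 : ℕ) : ℂ) ^ (-s)) ∧
      mellin (hX σ e ν Ψ) s = C * ((GK e ν s) *
          ∑' J : PIdl K, AX σ e ν Ψ J * ((Ideal.absNorm J.1 : ℕ) : ℂ) ^ (-s)) := by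
  classical
  obtain ⟨C, hC, hunf⟩ := unf K
  have hn : (0 : ℝ) < Module.finrank ℚ K := by exact_mod_cast Module.finrank_pos
  set n : ℝ := ((Module.finrank ℚ K : ℕ) : ℝ) with hn'
  refine ⟨n / 2 * C, by positivity, fun σ e ν Ψ h s hs => ?_⟩
  obtain ⟨B, hB⟩ := h.bdd
  obtain ⟨h1, h2, h3⟩ := hunf e ν (AX σ e ν Ψ) B (norm_AX_le h.sel hB) s hs
  have hcount : Countable (𝓞 K) := (coE K).countable_iff.mpr inferInstance
  have hth := tt_eq h s
  have hcont : Continuous fun p : PP K => tt σ e Ψ (el K p) * ph ν (el K p) *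
      cexp (Module.finrank ℚ K * s * p.1 / 2) := by
    have h4 : Continuous (el K) := (el K).continuous_of_finiteDimensional
    exact (((continuous_tt σ e hB).comp h4).mul ((continuous_ph ν).comp h4)).mul (by fun_prop)
  have hint : Integrable (fun p : PP K => tt σ e Ψ (el K p) * ph ν (el K p) *
      cexp (Module.finrank ℚ K * s * p.1 / 2)) (volume.restrict (S0 K)) := by
    have h5 := integrable_tsum h1 h2 (by
      simp_rw [← hth]
      exact hcont.aestronglyMeasurable)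
    simp_rw [← hth] at h5
    exact h5
  simp_rw [← hth] at h3
  -- Fubini
  have hrestr : (volume : Measure (PP K)).restrict (S0 K) =
      (volume : Measure ℝ).prod (volume.restrict (cube K)) := by
    rw [S0_eq, Measure.volume_eq_prod, ← Measure.prod_restrict, Measure.restrict_univ]
  rw [hrestr] at hint h3
  rw [integral_prod _ hint] at h3
  have h9 := hint.integral_prod_left
  -- the substitution
  have h6 : ∀ v : ℝ, (Real.exp v : ℂ) * (((Real.exp v : ℝ) : ℂ) ^ (s - 1) • hX σ e ν Ψ (Real.exp v)) =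
      (fun τ : ℝ => ∫ θ in cube K, tt σ e Ψ (el K (τ, θ)) * ph ν (el K (τ, θ)) *
        cexp (Module.finrank ℚ K * s * ((τ, θ) : PP K).1 / 2)) (2 / n * v) := by
    intro v
    simp only
    rw [integral_mul_const]
    unfold hX
    rw [Real.log_exp, smul_eq_mul]
    have hev : ((Real.exp v : ℝ) : ℂ) ≠ 0 := by exact_mod_cast (Real.exp_pos v).ne'
    have h7 : (Real.exp v : ℂ) * (((Real.exp v : ℝ) : ℂ) ^ (s - 1)) =
        cexp (Module.finrank ℚ K * s * ((2 / n * v : ℝ) : ℂ) / 2) := by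
      rw [Complex.cpow_def_of_ne_zero hev, ← Complex.ofReal_log (Real.exp_pos v).le, Real.log_exp,
        Complex.ofReal_exp, ← Complex.exp_add]
      congr 1
      have hnc : (n : ℂ) ≠ 0 := by exact_mod_cast hn.ne'
      have hnn : (Module.finrank ℚ K : ℂ) = (n : ℂ) := by rw [hn']; push_cast; rfl
      rw [hnn]
      push_cast
      field_simp
      ring
    rw [← mul_assoc, h7]
    ring
  have hsumJ : Summable fun J : PIdl K => AX σ e ν Ψ J * ((Ideal.absNorm J.1 : ℕ) : ℂ) ^ (-s) := by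
    refine Summable.of_norm_bounded ((summable_PIdl (K := K) hs).mul_left B) fun J => ?_
    rw [norm_mul, norm_absNorm_cpow J.2.1]
    exact mul_le_mul_of_nonneg_right (norm_AX_le h.sel hB J) (by positivity)
  have hconv : MellinConvergent (hX σ e ν Ψ) s := by
    unfold MellinConvergent
    rw [← integrable_exp_sub]
    refine (h9.comp_mul_left' (R := 2 / n) (by positivity)).congr (Eventually.of_forall fun v => ?_)
    exact (h6 v).symm
  refine ⟨hconv, hsumJ, ?_⟩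
  unfold mellin
  rw [← integral_exp_sub]
  rw [integral_congr_ae (Eventually.of_forall h6)]
  have h8 := Measure.integral_comp_mul_left (fun τ : ℝ => ∫ θ in cube K, tt σ e Ψ (el K (τ, θ)) * ph ν (el K (τ, θ)) *
        cexp (Module.finrank ℚ K * s * ((τ, θ) : PP K).1 / 2)) (2 / n)
  refine h8.trans ?_
  rw [h3, abs_of_pos (by positivity), Complex.real_smul]
  push_cast
  have hnc : (n : ℂ) ≠ 0 := by exact_mod_cast hn.ne'
  field_simp

end Pool.Agent.J4H31.U
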